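import Pool.Agent.NCR.LiftEnd
import Pool.Agent.NCP.RDefs

/-! # NCR: a local homeomorphism `ℝⁿ → ℝⁿ` with lifts of segments is bijective

PROOF. `exists_lift_end` with `A = E n`, `H v t = e w₀ + t • (v - e w₀)`, `s` constant `w₀` gives a continuous
`σ : E n → E n` with `e (σ v) = v` and `σ (e w₀) = w₀` (constant lift). `e` is surjective. The set
`{w | σ (e w) = w}` is closed, contains `w₀`, and is open: if `σ (e w) = w`, then for `w'` near `w`,
`σ (e w')` is near `σ (e w) = w` and `e (σ (e w')) = e w'`, so `σ (e w') = w'` by local injectivity.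
So it is everything and `e` is injective. -/

set_option autoImplicit false

open Set Filter Topology

namespace Pool.Agent.NCR

open Pool.Agent.NCP (E)

theorem bijective_of_segment_lifts {n : ℕ} {e : E n → E n} (he : IsLocalHomeomorph e) {w₀ : E n}
    (hl : ∀ v, ∃ y : ℝ → E n, ContinuousOn y (Icc 0 1) ∧ y 0 = w₀ ∧
      ∀ t ∈ Icc (0 : ℝ) 1, e (y t) = e w₀ + t • (v - e w₀)) : Function.Bijective e := by
  obtain ⟨σ, hσc, hσe, hσu⟩ := exists_lift_end (A := E n) (X := E n) (Y := E n) he
    (H := fun v t => e w₀ + t • (v - e w₀)) (by fun_prop) (s := fun _ => w₀) continuous_const hl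
  have h1 : ∀ v, e (σ v) = v := by
    intro v
    rw [hσe v]
    simp
  have h2 : σ (e w₀) = w₀ := by
    rw [hσu (e w₀) (fun _ => w₀) continuousOn_const rfl (fun t _ => by simp)]
  have hec : Continuous e := he.continuous
  have hcl : IsClosed {w : E n | σ (e w) = w} := isClosed_eq (hσc.comp hec) continuous_id
  have hop : IsOpen {w : E n | σ (e w) = w} := by
    rw [isOpen_iff_mem_nhds]
    intro w hw
    have hw' : σ (e w) = w := hw
    obtain ⟨U, hU, hinj⟩ := he.isLocallyInjective w
    obtain ⟨hUo, hwU⟩ := hinj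
    have hc : ContinuousAt (fun x => σ (e x)) w := (hσc.comp hec).continuousAt
    have hU1 : U ∈ 𝓝 ((fun x => σ (e x)) w) := by
      show U ∈ 𝓝 (σ (e w))
      rw [hw']
      exact hU.mem_nhds hUo
    filter_upwards [hc hU1, hU.mem_nhds hUo] with x hx1 hx2
    exact hwU hx1 hx2 (h1 (e x))
  have hall : {w : E n | σ (e w) = w} = univ :=
    IsClopen.eq_univ ⟨hcl, hop⟩ ⟨w₀, h2⟩
  constructor
  · intro a b hab
    have ha : σ (e a) = a := by
      have : a ∈ {w : E n | σ (e w) = w} := by rw [hall]; trivial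
      exact this
    have hb : σ (e b) = b := by
      have : b ∈ {w : E n | σ (e w) = w} := by rw [hall]; trivial
      exact this
    rw [← ha, ← hb, hab]
  · intro v
    exact ⟨σ v, h1 v⟩

end Pool.Agent.NCR
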