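import Pool.Agent.NCR.Defs

/-! # NCR: change of charts for lifts

`exists_change`: `θ` from `R.trans i j x y`, `θ'` from `R.trans j i y x`. Near `x` the maps
`θ' ∘ θ` and `id` are two lifts of `q i` to the chart `i`, equal at `x`; local injectivity of `q i`
(`locInj`) gives `θ' (θ z) = z` near `x`; same near `y`.
`Lift.eventually_eq`: `locInj` and continuity.
`Lift.change`: compose with `θ`.
`Lift.metric_eq`: `x' = θ ∘ x` near `p` by the first two, chain rule. -/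

set_option autoImplicit false

open Set Filter Topology
open scoped ContDiff

namespace Pool.Agent.NCR

open Pool.Agent.NCP (E RMetric)
open Pool.Agent.NCQ (GeodesicAt)

variable {n : ℕ} {ι M : Type} [TopologicalSpace M]

/-- two maps into a chart which have the same projection near `x` and the same value at `x` agree
near `x` -/
theorem RM.eq_of_proj (R : RM n ι M) {P : Type} [TopologicalSpace P] {j : ι} {f g : P → E n}
    {p : P} (hf : ContinuousAt f p) (hg : ContinuousAt g p) (e : f p = g p) (hd : f p ∈ R.dom)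
    (h : ∀ᶠ r in 𝓝 p, R.q j (f r) = R.q j (g r)) : ∀ᶠ r in 𝓝 p, f r = g r := by
  obtain ⟨U, hU, hinj⟩ := R.locInj j (f p) hd
  have h1 : ∀ᶠ r in 𝓝 p, f r ∈ U := hf.eventually hU
  have h2 : ∀ᶠ r in 𝓝 p, g r ∈ U := by
    apply hg.eventually
    rw [← e]
    exact hU
  filter_upwards [h, h1, h2] with r hr h1 h2
  exact hinj h1 h2 hr

/-- a transition map is smooth near the base point -/
theorem RM.trans_smooth (R : RM n ι M) {i j : ι} {x : E n} (hx : x ∈ R.dom)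
    {θ : E n → E n} (hθ : ContDiffAt ℝ ∞ θ x)
    (h : ∀ᶠ z in 𝓝 x, θ z ∈ R.dom ∧ R.q j (θ z) = R.q i z) :
    ∀ᶠ z in 𝓝 x, ContDiffAt ℝ ∞ θ z := by
  have h1 : ∀ᶠ z in 𝓝 x, ContDiffAt ℝ 1 θ z :=
    (hθ.of_le (by exact_mod_cast le_top)).eventually (by decide)
  have h2 : ∀ᶠ z in 𝓝 x, ∀ᶠ w in 𝓝 z, θ w ∈ R.dom ∧ R.q j (θ w) = R.q i w :=
    h.eventually_nhds
  have h3 : ∀ᶠ z in 𝓝 x, z ∈ R.dom := R.isOpen_dom.mem_nhds hx
  filter_upwards [h1, h2, h3] with z h1 h2 h3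
  obtain ⟨h4, h5⟩ := h2.self_of_nhds
  obtain ⟨φ, hφ, hφz, hφe⟩ := R.trans i j z (θ z) h3 h4 h5.symm
  have h6 : ∀ᶠ w in 𝓝 z, θ w = φ w := by
    refine R.eq_of_proj (j := j) h1.continuousAt hφ.continuousAt hφz.symm h4 ?_
    filter_upwards [h2, hφe] with w hw hw'
    rw [hw.2, hw'.2.1]
  exact hφ.congr_of_eventuallyEq h6

theorem RM.exists_change (R : RM n ι M) {i j : ι} {x y : E n} (hx : x ∈ R.dom) (hy : y ∈ R.dom)
    (h : R.q i x = R.q j y) : ∃ θ θ' : E n → E n, ContDiffAt ℝ ∞ θ x ∧ ContDiffAt ℝ ∞ θ' y ∧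
      θ x = y ∧ θ' y = x ∧
      (∀ᶠ z in 𝓝 x, θ' (θ z) = z ∧ θ z ∈ R.dom ∧ R.q j (θ z) = R.q i z ∧
        ∀ v w, R.G j (θ z) (fderiv ℝ θ z v) (fderiv ℝ θ z w) = R.G i z v w) ∧
      (∀ᶠ z in 𝓝 y, θ (θ' z) = z ∧ θ' z ∈ R.dom ∧ R.q i (θ' z) = R.q j z ∧
        ∀ v w, R.G i (θ' z) (fderiv ℝ θ' z v) (fderiv ℝ θ' z w) = R.G j z v w) := by
  obtain ⟨θ, hθ, hθx, hθe⟩ := R.trans i j x y hx hy h
  obtain ⟨θ', hθ', hθ'y, hθ'e⟩ := R.trans j i y x hy hx h.symm
  have c1 : ContinuousAt θ x := hθ.continuousAt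
  have c2 : ContinuousAt θ' y := hθ'.continuousAt
  refine ⟨θ, θ', hθ, hθ', hθx, hθ'y, ?_, ?_⟩
  · have h1 : ∀ᶠ z in 𝓝 x, θ' (θ z) = z := by
      refine R.eq_of_proj (f := fun z => θ' (θ z)) (g := fun z => z) (j := i) ?_ continuousAt_id ?_ ?_ ?_
      · exact ContinuousAt.comp (g := θ') (f := θ) (by rw [hθx]; exact c2) c1
      · show θ' (θ x) = x
        rw [hθx, hθ'y]
      · show θ' (θ x) ∈ R.dom
        rw [hθx, hθ'y]; exact hx
      · have h2 : ∀ᶠ z in 𝓝 x, R.q i (θ' (θ z)) = R.q j (θ z) := by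
          have h3 : ∀ᶠ w in 𝓝 (θ x), R.q i (θ' w) = R.q j w := by
            rw [hθx]
            exact hθ'e.mono fun w hw => hw.2.1
          exact c1.eventually h3
        filter_upwards [h2, hθe] with z h2 h3
        rw [h2, h3.2.1]
    filter_upwards [h1, hθe] with z h1 h2
    exact ⟨h1, h2⟩
  · have h1 : ∀ᶠ z in 𝓝 y, θ (θ' z) = z := by
      refine R.eq_of_proj (f := fun z => θ (θ' z)) (g := fun z => z) (j := j) ?_ continuousAt_id ?_ ?_ ?_
      · exact ContinuousAt.comp (g := θ) (f := θ') (by rw [hθ'y]; exact c1) c2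
      · show θ (θ' y) = y
        rw [hθ'y, hθx]
      · show θ (θ' y) ∈ R.dom
        rw [hθ'y, hθx]; exact hy
      · have h2 : ∀ᶠ z in 𝓝 y, R.q j (θ (θ' z)) = R.q i (θ' z) := by
          have h3 : ∀ᶠ w in 𝓝 (θ' y), R.q j (θ w) = R.q i w := by
            rw [hθ'y]
            exact hθe.mono fun w hw => hw.2.1
          exact c2.eventually h3
        filter_upwards [h2, hθ'e] with z h2 h3
        rw [h2, h3.2.1]
    filter_upwards [h1, hθ'e] with z h1 h2
    exact ⟨h1, h2⟩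

variable {P : Type} [NormedAddCommGroup P] [NormedSpace ℝ P]

theorem RM.Lift.eventually {R : RM n ι M} {α : P → M} {p : P} {i : ι} {x : P → E n}
    (h : R.Lift α p i x) : ∀ᶠ r in 𝓝 p, R.Lift α r i x :=
  Filter.Eventually.eventually_nhds h

theorem RM.Lift.congr {R : RM n ι M} {α α' : P → M} {p : P} {i : ι} {x x' : P → E n}
    (h : R.Lift α p i x) (hα : ∀ᶠ r in 𝓝 p, α' r = α r) (hx : ∀ᶠ r in 𝓝 p, x' r = x r) :
    R.Lift α' p i x' := by
  unfold RM.Lift at h ⊢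
  filter_upwards [h, hα, hx, hx.eventually_nhds] with r h1 h2 h3 h4
  refine ⟨h1.1.congr_of_eventuallyEq h4, ?_, ?_⟩
  · rw [h3]; exact h1.2.1
  · rw [h3, h2]; exact h1.2.2

theorem RM.Lift.eventually_eq {R : RM n ι M} {α : P → M} {p : P} {i : ι} {x x' : P → E n}
    (h : R.Lift α p i x) (h' : R.Lift α p i x') (e : x p = x' p) : ∀ᶠ r in 𝓝 p, x r = x' r := by
  have h1 := h.self_of_nhds
  have h2 := h'.self_of_nhds
  refine R.eq_of_proj (j := i) h1.1.continuousAt h2.1.continuousAt e h1.2.1 ?_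
  unfold RM.Lift at h h'
  filter_upwards [h, h'] with r hr hr'
  rw [hr.2.2, hr'.2.2]

/-- a lift to the chart `j` through a given point `y`, with the metric -/
theorem RM.Lift.change_aux {R : RM n ι M} {α : P → M} {p : P} {i : ι} {x : P → E n}
    (h : R.Lift α p i x) {j : ι} {y : E n} (hy : y ∈ R.dom) (e : R.q j y = α p) :
    ∃ θ : E n → E n, ContDiffAt ℝ ∞ θ (x p) ∧ θ (x p) = y ∧
      Function.Injective (fderiv ℝ θ (x p)) ∧ R.Lift α p j (fun r => θ (x r)) ∧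
      ∀ v w, R.G j (θ (x p)) (fderiv ℝ θ (x p) v) (fderiv ℝ θ (x p) w) = R.G i (x p) v w := by
  have h0 := h.self_of_nhds
  obtain ⟨θ, θ', hθ, hθ', hθx, hθ'y, h1, -⟩ := R.exists_change h0.2.1 hy (h0.2.2.trans e.symm)
  have hs := R.trans_smooth h0.2.1 hθ (i := i) (j := j) (h1.mono fun z hz => ⟨hz.2.1, hz.2.2.1⟩)
  have hc : ContinuousAt x p := h0.1.continuousAt
  refine ⟨θ, hθ, hθx, ?_, ?_, h1.self_of_nhds.2.2.2⟩
  · have d1 : DifferentiableAt ℝ θ (x p) := hθ.differentiableAt (by decide)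
    have d2 : DifferentiableAt ℝ θ' (θ (x p)) := by
      rw [hθx]; exact hθ'.differentiableAt (by decide)
    have h3 : (fun z => θ' (θ z)) =ᶠ[𝓝 (x p)] fun z => z := h1.mono fun z hz => hz.1
    have h4 := h3.fderiv_eq (𝕜 := ℝ)
    have h5 : fderiv ℝ (fun z => θ' (θ z)) (x p) = (fderiv ℝ θ' (θ (x p))).comp (fderiv ℝ θ (x p)) :=
      fderiv_fun_comp (x p) d2 d1
    rw [h5] at h4
    have h6 : fderiv ℝ (fun z : E n => z) (x p) = ContinuousLinearMap.id ℝ (E n) := fderiv_fun_id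
    rw [h6] at h4
    intro a b hab
    have h7 := congrArg (fun L : E n →L[ℝ] E n => L a) h4
    have h8 := congrArg (fun L : E n →L[ℝ] E n => L b) h4
    simp only [ContinuousLinearMap.comp_apply, ContinuousLinearMap.id_apply] at h7 h8
    rw [← h7, ← h8, hab]
  · have h3 : ∀ᶠ r in 𝓝 p, ContDiffAt ℝ ∞ θ (x r) := hc.eventually hs
    have h1' : ∀ᶠ z in 𝓝 (x p), θ z ∈ R.dom ∧ R.q j (θ z) = R.q i z :=
      h1.mono fun z hz => ⟨hz.2.1, hz.2.2.1⟩
    have h4 : ∀ᶠ r in 𝓝 p, θ (x r) ∈ R.dom ∧ R.q j (θ (x r)) = R.q i (x r) := hc.eventually h1'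
    unfold RM.Lift at h ⊢
    filter_upwards [h, h3, h4] with r h h3 h4
    exact ⟨ContDiffAt.comp r h3 h.1, h4.1, h4.2.trans h.2.2⟩

/-- a lift to the chart `j` through a given point `y` -/
theorem RM.Lift.change {R : RM n ι M} {α : P → M} {p : P} {i : ι} {x : P → E n}
    (h : R.Lift α p i x) {j : ι} {y : E n} (hy : y ∈ R.dom) (e : R.q j y = α p) :
    ∃ θ : E n → E n, ContDiffAt ℝ ∞ θ (x p) ∧ θ (x p) = y ∧
      Function.Injective (fderiv ℝ θ (x p)) ∧ R.Lift α p j (fun r => θ (x r)) := by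
  obtain ⟨θ, h1, h2, h3, h4, -⟩ := h.change_aux hy e
  exact ⟨θ, h1, h2, h3, h4⟩

theorem RM.Lift.exists_fderiv {R : RM n ι M} {α : P → M} {p : P} {i j : ι} {x x' : P → E n}
    (h : R.Lift α p i x) (h' : R.Lift α p j x') :
    ∃ L : E n →L[ℝ] E n, Function.Injective L ∧ (∀ v, fderiv ℝ x' p v = L (fderiv ℝ x p v)) ∧
      ∀ v w, R.G j (x' p) (L v) (L w) = R.G i (x p) v w := by
  have h0 := h.self_of_nhds
  have h0' := h'.self_of_nhds
  obtain ⟨θ, h1, h2, h3, h4, h5⟩ := h.change_aux h0'.2.1 h0'.2.2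
  refine ⟨fderiv ℝ θ (x p), h3, ?_, ?_⟩
  · have e1 : (fun r => θ (x r)) =ᶠ[𝓝 p] x' := h4.eventually_eq h' h2
    have e2 := e1.fderiv_eq (𝕜 := ℝ)
    have d1 : DifferentiableAt ℝ θ (x p) := h1.differentiableAt (by decide)
    have d2 : DifferentiableAt ℝ x p := h0.1.differentiableAt (by decide)
    have e3 : fderiv ℝ (fun r => θ (x r)) p = (fderiv ℝ θ (x p)).comp (fderiv ℝ x p) :=
      fderiv_fun_comp p d1 d2
    intro v
    rw [← e2, e3]
    rfl
  · intro v w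
    rw [← h5 v w, h2]

/-- the induced metric does not depend on the lift -/
theorem RM.Lift.metric_eq {R : RM n ι M} {α : P → M} {p : P} {i j : ι} {x x' : P → E n}
    (h : R.Lift α p i x) (h' : R.Lift α p j x') (v w : P) :
    R.G j (x' p) (fderiv ℝ x' p v) (fderiv ℝ x' p w) =
      R.G i (x p) (fderiv ℝ x p v) (fderiv ℝ x p w) := by
  obtain ⟨L, -, hL, hm⟩ := h.exists_fderiv h'
  rw [hL, hL, hm]

/-- vanishing of derivatives does not depend on the lift -/
theorem RM.Lift.ker_eq {R : RM n ι M} {α : P → M} {p : P} {i j : ι} {x x' : P → E n}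
    (h : R.Lift α p i x) (h' : R.Lift α p j x') (v : P) :
    fderiv ℝ x' p v = 0 ↔ fderiv ℝ x p v = 0 := by
  obtain ⟨L, hi, hL, -⟩ := h.exists_fderiv h'
  rw [hL]
  constructor
  · intro h0
    apply hi
    rw [h0, map_zero]
  · intro h0
    rw [h0, map_zero]

/-- a curve with a lift is continuous -/
theorem RM.Lift.continuousAt {R : RM n ι M} {α : P → M} {p : P} {i : ι} {x : P → E n}
    (h : R.Lift α p i x) : ContinuousAt α p := by
  have h0 := h.self_of_nhds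
  have c1 : ContinuousAt (R.q i) (x p) := (R.cont i).continuousAt (R.isOpen_dom.mem_nhds h0.2.1)
  have c2 : ContinuousAt (fun r => R.q i (x r)) p := ContinuousAt.comp c1 h0.1.continuousAt
  have e : (fun r => R.q i (x r)) =ᶠ[𝓝 p] α := by
    unfold RM.Lift at h
    exact h.mono fun r hr => hr.2.2
  exact c2.congr e

end Pool.Agent.NCR
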