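import Mathlib

/-! # NCR: end points of lifts depend continuously on the curve

PROOF. Choose for every `a` the lift `y a`. Apply `IsLocalHomeomorph.continuous_lift` (Mathlib,
`Topology/Homotopy/Lifting`, separated because `X` is Hausdorff: `T2Space.isSeparatedMap`) to
`g (t, a) = y a t`, `f (t, a) = H a t` on `unitInterval × A`; `e a = y a 1`. The last statement is
uniqueness of lifts on `Icc 0 1`. -/

set_option autoImplicit false

open Set Filter Topology

namespace Pool.Agent.NCR

theorem exists_lift_end {A X Y : Type} [TopologicalSpace A] [TopologicalSpace X] [T2Space X]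
    [TopologicalSpace Y] {f : X → Y} (hf : IsLocalHomeomorph f) {H : A → ℝ → Y}
    (hH : ContinuousOn (fun p : A × ℝ => H p.1 p.2) (univ ×ˢ Icc 0 1)) {s : A → X}
    (hs : Continuous s)
    (hl : ∀ a, ∃ y : ℝ → X, ContinuousOn y (Icc 0 1) ∧ y 0 = s a ∧
      ∀ t ∈ Icc (0 : ℝ) 1, f (y t) = H a t) :
    ∃ e : A → X, Continuous e ∧ (∀ a, f (e a) = H a 1) ∧
      ∀ a, ∀ y : ℝ → X, ContinuousOn y (Icc 0 1) → y 0 = s a →
        (∀ t ∈ Icc (0 : ℝ) 1, f (y t) = H a t) → e a = y 1 := by
  choose y hyc hy0 hyl using hl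
  have hsep : IsSeparatedMap f := T2Space.isSeparatedMap f
  let F : C(unitInterval × A, Y) := ⟨fun p => H p.2 (p.1 : ℝ), by
    have h1 : Continuous fun p : unitInterval × A => ((p.2, (p.1 : ℝ)) : A × ℝ) := by fun_prop
    exact hH.comp_continuous h1 fun p => ⟨mem_univ _, p.1.2⟩⟩
  have hg : Continuous (fun p : unitInterval × A => y p.2 (p.1 : ℝ)) := by
    refine hf.continuous_lift hsep F (g := fun p : unitInterval × A => y p.2 (p.1 : ℝ)) ?_ ?_ ?_
    · funext p
      exact hyl p.2 (p.1 : ℝ) p.1.2
    · have h2 : (fun a : A => y a ((0 : unitInterval) : ℝ)) = s := by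
        funext a
        exact hy0 a
      show Continuous (fun a : A => y a ((0 : unitInterval) : ℝ))
      rw [h2]
      exact hs
    · intro a
      show Continuous (fun t : unitInterval => y a (t : ℝ))
      exact (hyc a).comp_continuous continuous_subtype_val fun t => t.2
  refine ⟨fun a => y a 1, ?_, fun a => hyl a 1 ⟨zero_le_one, le_rfl⟩, ?_⟩
  · have h3 : Continuous (fun a : A => ((1 : unitInterval), a)) := by fun_prop
    exact hg.comp h3
  · intro a z hzc hz0 hzl
    refine hsep.eqOn_of_comp_eqOn hf.isLocallyInjective isPreconnected_Icc (hyc a) hzc ?_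
      (a := 0) ⟨le_rfl, zero_le_one⟩ ?_ ⟨zero_le_one, le_rfl⟩
    · intro t ht
      show f (y a t) = f (z t)
      rw [hyl a t ht, hzl t ht]
    · rw [hy0 a, hz0]

end Pool.Agent.NCR
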