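import Pool.Agent.NCP.RDefs

/-! # NCR: lifting of a curve through a local homeomorphism, if partial lifts are Lipschitz

PROOF. Let `T` be the set of `τ ∈ [0, 1]` such that a lift exists on `Icc 0 τ`. `0 ∈ T`. If `τ ∈ T`,
`τ < 1`, the lift extends to a longer interval: use the local inverse of `f` at `y τ`. Let `τ* = sup T`;
lifts on different intervals agree (uniqueness of lifts on a preconnected set: `f` is locally injective
and `E n` is Hausdorff), so there is a lift `y` on `Ico 0 τ*`. By `hL` it is `C`-Lipschitz, so it has a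
limit `b` at `τ*` (completeness). `f b = c τ*` by continuity and `T2Space N`. Extend by `b`: lift on
`Icc 0 τ*`. So `τ* ∈ T` and `τ* = 1`. -/

set_option autoImplicit false

open Set Filter Topology

namespace Pool.Agent.NCR

open Pool.Agent.NCP (E)

/-- uniqueness of lifts on an interval -/
private theorem lift_eqOn_aux {n : ℕ} {N : Type} [TopologicalSpace N] {f : E n → N}
    (hf : IsLocalHomeomorph f)
    {S : Set ℝ} (hS : IsPreconnected S) {y y' : ℝ → E n} (hy : ContinuousOn y S)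
    (hy' : ContinuousOn y' S) (h : ∀ t ∈ S, f (y t) = f (y' t)) {t₀ : ℝ} (ht₀ : t₀ ∈ S)
    (h0 : y t₀ = y' t₀) : EqOn y y' S :=
  (T2Space.isSeparatedMap f).eqOn_of_comp_eqOn hf.isLocallyInjective hS hy hy'
    (fun t ht => h t ht) ht₀ h0

/-- extension of a lift beyond its end -/
private theorem lift_extend {n : ℕ} {N : Type} [TopologicalSpace N] {f : E n → N}
    (hf : IsLocalHomeomorph f) {c : ℝ → N} (hc : ContinuousOn c (Icc 0 1)) {τ : ℝ}
    (h0 : 0 ≤ τ) (h1 : τ < 1) {y : ℝ → E n} (hy : ContinuousOn y (Icc 0 τ))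
    (hfy : ∀ t ∈ Icc (0 : ℝ) τ, f (y t) = c t) :
    ∃ τ' : ℝ, τ < τ' ∧ τ' ≤ 1 ∧ ∃ y' : ℝ → E n, ContinuousOn y' (Icc 0 τ') ∧ y' 0 = y 0 ∧
      ∀ t ∈ Icc (0 : ℝ) τ', f (y' t) = c t := by
  obtain ⟨e, he, hfe⟩ := hf (y τ)
  have hcτ : c τ ∈ e.target := by
    rw [← hfy τ ⟨h0, le_rfl⟩, hfe]
    exact e.map_source he
  have hev : ∀ᶠ t in 𝓝[Icc 0 1] τ, c t ∈ e.target :=
    (hc τ ⟨h0, h1.le⟩).eventually (e.open_target.mem_nhds hcτ)
  obtain ⟨δ, hδ, hball'⟩ := Metric.mem_nhdsWithin_iff.1 hev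
  have hball : ∀ {t : ℝ}, dist t τ < δ → t ∈ Icc (0 : ℝ) 1 → c t ∈ e.target :=
    fun {t} h h' => hball' ⟨h, h'⟩
  set τ' : ℝ := min (τ + δ / 2) 1 with hτ'
  have h2 : τ < τ' := lt_min (by linarith) h1
  have h3 : τ' ≤ 1 := min_le_right _ _
  have h4 : τ' ≤ τ + δ / 2 := min_le_left _ _
  have hct : ∀ t ∈ Icc τ τ', c t ∈ e.target := by
    intro t ht
    refine hball ?_ ⟨h0.trans ht.1, ht.2.trans h3⟩
    rw [Real.dist_eq, abs_of_nonneg (by linarith [ht.1])]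
    linarith [ht.2]
  refine ⟨τ', h2, h3, fun t => if t ≤ τ then y t else e.symm (c t), ?_, by simp [h0], ?_⟩
  · have hunion : Icc 0 τ' = Icc 0 τ ∪ Icc τ τ' := (Icc_union_Icc_eq_Icc h0 h2.le).symm
    rw [hunion]
    refine ContinuousOn.union_of_isClosed ?_ ?_ isClosed_Icc isClosed_Icc
    · refine hy.congr fun t ht => ?_
      exact if_pos ht.2
    · have h5 : ContinuousOn (fun t => e.symm (c t)) (Icc τ τ') :=
        e.continuousOn_symm.comp (hc.mono (Icc_subset_Icc h0 h3)) hct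
      refine h5.congr fun t ht => ?_
      simp only
      split_ifs with h6
      · have h7 : t = τ := le_antisymm h6 ht.1
        rw [h7, ← hfy τ ⟨h0, le_rfl⟩, hfe, e.left_inv he]
      · rfl
  · intro t ht
    simp only
    split_ifs with h6
    · exact hfy t ⟨ht.1, h6⟩
    · have h7 := hct t ⟨(not_le.1 h6).le, ht.2⟩
      rw [hfe]
      exact e.right_inv h7

theorem exists_lift_of_lipschitz {n : ℕ} {N : Type} [TopologicalSpace N] [T2Space N] {f : E n → N}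
    (hf : IsLocalHomeomorph f) {c : ℝ → N} (hc : ContinuousOn c (Icc 0 1)) {a : E n}
    (ha : f a = c 0) {C : ℝ}
    (hL : ∀ T ∈ Ioc (0 : ℝ) 1, ∀ y : ℝ → E n, ContinuousOn y (Ico 0 T) → y 0 = a →
      (∀ t ∈ Ico 0 T, f (y t) = c t) → ∀ s ∈ Ico 0 T, ∀ t ∈ Ico 0 T, ‖y s - y t‖ ≤ C * |s - t|) :
    ∃ y : ℝ → E n, ContinuousOn y (Icc 0 1) ∧ y 0 = a ∧ ∀ t ∈ Icc (0 : ℝ) 1, f (y t) = c t := by
  classical
  set S : Set ℝ := {τ | τ ∈ Icc (0 : ℝ) 1 ∧ ∃ y : ℝ → E n, ContinuousOn y (Icc 0 τ) ∧ y 0 = a ∧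
    ∀ t ∈ Icc (0 : ℝ) τ, f (y t) = c t} with hS
  have h0S : (0 : ℝ) ∈ S := by
    refine ⟨⟨le_rfl, zero_le_one⟩, fun _ => a, continuousOn_const, rfl, fun t ht => ?_⟩
    have : t = 0 := le_antisymm ht.2 ht.1
    rw [this]; exact ha
  have hbdd : BddAbove S := ⟨1, fun τ hτ => hτ.1.2⟩
  set T : ℝ := sSup S with hT
  have hT0 : 0 ≤ T := le_csSup hbdd h0S
  have hT1 : T ≤ 1 := csSup_le ⟨0, h0S⟩ fun τ hτ => hτ.1.2
  have hTS : T ∈ S := by
    rcases hT0.eq_or_lt with h | hTpos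
    · rw [← h]; exact h0S
    have hex : ∀ t : ℝ, ∃ τ : ℝ, ∃ y : ℝ → E n, t ∈ Ico 0 T → t < τ ∧ τ ∈ S ∧
        ContinuousOn y (Icc 0 τ) ∧ y 0 = a ∧ ∀ t ∈ Icc (0 : ℝ) τ, f (y t) = c t := by
      intro t
      by_cases ht : t ∈ Ico 0 T
      · obtain ⟨τ, hτ, htτ⟩ := exists_lt_of_lt_csSup ⟨0, h0S⟩ ht.2
        obtain ⟨y, hy⟩ := hτ.2
        exact ⟨τ, y, fun _ => ⟨htτ, hτ, hy⟩⟩
      · exact ⟨0, fun _ => 0, fun h => absurd h ht⟩
    choose τ Y hY using hex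
    -- the lifts agree
    have hagree : ∀ t ∈ Ico 0 T, ∀ s ∈ Icc 0 t, Y s s = Y t s := by
      intro t ht s hs
      have hsT : s ∈ Ico 0 T := ⟨hs.1, lt_of_le_of_lt hs.2 ht.2⟩
      obtain ⟨a1, -, a3, a4, a5⟩ := hY s hsT
      obtain ⟨b1, -, b3, b4, b5⟩ := hY t ht
      have hsub1 : Icc 0 s ⊆ Icc 0 (τ s) := Icc_subset_Icc le_rfl a1.le
      have hsub2 : Icc 0 s ⊆ Icc 0 (τ t) := Icc_subset_Icc le_rfl (hs.2.trans b1.le)
      exact lift_eqOn_aux hf isPreconnected_Icc (a3.mono hsub1) (b3.mono hsub2)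
        (fun r hr => by rw [a5 r (hsub1 hr), b5 r (hsub2 hr)])
        (left_mem_Icc.2 hs.1) (by rw [a4, b4]) (right_mem_Icc.2 hs.1)
    set y : ℝ → E n := fun s => Y s s with hy
    have hyI : ∀ t ∈ Ico 0 T, ContinuousOn y (Icc 0 t) := by
      intro t ht
      obtain ⟨b1, -, b3, b4, b5⟩ := hY t ht
      refine (b3.mono (Icc_subset_Icc le_rfl b1.le)).congr fun s hs => hagree t ht s hs
    have hyc : ContinuousOn y (Ico 0 T) := by
      intro t ht
      obtain ⟨t', ht', ht'T⟩ := exists_between ht.2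
      have h1 := hyI t' ⟨ht.1.trans ht'.le, ht'T⟩ t ⟨ht.1, ht'.le⟩
      refine h1.mono_of_mem_nhdsWithin ?_
      have h2 : Iio t' ∈ 𝓝 t := Iio_mem_nhds ht'
      filter_upwards [mem_nhdsWithin_of_mem_nhds h2, self_mem_nhdsWithin] with s h3 h4
      exact ⟨h4.1, le_of_lt h3⟩
    have hy0 : y 0 = a := (hY 0 ⟨le_rfl, hTpos⟩).2.2.2.1
    have hfy : ∀ t ∈ Ico 0 T, f (y t) = c t := by
      intro t ht
      obtain ⟨b1, -, b3, b4, b5⟩ := hY t ht
      exact b5 t ⟨ht.1, b1.le⟩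
    have hLip := hL T ⟨hTpos, hT1⟩ y hyc hy0 hfy
    -- the limit
    have hne : (𝓝[Ico 0 T] T).NeBot := by
      rw [← mem_closure_iff_nhdsWithin_neBot, closure_Ico hTpos.ne]
      exact right_mem_Icc.2 hT0
    have huc : UniformContinuousOn y (Ico 0 T) := by
      have : LipschitzOnWith (Real.toNNReal C) y (Ico 0 T) := by
        refine LipschitzOnWith.of_dist_le_mul fun s hs t ht => ?_
        rw [dist_eq_norm, Real.dist_eq]
        refine (hLip s hs t ht).trans ?_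
        exact mul_le_mul_of_nonneg_right (Real.le_coe_toNNReal C) (abs_nonneg _)
      exact this.uniformContinuousOn
    have hcau : Cauchy (𝓝[Ico 0 T] T) := cauchy_nhds.mono nhdsWithin_le_nhds
    have hcau2 : Cauchy (map y (𝓝[Ico 0 T] T)) :=
      hcau.map_of_le huc (le_principal_iff.2 self_mem_nhdsWithin)
    obtain ⟨b, hb⟩ := CompleteSpace.complete hcau2
    have hb' : Tendsto y (𝓝[Ico 0 T] T) (𝓝 b) := hb
    have hfb : f b = c T := by
      have l1 : Tendsto (fun t => f (y t)) (𝓝[Ico 0 T] T) (𝓝 (f b)) :=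
        (hf.continuous.tendsto b).comp hb'
      have l2 : Tendsto c (𝓝[Ico 0 T] T) (𝓝 (c T)) :=
        (hc T ⟨hT0, hT1⟩).mono_left
          (nhdsWithin_mono _ (fun t ht => ⟨ht.1, ht.2.le.trans hT1⟩))
      refine tendsto_nhds_unique (l1.congr' ?_) l2
      filter_upwards [self_mem_nhdsWithin] with t ht using hfy t ht
    refine ⟨⟨hT0, hT1⟩, Function.update y T b, ?_, ?_, ?_⟩
    · rw [continuousOn_update_iff]
      rw [Icc_sdiff_right]
      exact ⟨hyc, fun _ => hb'⟩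
    · rw [Function.update_of_ne hTpos.ne, hy0]
    · intro t ht
      rcases ht.2.eq_or_lt with h | h
      · rw [h, Function.update_self, hfb]
      · rw [Function.update_of_ne h.ne, hfy t ⟨ht.1, h⟩]
  have hTeq : T = 1 := by
    by_contra hne
    have hlt : T < 1 := lt_of_le_of_ne hT1 hne
    obtain ⟨-, y, hy1, hy2, hy3⟩ := hTS
    obtain ⟨τ', h1, h2, y', h3, h4, h5⟩ := lift_extend hf hc hT0 hlt hy1 hy3
    have : τ' ∈ S := ⟨⟨hT0.trans h1.le, h2⟩, y', h3, h4.trans hy2, h5⟩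
    exact absurd (le_csSup hbdd this) (not_le.2 h1)
  rw [hTeq] at hTS
  exact hTS.2

/-- uniqueness of lifts on an interval -/
theorem lift_eqOn {n : ℕ} {N : Type} [TopologicalSpace N] {f : E n → N} (hf : IsLocalHomeomorph f)
    {S : Set ℝ} (hS : IsPreconnected S) {y y' : ℝ → E n} (hy : ContinuousOn y S)
    (hy' : ContinuousOn y' S) (h : ∀ t ∈ S, f (y t) = f (y' t)) {t₀ : ℝ} (ht₀ : t₀ ∈ S)
    (h0 : y t₀ = y' t₀) : EqOn y y' S :=
  lift_eqOn_aux hf hS hy hy' h ht₀ h0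

end Pool.Agent.NCR
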