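import Pool.Agent.NCR.RadialB
import Pool.Agent.NCR.LiftTop

/-! # NCR: lifting of curves of bounded speed through a local homeomorphism, radial metric

PROOF. Let `y` be a partial lift on `Ico 0 T`. By `radial_norm_le`, `nrm g 0 (y t) ≤ ρ := nrm g 0 a + L`,
so `y t` is in the compact set `B = {x | g.form 0 x x ≤ ρ²}` (closed and bounded since
`g.form 0 x x ≥ m ‖x‖²`). On `B`, `g.form x v v ≥ m' ^ 2 ‖v‖²` (`RMetric.exists_form_bounds`), so
`‖deriv y t‖ ≤ L / m'` on `Ioo 0 T`; mean value inequality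
(`Convex.norm_image_sub_le_of_norm_deriv_le` on `Ioo`, then continuity at `0`). -/

set_option autoImplicit false

open Set Filter Topology
open scoped ContDiff

namespace Pool.Agent.NCR

open Pool.Agent.NCP (E RMetric)

theorem exists_lift_radial {n : ℕ} {N : Type} [TopologicalSpace N] [T2Space N] {f : E n → N}
    (hf : IsLocalHomeomorph f) {g : RMetric n} (hg : Radial g) {c : ℝ → N}
    (hc : ContinuousOn c (Icc 0 1)) {a : E n} (ha : f a = c 0) {L : ℝ} (hL0 : 0 ≤ L)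
    (hL : ∀ T ∈ Ioc (0 : ℝ) 1, ∀ y : ℝ → E n, ContinuousOn y (Ico 0 T) → y 0 = a →
      (∀ t ∈ Ico 0 T, f (y t) = c t) → ∀ t ∈ Ioo 0 T, DifferentiableAt ℝ y t ∧
        g.form (y t) (deriv y t) (deriv y t) ≤ L ^ 2) :
    ∃ y : ℝ → E n, ContinuousOn y (Icc 0 1) ∧ y 0 = a ∧ ∀ t ∈ Icc (0 : ℝ) 1, f (y t) = c t := by
  obtain ⟨m, hm0, M, hM0, hmb⟩ := g.exists_form_bounds (K := {0}) isCompact_singleton
  obtain ⟨m', hm'0, M', hM'0, hB⟩ := g.exists_form_bounds
    (K := Metric.closedBall (0 : E n) ((nrm g 0 a + L) / m)) (isCompact_closedBall _ _)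
  refine exists_lift_of_lipschitz hf hc ha (C := L / m') ?_
  intro T hT y hy hy0 hfy
  have hd := hL T hT y hy hy0 hfy
  have hin : ∀ t ∈ Ico 0 T, y t ∈ Metric.closedBall (0 : E n) ((nrm g 0 a + L) / m) := by
    intro t ht
    have h1 := radial_norm_le hg hL0 hy hd ht
    rw [hy0] at h1
    have h2 : L * t ≤ L := mul_le_of_le_one_right hL0 (ht.2.le.trans hT.2)
    have h3 : m * ‖y t‖ ≤ nrm g 0 (y t) := by
      unfold nrm
      apply Real.le_sqrt_of_sq_le
      rw [mul_pow]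
      exact (hmb 0 rfl (y t)).1
    rw [mem_closedBall_zero_iff, le_div_iff₀ hm0, mul_comm]
    linarith
  have hder : ∀ t ∈ Ioo 0 T, ‖deriv y t‖ ≤ L / m' := by
    intro t ht
    have h1 := (hd t ht).2
    have h2 := (hB (y t) (hin t ⟨ht.1.le, ht.2⟩) (deriv y t)).1
    have h3 : (m' * ‖deriv y t‖) ^ 2 ≤ L ^ 2 := by
      rw [mul_pow]
      linarith
    have h4 := (pow_le_pow_iff_left₀ (by positivity) hL0 two_ne_zero).1 h3
    rw [le_div_iff₀ hm'0, mul_comm]
    exact h4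
  have hC : 0 ≤ L / m' := div_nonneg hL0 hm'0.le
  intro s hs t ht
  obtain ⟨t', h1, h2⟩ := exists_between (max_lt hs.2 ht.2)
  have h0' : 0 < t' := lt_of_le_of_lt (hs.1.trans (le_max_left _ _)) h1
  have hLip : LipschitzOnWith (Real.toNNReal (L / m')) y (Ioo 0 t') := by
    apply LipschitzOnWith.of_dist_le_mul
    intro p hp q hq
    have h3 := (convex_Ioo (0 : ℝ) t').norm_image_sub_le_of_norm_deriv_le (f := y) (C := L / m')
      (fun r hr => (hd r ⟨hr.1, hr.2.trans h2⟩).1)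
      (fun r hr => hder r ⟨hr.1, hr.2.trans h2⟩) hq hp
    rw [dist_eq_norm, Real.dist_eq, Real.coe_toNNReal _ hC]
    exact h3
  have hcl : closure (Ioo (0 : ℝ) t') = Icc 0 t' := closure_Ioo h0'.ne
  have hcont : ContinuousOn y (closure (Ioo (0 : ℝ) t')) := by
    rw [hcl]
    exact hy.mono fun r hr => ⟨hr.1, lt_of_le_of_lt hr.2 h2⟩
  have h3 := LipschitzOnWith.closure hcont hLip
  rw [hcl] at h3
  have h4 := h3.dist_le_mul s ⟨hs.1, (le_max_left _ _).trans h1.le⟩ t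
    ⟨ht.1, (le_max_right _ _).trans h1.le⟩
  rw [dist_eq_norm, Real.dist_eq, Real.coe_toNNReal _ hC] at h4
  exact h4

end Pool.Agent.NCR
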