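import Pool.Agent.NCR.LiftSmooth
import Pool.Agent.NCR.RadLift

/-! # NCR: lifts of segments of the charts

PROOF. `σ t = z₀ + t • (z - z₀)`, `c t = R.q i (σ t)`. `exists_lift_radial` with `g = pull hf`: `σ` is a lift
of `c` at `t ∈ (0, 1)` in the chart `i`; by `lift_smooth` a partial lift `y` is smooth at `t` and
`(pull hf).form (y t) (y' t) (y' t) = G i (σ t) (z - z₀) (z - z₀)`, bounded by some `L ^ 2` on the compact
segment (`R.smooth` gives continuity). -/

set_option autoImplicit false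

open Set Filter Topology
open scoped ContDiff

namespace Pool.Agent.NCR

open Pool.Agent.NCP (E RMetric)

variable {n : ℕ} {ι M : Type} [TopologicalSpace M]

theorem RM.exists_seg_lift [T2Space M] {R : RM n ι M} {f : E n → M} (hf : R.LocDiff f)
    (hrf : Radial (RM.pull hf)) (i : ι) {z₀ z : E n}
    (hseg : ∀ t ∈ Icc (0 : ℝ) 1, z₀ + t • (z - z₀) ∈ R.dom) {b : E n} (hb : f b = R.q i z₀) :
    ∃ y : ℝ → E n, ContinuousOn y (Icc 0 1) ∧ y 0 = b ∧
      ∀ t ∈ Icc (0 : ℝ) 1, f (y t) = R.q i (z₀ + t • (z - z₀)) := by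
  set σ : ℝ → E n := fun t => z₀ + t • (z - z₀) with hσ
  have hσs : ContDiff ℝ ∞ σ := contDiff_const.add (contDiff_id.smul contDiff_const)
  have hσd : ∀ t, HasDerivAt σ (z - z₀) t := by
    intro t
    have h1 := ((hasDerivAt_id t).smul_const (z - z₀)).const_add z₀
    rw [one_smul] at h1
    exact h1
  -- the bound
  have hcont : ContinuousOn (fun t => R.G i (σ t) (z - z₀) (z - z₀)) (Icc (0 : ℝ) 1) := by
    intro t ht
    have h1 : ContinuousAt (R.G i) (σ t) := (R.smooth i (σ t) (hseg t ht)).continuousAt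
    have h2 : ContinuousAt (fun t => R.G i (σ t)) t :=
      ContinuousAt.comp (g := R.G i) (f := σ) h1 hσs.continuous.continuousAt
    exact ((h2.clm_apply continuousAt_const).clm_apply continuousAt_const).continuousWithinAt
  obtain ⟨C, hC⟩ := isCompact_Icc.bddAbove_image hcont
  have hC' : ∀ t ∈ Icc (0 : ℝ) 1, R.G i (σ t) (z - z₀) (z - z₀) ≤ √(max C 0) ^ 2 := by
    intro t ht
    rw [Real.sq_sqrt (le_max_right _ _)]
    exact (hC ⟨t, ht, rfl⟩).trans (le_max_left _ _)
  refine exists_lift_radial hf.isLocalHomeomorph hrf (c := fun t => R.q i (σ t)) ?_ ?_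
    (Real.sqrt_nonneg (max C 0)) ?_
  · exact (R.cont i).comp hσs.continuous.continuousOn fun t ht => hseg t ht
  · show f b = R.q i (z₀ + (0 : ℝ) • (z - z₀))
    rw [zero_smul, add_zero, hb]
  · intro T hT y hy _ hfy t ht
    have hI : Ioo 0 T ∈ 𝓝 t := Ioo_mem_nhds ht.1 ht.2
    have hsub : ∀ r ∈ Ioo 0 T, r ∈ Icc (0 : ℝ) 1 := fun r hr =>
      ⟨hr.1.le, hr.2.le.trans hT.2⟩
    have hlift : R.Lift (fun t => R.q i (σ t)) t i σ := by
      filter_upwards [hI] with r hr
      exact ⟨hσs.contDiffAt, hseg r (hsub r hr), rfl⟩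
    have hyl : ∀ᶠ r in 𝓝 t, ContinuousAt y r ∧ f (y r) = R.q i (σ r) := by
      filter_upwards [hI] with r hr
      have hr' : Ico 0 T ∈ 𝓝 r :=
        mem_of_superset (Ioo_mem_nhds hr.1 hr.2) Ioo_subset_Ico_self
      exact ⟨hy.continuousAt hr', hfy r ⟨hr.1.le, hr.2⟩⟩
    obtain ⟨h1, h2⟩ := RM.lift_smooth hf hlift hyl
    refine ⟨h1.differentiableAt (by simp), ?_⟩
    have h3 := h2 1 1
    rw [fderiv_apply_one_eq_deriv, fderiv_apply_one_eq_deriv, (hσd t).deriv] at h3
    rw [h3]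
    exact hC' t (hsub t ht)

end Pool.Agent.NCR
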