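import Pool.Agent.NCR.CoverTop
import Pool.Agent.NCR.SegLift
import Pool.Agent.NCR.LiftEnd

/-! # NCR: a local diffeomorphism with radial pull back is a covering map

PROOF. `isCoveringMap_of_sections`. Let `m = q i x₀`, `x₀ ∈ K` (`R.cover`); `B` an open ball around `x₀`,
`B ⊆ dom`, `q i` injective on `B` (`locInj`); `U = q i '' B` is open (`openMap`) and preconnected. `q i`
is a homeomorphism of `B` onto `U` (continuous, injective, open). Let `f b = q i z₀`, `z₀ ∈ B`. For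
`z ∈ B` the segment from `z₀` to `z` is in `B`; `exists_seg_lift` and `exists_lift_end` with
`A = B` (subtype), `H z t = q i (z₀ + t • (z - z₀))`, `s = b` give a continuous `e : B → E n` with
`f (e z) = q i z` and `e z₀ = b` (constant lift). `σ = e ∘ (q i restricted to B)⁻¹` on `U`. -/

set_option autoImplicit false

open Set Filter Topology
open scoped ContDiff

namespace Pool.Agent.NCR

open Pool.Agent.NCP (E RMetric)

variable {n : ℕ} {ι M : Type} [TopologicalSpace M]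

theorem RM.isCoveringMap [T2Space M] {R : RM n ι M} {f : E n → M} (hf : R.LocDiff f)
    (hrf : Radial (RM.pull hf)) : IsCoveringMap f := by
  apply isCoveringMap_of_sections hf.isLocalHomeomorph
  intro m
  obtain ⟨i, x₀, hx₀K, hx₀⟩ := R.cover m
  have hxd : x₀ ∈ R.dom := R.K_sub hx₀K
  obtain ⟨U₀, hU₀, hinj⟩ := R.locInj i x₀ hxd
  obtain ⟨r, hr, hball⟩ := Metric.mem_nhds_iff.1 (inter_mem hU₀ (R.isOpen_dom.mem_nhds hxd))
  let B : Set (E n) := Metric.ball x₀ r
  have hBo : IsOpen B := Metric.isOpen_ball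
  have hBc : Convex ℝ B := convex_ball x₀ r
  have hBd : B ⊆ R.dom := fun z hz => (hball hz).2
  have hBinj : InjOn (R.q i) B := hinj.mono fun z hz => (hball hz).1
  refine ⟨R.q i '' B, R.openMap i B hBo hBd, ⟨x₀, Metric.mem_ball_self hr, hx₀⟩,
    hBc.isPreconnected.image _ ((R.cont i).mono hBd), ?_⟩
  intro b hb
  obtain ⟨z₀, hz₀, hz₀b⟩ := hb
  have hseg : ∀ z ∈ B, ∀ t ∈ Icc (0 : ℝ) 1, z₀ + t • (z - z₀) ∈ B := by
    intro z hz t ht
    exact hBc.add_smul_sub_mem hz₀ hz ht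
  obtain ⟨e, hec, hfe, hu⟩ := exists_lift_end (A := B) (X := E n) (Y := M) (f := f)
    hf.isLocalHomeomorph (H := fun z t => R.q i (z₀ + t • ((z : E n) - z₀)))
    (by
      refine (R.cont i).comp (f := fun p : B × ℝ => z₀ + p.2 • ((p.1 : E n) - z₀)) ?_ ?_
      · have h1 : Continuous fun p : B × ℝ => z₀ + p.2 • ((p.1 : E n) - z₀) := by fun_prop
        exact h1.continuousOn
      · rintro ⟨z, t⟩ ⟨_, ht⟩
        exact hBd (hseg z z.2 t ht))
    (s := fun _ => b) continuous_const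
    (fun z => RM.exists_seg_lift hf hrf i (fun t ht => hBd (hseg z z.2 t ht)) hz₀b.symm)
  let φ : B → M := fun z => R.q i z
  have hφi : Function.Injective φ := fun z z' h => Subtype.ext (hBinj z.2 z'.2 h)
  have hφo : IsOpenMap φ := by
    intro O hO
    obtain ⟨O', hO', rfl⟩ := isOpen_induced_iff.1 hO
    have h2 : φ '' (Subtype.val ⁻¹' O') = R.q i '' (B ∩ O') := by
      ext y
      constructor
      · rintro ⟨z, hz, rfl⟩
        exact ⟨z, ⟨z.2, hz⟩, rfl⟩
      · rintro ⟨z, ⟨hz, hz'⟩, rfl⟩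
        exact ⟨⟨z, hz⟩, hz', rfl⟩
    rw [h2]
    exact R.openMap i _ (hBo.inter hO') (inter_subset_left.trans hBd)
  have : Nonempty B := ⟨⟨z₀, hz₀⟩⟩
  obtain ⟨inv, hinv⟩ := hφi.hasLeftInverse
  have hic : ContinuousOn inv (range φ) := hφo.continuousOn_range_of_leftInverse hinv
  have hr' : range φ = R.q i '' B := by
    ext y
    constructor
    · rintro ⟨z, rfl⟩
      exact ⟨z, z.2, rfl⟩
    · rintro ⟨z, hz, rfl⟩
      exact ⟨⟨z, hz⟩, rfl⟩
  refine ⟨fun u => e (inv u), ?_, ?_, ?_⟩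
  · rw [← hr']
    exact hec.comp_continuousOn hic
  · rintro u ⟨z, hz, rfl⟩
    have h3 : inv (R.q i z) = ⟨z, hz⟩ := hinv ⟨z, hz⟩
    show f (e (inv (R.q i z))) = R.q i z
    rw [h3, hfe]
    simp
  · show e (inv (f b)) = b
    have h3 : inv (R.q i z₀) = ⟨z₀, hz₀⟩ := hinv ⟨z₀, hz₀⟩
    rw [← hz₀b, h3]
    refine hu ⟨z₀, hz₀⟩ (fun _ => b) continuousOn_const rfl ?_
    intro t _
    simp [hz₀b]

end Pool.Agent.NCR
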