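import Mathlib

/-! # NCR: a local homeomorphism with enough local sections is a covering map

PROOF. Let `m : Y`, `U` as in `h`. For `b ∈ f ⁻¹' {m}` let `σ b` be a section over `U` with `σ b m = b`.
The sets `V b = σ b '' U` are open (sections of a local homeomorphism over open sets are open:
for `x₀ = σ b (f x₀)` and `x` near `x₀`, `σ b (f x)` is near `x₀` and has the same image as `x`, so it is `x`),
`f` maps `V b` bijectively to `U`. They cover `f ⁻¹' U`: let `f x ∈ U` and `σ` the section through `x`;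
`b = σ m`; `σ = σ b` on `U` (uniqueness of lifts on the preconnected set `U`:
`IsSeparatedMap.eqOn_of_comp_eqOn`, `T2Space.isSeparatedMap`), so `x ∈ V b`. They are disjoint by
the same argument. If the fibre is empty then `f ⁻¹' U` is empty: `IsEvenlyCovered.of_preimage_eq_empty`.
Otherwise `IsOpen.trivializationDiscrete` and `IsEvenlyCovered.of_trivialization` (Mathlib,
`Topology/Covering/Basic`). The fibre is discrete since `f` is locally injective. -/

set_option autoImplicit false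

open Set Filter Topology

namespace Pool.Agent.NCR

theorem isOpen_image_section {X Y : Type} [TopologicalSpace X]
    [TopologicalSpace Y] {f : X → Y} (hf : IsLocalHomeomorph f) {U : Set Y} (hU : IsOpen U)
    {σ : Y → X} (hσ : ContinuousOn σ U) (hs : ∀ u ∈ U, f (σ u) = u) : IsOpen (σ '' U) := by
  rw [isOpen_iff_mem_nhds]
  rintro _ ⟨u₀, hu₀, rfl⟩
  obtain ⟨φ, hφ, hφf⟩ := hf (σ u₀)
  have hN : IsOpen (U ∩ σ ⁻¹' φ.source) := hσ.isOpen_inter_preimage hU φ.open_source
  have h1 : φ.source ∩ f ⁻¹' (U ∩ σ ⁻¹' φ.source) ⊆ σ '' U := by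
    rintro x ⟨hx, hxU, hxs⟩
    refine ⟨f x, hxU, ?_⟩
    refine φ.injOn hxs hx ?_
    rw [← hφf]
    exact hs _ hxU
  refine Filter.mem_of_superset ?_ h1
  refine (φ.open_source.inter (hN.preimage hf.continuous)).mem_nhds ⟨hφ, ?_⟩
  refine ⟨?_, ?_⟩
  · show f (σ u₀) ∈ U
    rw [hs _ hu₀]; exact hu₀
  · show σ (f (σ u₀)) ∈ φ.source
    rw [hs _ hu₀]; exact hφ

theorem isCoveringMap_of_sections {X Y : Type} [TopologicalSpace X] [T2Space X]
    [TopologicalSpace Y] {f : X → Y} (hf : IsLocalHomeomorph f)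
    (h : ∀ m : Y, ∃ U : Set Y, IsOpen U ∧ m ∈ U ∧ IsPreconnected U ∧ ∀ x, f x ∈ U →
      ∃ σ : Y → X, ContinuousOn σ U ∧ (∀ u ∈ U, f (σ u) = u) ∧ σ (f x) = x) :
    IsCoveringMap f := by
  intro m
  obtain ⟨U, hUo, hmU, hUc, hσ⟩ := h m
  have hsep : IsSeparatedMap f := T2Space.isSeparatedMap f
  have huniq : ∀ (σ τ : Y → X), ContinuousOn σ U → ContinuousOn τ U →
      (∀ u ∈ U, f (σ u) = u) → (∀ u ∈ U, f (τ u) = u) →
      ∀ u₀ ∈ U, σ u₀ = τ u₀ → EqOn σ τ U := by
    intro σ τ hσc hτc h1 h2 u₀ hu₀ he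
    exact hsep.eqOn_of_comp_eqOn hf.isLocallyInjective hUc hσc hτc
      (fun u hu => by simp [h1 u hu, h2 u hu]) hu₀ he
  rcases isEmpty_or_nonempty (f ⁻¹' {m}) with hemp | hne
  · have : f ⁻¹' U = ∅ := by
      rw [Set.eq_empty_iff_forall_notMem]
      intro x hx
      obtain ⟨σ, hσc, hσs, hσx⟩ := hσ x hx
      exact hemp.elim ⟨σ m, hσs m hmU⟩
    exact IsEvenlyCovered.of_preimage_eq_empty _ (hUo.mem_nhds hmU) this
  · have hD : DiscreteTopology (f ⁻¹' {m}) := by
      have : IsDiscrete (f ⁻¹' {m}) := by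
        refine IsDiscrete.of_openPartialHomeomorph f Subset.rfl fun e _ => ?_
        obtain ⟨φ, h1, h2⟩ := hf e
        exact ⟨φ, h1, h2.symm⟩
      exact this.to_subtype
    have := hD
    have hσ' : ∀ b : (f ⁻¹' {m}), ∃ σ : Y → X, ContinuousOn σ U ∧ (∀ u ∈ U, f (σ u) = u) ∧
        σ m = b := by
      rintro ⟨b, hb⟩
      have hb' : f b = m := hb
      obtain ⟨σ, h1, h2, h3⟩ := hσ b (by rw [hb']; exact hmU)
      exact ⟨σ, h1, h2, by rw [hb'] at h3; exact h3⟩
    choose s hsc hss hsb using hσ'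
    have : Nonempty (Y → X) := ⟨s hne.some⟩
    have hVo : ∀ b, IsOpen (s b '' U) := fun b => isOpen_image_section hf hUo (hsc b) (hss b)
    refine IsEvenlyCovered.of_trivialization (t := hUo.trivializationDiscrete (f := f)
      (fun b : (f ⁻¹' {m}) => s b '' U) U ?_ ?_ ?_ ?_ ?_) hmU
    · intro b W hW
      constructor
      · intro hWo
        exact (hWo.preimage hf.continuous).inter (hVo b)
      · intro hWo
        have : W = f '' (f ⁻¹' W ∩ s b '' U) := by
          ext w
          constructor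
          · intro hw
            exact ⟨s b w, ⟨by show f (s b w) ∈ W; rw [hss b w (hW hw)]; exact hw,
              ⟨w, hW hw, rfl⟩⟩, hss b w (hW hw)⟩
          · rintro ⟨x, ⟨hx, _⟩, rfl⟩
            exact hx
        rw [this]
        exact hf.isOpenMap _ hWo
    · rintro b _ ⟨u, hu, rfl⟩ _ ⟨v, hv, rfl⟩ huv
      rw [hss b u hu, hss b v hv] at huv
      rw [huv]
    · intro b u hu
      exact ⟨s b u, ⟨u, hu, rfl⟩, hss b u hu⟩
    · intro b c hbc
      show Disjoint (s b '' U) (s c '' U)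
      rw [Set.disjoint_left]
      rintro _ ⟨u, hu, rfl⟩ ⟨v, hv, hvu⟩
      apply hbc
      have huv : v = u := by
        have := congrArg f hvu
        rwa [hss b u hu, hss c v hv] at this
      subst huv
      have := huniq _ _ (hsc c) (hsc b) (hss c) (hss b) v hu hvu hmU
      rw [hsb, hsb] at this
      exact (Subtype.ext this).symm
    · intro x hx
      obtain ⟨σ, hσc, hσs, hσx⟩ := hσ x hx
      rw [Set.mem_iUnion]
      refine ⟨⟨σ m, hσs m hmU⟩, f x, hx, ?_⟩
      have := huniq _ _ (hsc ⟨σ m, hσs m hmU⟩) hσc (hss _) hσs m hmU (by rw [hsb])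
      rw [this hx, hσx]

end Pool.Agent.NCR
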