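import Pool.Agent.NCR.LiftSmooth
import Pool.Agent.NCP.RLen

/-! # NCR: deck transformations do not increase the distance

PROOF. `comp_smooth hf hf hT hfT`: `T` is smooth and preserves the form. For a `C¹` curve `c` from `x` to
`y`, `T ∘ c` is a `C¹` curve from `T x` to `T y` with the same speed, so with the same length. Hence the
set of lengths in the definition of `dist x y` is contained in the one for `dist (T x) (T y)`;
`csInf_le_csInf` (bounded below by `0`, nonempty: straight line), or `dist_le_length` and
`exists_curve_lt` from `NCP/RLen`. -/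

set_option autoImplicit false

open Set Filter Topology
open scoped ContDiff

namespace Pool.Agent.NCR

open Pool.Agent.NCP (E RMetric)

variable {n : ℕ} {ι M : Type} [TopologicalSpace M]

theorem RM.deck_dist {R : RM n ι M} {f : E n → M} (hf : R.LocDiff f) {T : E n → E n}
    (hT : Continuous T) (hfT : ∀ u, f (T u) = f u) (x y : E n) :
    (RM.pull hf).dist (T x) (T y) ≤ (RM.pull hf).dist x y := by
  obtain ⟨hTs, -, hform⟩ := RM.comp_smooth hf hf hT hfT
  have hTd : Differentiable ℝ T := hTs.differentiable (by simp)
  refine le_of_forall_pos_le_add fun ε hε => ?_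
  obtain ⟨c, hc, h0, h1, hl⟩ := (RM.pull hf).exists_curve_lt x y hε
  have hTc : ContDiff ℝ 1 (fun t => T (c t)) := (hTs.of_le (by simp)).comp hc
  have hsp : ∀ t, (RM.pull hf).speed (fun t => T (c t)) t = (RM.pull hf).speed c t := by
    intro t
    have hd : deriv (fun t => T (c t)) t = fderiv ℝ T (c t) (deriv c t) := by
      have h3 : HasFDerivAt T (fderiv ℝ T (c t)) (c t) := (hTd (c t)).hasFDerivAt
      have h4 : HasDerivAt c (deriv c t) t := (hc.differentiable (by norm_num) t).hasDerivAt
      exact (h3.comp_hasDerivAt t h4).deriv
    unfold Pool.Agent.NCP.RMetric.speed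
    rw [hd, hform]
  have hlen : (RM.pull hf).length (fun t => T (c t)) = (RM.pull hf).length c := by
    unfold Pool.Agent.NCP.RMetric.length
    simp_rw [hsp]
  have h5 : (RM.pull hf).dist (T x) (T y) ≤ (RM.pull hf).length (fun t => T (c t)) :=
    (RM.pull hf).dist_le_length hTc (by simp only [h0]) (by simp only [h1])
  linarith

end Pool.Agent.NCR
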