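import Mathlib

/-! # NCR: deck transformations of a covering of a compact space are cocompact

PROOF. `range π` is open, and closed (a point with empty fibre has an evenly covered
neighbourhood with empty preimage), so compact. The images of the interiors of compact
neighbourhoods of the points of `X` cover it; take a finite subcover; `K` is the union of the
corresponding compact neighbourhoods. -/

set_option autoImplicit false

open Set Filter Topology

namespace Pool.Agent.NCR

theorem deck_cocompact {X M Γ : Type} [TopologicalSpace X] [LocallyCompactSpace X]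
    [TopologicalSpace M] [CompactSpace M] [Group Γ] {π : X → M} (hπ : IsCoveringMap π)
    (ρ : Γ →* Equiv.Perm X) (htr : ∀ x y, π x = π y → ∃ γ, ρ γ x = y) :
    ∃ K : Set X, IsCompact K ∧ ∀ x, ∃ γ : Γ, ρ γ x ∈ K := by
  -- the range is closed
  have hcl : IsClosed (range π) := by
    rw [← isOpen_compl_iff, isOpen_iff_mem_nhds]
    intro m hm
    obtain ⟨_, U, hmU, hU, _, H, hH⟩ := hπ m
    have hfib : IsEmpty (π ⁻¹' {m}) := by
      constructor
      rintro ⟨x, hx⟩
      exact hm ⟨x, hx⟩
    filter_upwards [hU.mem_nhds hmU] with y hy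
    rintro ⟨x, rfl⟩
    exact hfib.elim (H ⟨x, hy⟩).2
  have hcpt : IsCompact (range π) := hcl.isCompact
  -- compact neighbourhoods
  have hK : ∀ x : X, ∃ K : Set X, IsCompact K ∧ K ∈ 𝓝 x := fun x => exists_compact_mem_nhds x
  choose K hKc hKn using hK
  have hopen : IsOpenMap π := hπ.isOpenMap
  obtain ⟨s, hs⟩ := hcpt.elim_finite_subcover (fun x : X => π '' interior (K x))
    (fun x => hopen _ isOpen_interior) (by
      rintro _ ⟨x, rfl⟩
      exact mem_iUnion.2 ⟨x, x, mem_interior_iff_mem_nhds.2 (hKn x), rfl⟩)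
  refine ⟨⋃ x ∈ s, K x, s.isCompact_biUnion fun x _ => hKc x, fun x => ?_⟩
  obtain ⟨a, ha, y, hy, hyx⟩ : ∃ a ∈ s, ∃ y ∈ interior (K a), π y = π x := by
    simpa using hs (mem_range_self x)
  obtain ⟨γ, hγ⟩ := htr x y hyx.symm
  refine ⟨γ, ?_⟩
  rw [hγ]
  exact mem_biUnion ha (interior_subset hy)

end Pool.Agent.NCR
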