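import Mathlib

/-! # NCR: a free group of deck transformations is properly discontinuous

PROOF. Claim: for `x, y : X` there are neighbourhoods `N` of `x` and `N'` of `y` such that at most one
`γ` has `ρ γ (N) ∩ N' ≠ ∅`. If `π x ≠ π y` take `N, N'` with disjoint images (`M` Hausdorff): none. If
`π x = π y`: let `N'` be an open neighbourhood of `y` on which `π` is injective and `N` a
connected open neighbourhood of `x`: use a trivialisation of `π` over `U ∋ π x`, `N'` = the sheet of `y`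
over `U`, `N` = a connected neighbourhood of `x` with `π (N) ⊆ U`. If `ρ γ z ∈ N'` for some `z ∈ N`, then `ρ γ (N)` is connected and its image is in `U`, so it
stays in the sheet `N'` (the sheet component of the trivialisation is locally constant); so
`ρ γ x ∈ N'` and `π (ρ γ x) = π y`, so `ρ γ x = y`. Two such `γ, γ'` have `ρ γ x = ρ γ' x`, so
`γ = γ'` by freeness.
`K × K` is compact: finitely many `N × N'` cover it. -/

set_option autoImplicit false

open Set Filter Topology

namespace Pool.Agent.NCR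

private theorem deckdisc_local {X M Γ : Type} [TopologicalSpace X] [LocallyConnectedSpace X]
    [TopologicalSpace M] [T2Space M] [Group Γ] {π : X → M} (hπ : IsCoveringMap π)
    (ρ : Γ →* Equiv.Perm X) (hc : ∀ γ, Continuous (ρ γ)) (hp : ∀ γ x, π (ρ γ x) = π x)
    (hfree : ∀ γ x, ρ γ x = x → γ = 1) (x y : X) :
    ∃ N ∈ 𝓝 x, ∃ N' ∈ 𝓝 y, {γ : Γ | ∃ z ∈ N, ρ γ z ∈ N'}.Subsingleton := by
  by_cases hxy : π x = π y
  · obtain ⟨e, hye, hfe⟩ := hπ.isLocalHomeomorph y
    have hU : π ⁻¹' e.target ∈ 𝓝 x := by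
      refine (e.open_target.preimage hπ.continuous).mem_nhds ?_
      show π x ∈ e.target
      rw [hxy, hfe]
      exact e.map_source hye
    obtain ⟨N, ⟨hNo, hxN, hNc⟩, hNU⟩ := (LocallyConnectedSpace.open_connected_basis x).mem_iff.1 hU
    have key : ∀ γ : Γ, (∃ z ∈ N, ρ γ z ∈ e.source) → ρ γ x = e.symm (π x) := by
      rintro γ ⟨z, hz, hγz⟩
      have h1 : EqOn (ρ γ) (fun w => e.symm (π w)) N := by
        refine hπ.eqOn_of_comp_eqOn hNc.isPreconnected (hc γ).continuousOn ?_ ?_ hz ?_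
        · exact e.continuousOn_symm.comp hπ.continuous.continuousOn fun w hw => hNU hw
        · intro w hw
          show π (ρ γ w) = π (e.symm (π w))
          rw [hp]
          have h2 : e (e.symm (π w)) = π w := e.right_inv (hNU hw)
          rw [← hfe] at h2
          exact h2.symm
        · show ρ γ z = e.symm (π z)
          rw [← hp γ z, hfe, e.left_inv hγz]
      exact h1 hxN
    refine ⟨N, hNo.mem_nhds hxN, e.source, e.open_source.mem_nhds hye, ?_⟩
    intro γ hγ γ' hγ'
    have h3 : ρ γ x = ρ γ' x := (key γ hγ).trans (key γ' hγ').symm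
    have h4 : ρ (γ'⁻¹ * γ) x = x := by
      rw [map_mul, Equiv.Perm.mul_apply, h3, map_inv]; exact (ρ γ').symm_apply_apply x
    have h5 := hfree _ _ h4
    exact (inv_mul_eq_one.1 h5).symm
  · obtain ⟨U, V, hU, hV, hxU, hyV, hUV⟩ := t2_separation hxy
    refine ⟨π ⁻¹' U, (hU.preimage hπ.continuous).mem_nhds hxU, π ⁻¹' V,
      (hV.preimage hπ.continuous).mem_nhds hyV, ?_⟩
    rintro γ ⟨z, hz, hγz⟩
    exfalso
    have h1 : π z ∈ V := by
      rw [← hp γ z]
      exact hγz
    exact Set.disjoint_left.1 hUV hz h1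

theorem deck_disc {X M Γ : Type} [TopologicalSpace X] [LocallyConnectedSpace X]
    [TopologicalSpace M] [T2Space M] [Group Γ] {π : X → M} (hπ : IsCoveringMap π)
    (ρ : Γ →* Equiv.Perm X) (hc : ∀ γ, Continuous (ρ γ)) (hp : ∀ γ x, π (ρ γ x) = π x)
    (hfree : ∀ γ x, ρ γ x = x → γ = 1) {K : Set X} (hK : IsCompact K) :
    {γ : Γ | ∃ x ∈ K, ρ γ x ∈ K}.Finite := by
  have h := (hK.prod hK).induction_on
    (p := fun S : Set (X × X) => {γ : Γ | ∃ x, (x, ρ γ x) ∈ S}.Finite) (by simp)
    (fun S T hST hT => hT.subset fun γ ⟨x, hx⟩ => ⟨x, hST hx⟩)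
    (fun S T hS hT => (hS.union hT).subset (by
      rintro γ ⟨x, hx | hx⟩
      · exact Or.inl ⟨x, hx⟩
      · exact Or.inr ⟨x, hx⟩))
    (by
      rintro ⟨x, y⟩ -
      obtain ⟨N, hN, N', hN', hs⟩ := deckdisc_local hπ ρ hc hp hfree x y
      refine ⟨N ×ˢ N', mem_nhdsWithin_of_mem_nhds (prod_mem_nhds hN hN'), ?_⟩
      refine hs.finite.subset ?_
      rintro γ ⟨z, hz⟩
      exact ⟨z, hz.1, hz.2⟩)
  refine h.subset ?_
  rintro γ ⟨x, hx, hx'⟩
  exact ⟨x, hx, hx'⟩

end Pool.Agent.NCR
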