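import Pool.Agent.NCQ.MDefs
import Pool.Agent.NCP.RDefs

/-! # NCR: closed Riemannian manifolds by etale charts (definitions)

Project BRIDGE for MP_23cc9a_gt, part A (Cartan-Hadamard). `R : RM n ι M` : the topological space `M`
is covered by the maps `R.q i : E n → M` (continuous, open and locally injective on the open set
`R.dom`), with Riemannian metrics `R.G i` on `R.dom` which match on overlaps. -/

set_option autoImplicit false

open Set Filter Topology
open scoped ContDiff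

namespace Pool.Agent.NCR

open Pool.Agent.NCP (E RMetric)
open Pool.Agent.NCQ (GeodesicAt)

/-- A compact Riemannian manifold given by etale charts. -/
structure RM (n : ℕ) (ι M : Type) [TopologicalSpace M] where
  /-- common domain of the charts -/
  dom : Set (E n)
  isOpen_dom : IsOpen dom
  /-- the charts -/
  q : ι → E n → M
  cont : ∀ i, ContinuousOn (q i) dom
  openMap : ∀ i (U : Set (E n)), IsOpen U → U ⊆ dom → IsOpen (q i '' U)
  locInj : ∀ i, ∀ x ∈ dom, ∃ U ∈ 𝓝 x, InjOn (q i) U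
  /-- the metric -/
  G : ι → E n → E n →L[ℝ] E n →L[ℝ] ℝ
  smooth : ∀ i, ∀ x ∈ dom, ContDiffAt ℝ ∞ (G i) x
  symm : ∀ i x v w, G i x v w = G i x w v
  pos : ∀ i, ∀ x ∈ dom, ∀ v, v ≠ 0 → 0 < G i x v v
  trans : ∀ i j x y, x ∈ dom → y ∈ dom → q i x = q j y →
    ∃ θ : E n → E n, ContDiffAt ℝ ∞ θ x ∧ θ x = y ∧ ∀ᶠ z in 𝓝 x, θ z ∈ dom ∧ q j (θ z) = q i z ∧
      ∀ v w, G j (θ z) (fderiv ℝ θ z v) (fderiv ℝ θ z w) = G i z v w
  /-- a compact set of representatives -/
  K : Set (E n)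
  isCompact_K : IsCompact K
  K_sub : K ⊆ dom
  cover : ∀ m, ∃ i, ∃ x ∈ K, q i x = m

namespace RM

variable {n : ℕ} {ι M : Type} [TopologicalSpace M] (R : RM n ι M)

/-- the metric of the chart `i` as a function of three variables -/
noncomputable def gm (i : ι) : E n → E n → E n → ℝ := fun x v w => R.G i x v w

/-- `x` is a smooth lift of `α` to the chart `i` near `p`. -/
def Lift {P : Type} [NormedAddCommGroup P] [NormedSpace ℝ P] (α : P → M) (p : P) (i : ι)
    (x : P → E n) : Prop :=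
  ∀ᶠ r in 𝓝 p, ContDiffAt ℝ ∞ x r ∧ x r ∈ R.dom ∧ R.q i (x r) = α r

/-- `x` is a lift of `c` near `t` which satisfies the geodesic equation near `t`. -/
def GeoLift (c : ℝ → M) (t : ℝ) (i : ι) (x : ℝ → E n) : Prop :=
  R.Lift c t i x ∧ ∀ᶠ s in 𝓝 t, GeodesicAt (R.gm i) x s

/-- `c` is a geodesic near `t`. -/
def IsGeo (c : ℝ → M) (t : ℝ) : Prop := ∃ (i : ι) (x : ℝ → E n), R.GeoLift c t i x

/-- `c` is a geodesic near `t`, with position `x` and velocity `v` in the chart `i`. -/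
def State (c : ℝ → M) (t : ℝ) (i : ι) (x v : E n) : Prop :=
  ∃ y : ℝ → E n, R.GeoLift c t i y ∧ y t = x ∧ deriv y t = v

/-- `α (s, t)` is a smooth variation through geodesics `t ↦ α (s, t)`. -/
def IsVariation (α : ℝ × ℝ → M) : Prop :=
  ∀ p : ℝ × ℝ, ∃ (i : ι) (x : ℝ × ℝ → E n), R.Lift α p i x ∧
    ∀ᶠ q in 𝓝 p, GeodesicAt (R.gm i) (fun t => x (q.1, t)) q.2

/-- The Jacobi field `∂α/∂s (0, ·)` vanishes at the time `t`. -/
def JacobiZero (α : ℝ × ℝ → M) (t : ℝ) : Prop :=
  ∃ (i : ι) (x : ℝ × ℝ → E n), R.Lift α (0, t) i x ∧ deriv (fun s => x (s, t)) 0 = 0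

/-- No conjugate points. -/
def NoConj : Prop :=
  ∀ α : ℝ × ℝ → M, R.IsVariation α → ∀ t₁ t₂ : ℝ, t₁ ≠ t₂ →
    R.JacobiZero α t₁ → R.JacobiZero α t₂ → ∀ t, R.JacobiZero α t

/-- `f : E n → M` is a local diffeomorphism. -/
structure LocDiff (f : E n → M) : Prop where
  lift : ∀ u, ∃ (j : ι) (X : E n → E n), R.Lift f u j X
  inj : ∀ u (j : ι) (X : E n → E n), R.Lift f u j X → Function.Injective (fderiv ℝ X u)

end RM

/-- Radial metrics on `E n` : the Gauss lemma holds, straight lines through `0` being the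
geodesics. -/
def Radial {n : ℕ} (g : RMetric n) : Prop := ∀ u w, g.form u u w = g.form 0 u w

/-- norm at the point `a` -/
noncomputable def nrm {n : ℕ} (g : RMetric n) (a u : E n) : ℝ := √(g.form a u u)

/-- A family of global normal coordinates: `e a` is the exponential map at `a`. -/
structure Fan {n : ℕ} (g : RMetric n) where
  /-- exponential map at `a` -/
  e : E n → E n → E n
  zero : ∀ a, e a 0 = a
  smooth : ∀ a, ContDiff ℝ ∞ (e a)
  bij : ∀ a, Function.Bijective (e a)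
  inj : ∀ a u, Function.Injective (fderiv ℝ (e a) u)
  der_zero : ∀ a w, fderiv ℝ (e a) 0 w = w
  gauss : ∀ a u w, g.form (e a u) (fderiv ℝ (e a) u u) (fderiv ℝ (e a) u w) = g.form a u w
  flow : ∀ a u (s t : ℝ), e a ((s + t) • u) = e (e a (s • u)) (t • deriv (fun r : ℝ => e a (r • u)) s)

end Pool.Agent.NCR
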