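import Pool.Agent.NCR.LiftSmooth
import Pool.Agent.NCR.RadLift
import Pool.Agent.NCR.BijTop

/-! # NCR: the lifted exponential map is bijective

PROOF. `e` is a local homeomorphism (`IsLocalHomeomorph.of_comp`). `bijective_of_segment_lifts` with
`w₀ = 0`. Lifts of the segment `σ t = e 0 + t • (v - e 0)` through `e` from `0` by `exists_lift_radial`
with `f := e`, `g := pull hh`: let `y` be a partial lift, `t ∈ (0, T)`, `X` a lift of `f` at `σ t` in the
chart `j`. `h (y s) = f (e (y s)) = f (σ s)`, so `X ∘ σ` is a lift of `s ↦ f (σ s)` at `t` and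
`lift_smooth hh` gives that `y` is smooth at `t` and
`(pull hh).form (y t) (y' t) (y' t) = G j (X (σ t)) (DX (v - e 0)) (DX (v - e 0)) =
(pull hf).form (σ t) (v - e 0) (v - e 0)`, which is bounded by some `L ^ 2` for `t ∈ [0, 1]`
(compactness). -/

set_option autoImplicit false

open Set Filter Topology
open scoped ContDiff

namespace Pool.Agent.NCR

open Pool.Agent.NCP (E RMetric)

variable {n : ℕ} {ι M : Type} [TopologicalSpace M]

theorem RM.ea_bijective {R : RM n ι M} {f h : E n → M} (hf : R.LocDiff f) (hh : R.LocDiff h)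
    (hrh : Radial (RM.pull hh)) {e : E n → E n} (he : Continuous e) (hfe : ∀ u, f (e u) = h u) :
    Function.Bijective e := by
  have hcomp : f ∘ e = h := funext hfe
  have hloc : IsLocalHomeomorph e := by
    have h0 : IsLocalHomeomorph (f ∘ e) := by
      rw [hcomp]
      exact hh.isLocalHomeomorph
    exact IsLocalHomeomorph.of_comp h0 hf.isLocalHomeomorph he
  refine bijective_of_segment_lifts hloc (w₀ := 0) fun v => ?_
  set d : E n := v - e 0 with hd
  set σ : ℝ → E n := fun t => e 0 + t • d with hσ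
  have hσc : ContDiff ℝ ∞ σ := contDiff_const.add (contDiff_id.smul contDiff_const)
  have hσd : ∀ t, HasDerivAt σ d t := by
    intro t
    have h3 := ((hasDerivAt_id t).smul_const d).const_add (e 0)
    rw [one_smul] at h3
    exact h3
  -- the speed of the segment is bounded
  have hcont : Continuous fun t : ℝ => (RM.pull hf).form (σ t) d d :=
    (((RM.pull hf).smooth.continuous.comp hσc.continuous).clm_apply continuous_const).clm_apply
      continuous_const
  obtain ⟨C, hC⟩ := (isCompact_Icc (a := (0 : ℝ)) (b := 1)).bddAbove_image hcont.continuousOn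
  have hC' : ∀ t ∈ Icc (0 : ℝ) 1, (RM.pull hf).form (σ t) d d ≤ C := fun t ht =>
    hC (mem_image_of_mem _ ht)
  have hm : 0 ≤ max C 0 := le_max_right _ _
  refine exists_lift_radial hloc hrh (c := σ) hσc.continuous.continuousOn (a := 0)
    (by show e 0 = e 0 + (0 : ℝ) • d; rw [zero_smul, add_zero]) (L := max C 0 + 1) (by linarith) ?_
  intro T hT y hy _ hfy t ht
  obtain ⟨j, X, hX⟩ := hf.lift (σ t)
  have hx : R.Lift (fun s => f (σ s)) t j (fun s => X (σ s)) := by
    have hc : Tendsto σ (𝓝 t) (𝓝 (σ t)) := hσc.continuous.tendsto t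
    filter_upwards [hc.eventually hX] with r hr
    exact ⟨ContDiffAt.comp (g := X) r hr.1 hσc.contDiffAt, hr.2.1, hr.2.2⟩
  have hev : ∀ᶠ r in 𝓝 t, ContinuousAt y r ∧ h (y r) = f (σ r) := by
    filter_upwards [isOpen_Ioo.mem_nhds ht] with r hr
    have hr' : r ∈ Ico 0 T := ⟨hr.1.le, hr.2⟩
    refine ⟨hy.continuousAt (mem_of_superset (isOpen_Ioo.mem_nhds hr) Ioo_subset_Ico_self), ?_⟩
    rw [← hfe, hfy r hr']
  obtain ⟨h1, h2⟩ := RM.lift_smooth hh hx hev
  refine ⟨h1.differentiableAt (by simp), ?_⟩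
  have h3 : HasDerivAt (fun s => X (σ s)) (fderiv ℝ X (σ t) d) t := by
    have h5 : HasFDerivAt X (fderiv ℝ X (σ t)) (σ t) :=
      (hX.self_of_nhds.1.differentiableAt (by simp)).hasFDerivAt
    exact h5.comp_hasDerivAt t (hσd t)
  have h4 := h2 1 1
  have h5 : fderiv ℝ (fun s => X (σ s)) t 1 = fderiv ℝ X (σ t) d := h3.deriv
  have h6 : fderiv ℝ y t 1 = deriv y t := rfl
  rw [h5, h6, ← RM.pull_form hf hX] at h4
  rw [h4]
  have h7 := hC' t ⟨ht.1.le, ht.2.le.trans hT.2⟩
  have h8 : C ≤ max C 0 := le_max_left _ _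
  nlinarith

end Pool.Agent.NCR
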