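import Pool.Agent.NCR.LiftSmooth
import Pool.Agent.NCR.RadLift
import Pool.Agent.NCR.LiftEnd

/-! # NCR: a local diffeomorphism with radial pull back lifts through another one

PROOF. For every `u` the curve `c t = h (t • u)` lifts through `f` from `a` on `[0, 1]`
(`exists_lift_radial` with `g = pull hf`, `f` a local homeomorphism by
`LocDiff.isLocalHomeomorph`): let `y` be a partial lift, `t ∈ (0, T)`, `X` a lift of `h` at `t • u` in the
chart `j`; `x s = X (s • u)` is a lift of `c` at `t`; by `lift_smooth`, `y` is smooth at `t` and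
`(pull hf).form (y t) (y' t) (y' t) = G j (x t) (x' t) (x' t) = (pull hh).form (t • u) u u` (`pull_form`)
`= (pull hh).form 0 u u` (`Radial` for `t • u`, divide by `t`), which is `L ^ 2` for
`L = nrm (pull hh) 0 u`. Here `deriv y t = fderiv ℝ y t 1`.
Then `exists_lift_end` with `A = E n`, `H u t = h (t • u)`, `s = a`; `e 0 = a` by the constant lift. -/

set_option autoImplicit false

open Set Filter Topology
open scoped ContDiff

namespace Pool.Agent.NCR

open Pool.Agent.NCP (E RMetric)

variable {n : ℕ} {ι M : Type} [TopologicalSpace M]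

theorem RM.exists_ea [T2Space M] {R : RM n ι M} {f h : E n → M} (hf : R.LocDiff f)
    (hrf : Radial (RM.pull hf)) (hh : R.LocDiff h) (hrh : Radial (RM.pull hh)) {a : E n}
    (h0 : h 0 = f a) : ∃ e : E n → E n, Continuous e ∧ e 0 = a ∧ ∀ u, f (e u) = h u := by
  have hlf := hf.isLocalHomeomorph
  have hch : Continuous h := hh.isLocalHomeomorph.continuous
  have key : ∀ u : E n, ∃ y : ℝ → E n, ContinuousOn y (Icc 0 1) ∧ y 0 = a ∧
      ∀ t ∈ Icc (0 : ℝ) 1, f (y t) = h (t • u) := by
    intro u
    have hnn : 0 ≤ (RM.pull hh).form 0 u u := by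
      by_cases hu : u = 0
      · rw [hu]; simp
      · exact ((RM.pull hh).pos 0 u hu).le
    have hLsq : (√((RM.pull hh).form 0 u u)) ^ 2 = (RM.pull hh).form 0 u u := Real.sq_sqrt hnn
    have hcc : Continuous fun t : ℝ => h (t • u) := hch.comp (by fun_prop)
    refine exists_lift_radial hlf hrf (c := fun t : ℝ => h (t • u)) hcc.continuousOn ?_
      (Real.sqrt_nonneg ((RM.pull hh).form 0 u u)) ?_
    · show f a = h ((0 : ℝ) • u)
      rw [zero_smul, h0]
    · intro T _ y hyc _ hyl t ht
      obtain ⟨j, X, hX⟩ := hh.lift (t • u)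
      have hcs : ContinuousAt (fun s : ℝ => s • u) t := by fun_prop
      have hLx : R.Lift (fun s : ℝ => h (s • u)) t j (fun s : ℝ => X (s • u)) := by
        have h1 := hcs.eventually hX
        unfold RM.Lift
        filter_upwards [h1] with s hs
        refine ⟨?_, hs.2.1, hs.2.2⟩
        exact hs.1.comp s (by fun_prop)
      have hev : ∀ᶠ r in 𝓝 t, ContinuousAt y r ∧ f (y r) = h (r • u) := by
        filter_upwards [isOpen_Ioo.mem_nhds ht] with r hr
        refine ⟨?_, hyl r ⟨hr.1.le, hr.2⟩⟩
        exact hyc.continuousAt (Filter.mem_of_superset (isOpen_Ioo.mem_nhds hr) Ioo_subset_Ico_self)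
      obtain ⟨hys, hform⟩ := RM.lift_smooth hf hLx hev
      refine ⟨hys.differentiableAt (by simp), le_of_eq ?_⟩
      have h2 := hform 1 1
      have h3 : fderiv ℝ (fun s : ℝ => X (s • u)) t 1 = fderiv ℝ X (t • u) u := by
        have hXd : DifferentiableAt ℝ X (t • u) := hX.self_of_nhds.1.differentiableAt (by simp)
        have h4 : HasFDerivAt (fun s : ℝ => s • u) ((1 : ℝ →L[ℝ] ℝ).smulRight u) t :=
          (ContinuousLinearMap.id ℝ ℝ).hasFDerivAt.smul_const u
        have h5 := (hXd.hasFDerivAt.comp t h4).fderiv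
        have h6 : (X ∘ fun s : ℝ => s • u) = fun s : ℝ => X (s • u) := rfl
        rw [h6] at h5
        rw [h5]
        simp
      rw [fderiv_apply_one_eq_deriv, h3] at h2
      rw [h2, ← RM.pull_form hh hX u u, hLsq]
      have h7 := hrh (t • u) u
      simp only [map_smul, ContinuousLinearMap.smul_apply, smul_eq_mul] at h7
      exact mul_left_cancel₀ ht.1.ne' h7
  have hH : ContinuousOn (fun p : E n × ℝ => (fun (u : E n) (t : ℝ) => h (t • u)) p.1 p.2)
      (univ ×ˢ Icc 0 1) := by
    have : Continuous fun p : E n × ℝ => h (p.2 • p.1) := hch.comp (by fun_prop)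
    exact this.continuousOn
  obtain ⟨e, hec, hel, heu⟩ := exists_lift_end hlf hH (s := fun _ : E n => a) continuous_const key
  refine ⟨e, hec, ?_, fun u => ?_⟩
  · refine heu 0 (fun _ => a) continuousOn_const rfl fun t _ => ?_
    show f a = h (t • (0 : E n))
    rw [smul_zero, h0]
  · have h8 := hel u
    rw [one_smul] at h8
    exact h8

end Pool.Agent.NCR
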