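import Pool.Agent.NCR.Defs

/-! # NCR: the geodesic equation as a second order ODE

PROOF. `B x = G x : E n →L (E n →L ℝ)` is injective for `x ∈ U` (positivity), hence invertible
(finite dimension). Let `ξ (x, v) : E n →L ℝ`, `ξ (x, v) w = 1/2 (fderiv ℝ G x w) v v
- (fderiv ℝ G x v) v w` (a smooth function of `(x, v)` for `x ∈ U`: `ContDiffAt.fderiv_right`,
`clm_apply`, `ContinuousLinearMap.flip`), and `S (x, v) = (B x).inverse (ξ (x, v))`
(`ContinuousLinearMap.inverse`, `contDiffAt_map_inverse`). For a `C²` curve `c` at `t` with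
`c t ∈ U`: `d/dt G (c) (c', w) = (fderiv G (c t) c') c' w + G (c t) c'' w` and
`∂_a G (c t + a w) (c', c') = (fderiv G (c t) w) c' c'`, so `GeodesicAt` says
`G (c t) c'' w = ξ (c t, c' t) w` for all `w`. -/

set_option autoImplicit false

open Set Filter Topology
open scoped ContDiff

namespace Pool.Agent.NCR

open Pool.Agent.NCP (E RMetric)
open Pool.Agent.NCQ (GeodesicAt)

section general

variable {V : Type*} [NormedAddCommGroup V] [NormedSpace ℝ V]
variable {W : Type*} [NormedAddCommGroup W] [NormedSpace ℝ W]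

theorem flip_smooth : ContDiff ℝ ∞ (fun L : V →L[ℝ] V →L[ℝ] W => L.flip) := by
  have h : IsBoundedLinearMap ℝ (fun L : V →L[ℝ] V →L[ℝ] W => L.flip) := by
    refine ⟨⟨fun a b => rfl, fun a b => rfl⟩, 1, one_pos, fun L => ?_⟩
    rw [ContinuousLinearMap.opNorm_flip]
    simp
  exact h.contDiff

theorem partA_smooth (ev : V →L[ℝ] W →L[ℝ] ℝ) {G : V → V →L[ℝ] W} {x : V}
    (hG : ContDiffAt ℝ ∞ G x) (v : V) :
    ContDiffAt ℝ ∞ (fun p : V × V => (ev p.2).comp ((fderiv ℝ G p.1).flip p.2)) (x, v) := by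
  have h0 : ContDiffAt ℝ ∞ (fderiv ℝ G) x := hG.fderiv_right (by simp)
  have h1 : ContDiffAt ℝ ∞ (fun p : V × V => fderiv ℝ G p.1) (x, v) :=
    ContDiffAt.comp (x, v) (g := fderiv ℝ G) (f := Prod.fst) h0 contDiffAt_fst
  have h2 : ContDiffAt ℝ ∞ (fun p : V × V => p.2) (x, v) := contDiffAt_snd
  have h3 : ContDiffAt ℝ ∞ (fun p : V × V => (fderiv ℝ G p.1).flip) (x, v) :=
    flip_smooth.contDiffAt.comp _ h1
  have h4 : ContDiffAt ℝ ∞ (fun p : V × V => (fderiv ℝ G p.1).flip p.2) (x, v) :=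
    h3.clm_apply h2
  have h5 : ContDiffAt ℝ ∞ (fun p : V × V => ev p.2) (x, v) :=
    ev.contDiff.contDiffAt.comp _ h2
  exact h5.clm_comp h4

theorem partB_smooth {G : V → V →L[ℝ] W} {x : V}
    (hG : ContDiffAt ℝ ∞ G x) (v : V) :
    ContDiffAt ℝ ∞ (fun p : V × V => fderiv ℝ G p.1 p.2 p.2) (x, v) := by
  have h0 : ContDiffAt ℝ ∞ (fderiv ℝ G) x := hG.fderiv_right (by simp)
  have h1 : ContDiffAt ℝ ∞ (fun p : V × V => fderiv ℝ G p.1) (x, v) :=
    ContDiffAt.comp (x, v) (g := fderiv ℝ G) (f := Prod.fst) h0 contDiffAt_fst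
  have h2 : ContDiffAt ℝ ∞ (fun p : V × V => p.2) (x, v) := contDiffAt_snd
  exact (h1.clm_apply h2).clm_apply h2

theorem hasDeriv_comp {G : V → V →L[ℝ] W} {c : ℝ → V} {t : ℝ} {c' : V}
    {G' : V →L[ℝ] V →L[ℝ] W} {x : V}
    (h : HasFDerivAt G G' x) (hx : c t = x) (hc : HasDerivAt c c' t) :
    HasDerivAt (fun s => G (c s)) (G' c') t := by
  subst hx
  exact h.comp_hasDerivAt t hc

/-- the right side of the geodesic equation as a linear form -/
noncomputable def spXi (G : V → V →L[ℝ] V →L[ℝ] ℝ) (p : V × V) : V →L[ℝ] ℝ :=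
  (1 / 2 : ℝ) • ((ContinuousLinearMap.apply ℝ ℝ p.2).comp ((fderiv ℝ G p.1).flip p.2)) -
    fderiv ℝ G p.1 p.2 p.2

theorem spXi_apply (G : V → V →L[ℝ] V →L[ℝ] ℝ) (x v w : V) :
    spXi G (x, v) w = 1 / 2 * fderiv ℝ G x w v v - fderiv ℝ G x v v w := by
  simp [spXi]

theorem spXi_smooth {G : V → V →L[ℝ] V →L[ℝ] ℝ} {x : V}
    (hG : ContDiffAt ℝ ∞ G x) (v : V) : ContDiffAt ℝ ∞ (spXi G) (x, v) := by
  have h1 := partA_smooth (W := V →L[ℝ] ℝ) (ContinuousLinearMap.apply ℝ ℝ) hG v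
  have h2 := partB_smooth (W := V →L[ℝ] ℝ) hG v
  have h3 : ContDiffAt ℝ ∞ (fun p : V × V => (1 / 2 : ℝ) •
      ((ContinuousLinearMap.apply ℝ ℝ p.2).comp ((fderiv ℝ G p.1).flip p.2))) (x, v) :=
    h1.const_smul (1 / 2 : ℝ)
  exact h3.sub h2

theorem exists_equiv [FiniteDimensional ℝ V] (B : V →L[ℝ] V →L[ℝ] ℝ)
    (pos : ∀ v, v ≠ 0 → 0 < B v v) :
    ∃ e : V ≃L[ℝ] (V →L[ℝ] ℝ), (e : V →L[ℝ] V →L[ℝ] ℝ) = B := by
  have hinj : Function.Injective (B : V →ₗ[ℝ] (V →L[ℝ] ℝ)) := by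
    rw [injective_iff_map_eq_zero]
    intro v hv
    by_contra h0
    have h1 := pos v h0
    have h2 : B v = 0 := hv
    rw [h2] at h1
    simp at h1
  have hdim : Module.finrank ℝ V = Module.finrank ℝ (V →L[ℝ] ℝ) := by
    have h1 : Module.finrank ℝ (V →ₗ[ℝ] ℝ) = Module.finrank ℝ (V →L[ℝ] ℝ) :=
      LinearEquiv.finrank_eq LinearMap.toContinuousLinearMap
    rw [← h1]
    exact (Subspace.dual_finrank_eq (K := ℝ) (V := V)).symm
  let e := (LinearMap.linearEquivOfInjective (B : V →ₗ[ℝ] (V →L[ℝ] ℝ)) hinj hdim)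
  refine ⟨e.toContinuousLinearEquiv, ?_⟩
  ext v w
  rfl

theorem spray_gen [FiniteDimensional ℝ V] (G : V → V →L[ℝ] V →L[ℝ] ℝ) {U : Set V}
    (hG : ∀ x ∈ U, ContDiffAt ℝ ∞ G x)
    (pos : ∀ x ∈ U, ∀ v, v ≠ 0 → 0 < G x v v) :
    ∃ S : V × V → V, (∀ x ∈ U, ∀ v, ContDiffAt ℝ ∞ S (x, v)) ∧
      (∀ x ∈ U, ∀ v, ∀ r : ℝ, S (x, r • v) = r ^ 2 • S (x, v)) ∧
      ∀ (c : ℝ → V) (t : ℝ), ContDiffAt ℝ 2 c t → c t ∈ U →
        (GeodesicAt (fun x v w => G x v w) c t ↔ deriv (deriv c) t = S (c t, deriv c t)) := by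
  refine ⟨fun p => (G p.1).inverse (spXi G p), ?_, ?_, ?_⟩
  · intro x hx v
    obtain ⟨e, he⟩ := exists_equiv (G x) (pos x hx)
    have h1 : ContDiffAt ℝ ∞ (ContinuousLinearMap.inverse : (V →L[ℝ] V →L[ℝ] ℝ) → _) (G x) := by
      rw [← he]
      exact contDiffAt_map_inverse e
    have h2 : ContDiffAt ℝ ∞ (fun p : V × V => G p.1) (x, v) :=
      ContDiffAt.comp (x, v) (g := G) (f := Prod.fst) (hG x hx) contDiffAt_fst
    have h3 : ContDiffAt ℝ ∞ (fun p : V × V => (G p.1).inverse) (x, v) :=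
      ContDiffAt.comp (x, v) (g := ContinuousLinearMap.inverse) (f := fun p : V × V => G p.1)
        h1 h2
    exact h3.clm_apply (spXi_smooth (hG x hx) v)
  · intro x hx v r
    have h1 : spXi G (x, r • v) = r ^ 2 • spXi G (x, v) := by
      ext w
      simp only [spXi_apply, FunLike.coe_smul, Pi.smul_apply, map_smul, smul_eq_mul]
      ring
    simp only
    rw [h1, map_smul]
  · intro c t hc hx
    obtain ⟨e, he⟩ := exists_equiv (G (c t)) (pos _ hx)
    have hdG : HasFDerivAt G (fderiv ℝ G (c t)) (c t) :=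
      ((hG _ hx).differentiableAt (by simp)).hasFDerivAt
    have hc1 : HasDerivAt c (deriv c t) t := (hc.differentiableAt (by norm_num)).hasDerivAt
    have hc2 : HasDerivAt (deriv c) (deriv (deriv c) t) t := by
      have h1 : ContDiffAt ℝ 1 (fderiv ℝ c) t := hc.fderiv_right (by norm_num)
      have h2 : DifferentiableAt ℝ (fun s => fderiv ℝ c s 1) t :=
        (h1.differentiableAt (by norm_num)).clm_apply (differentiableAt_const _)
      have h3 : (fun s => fderiv ℝ c s 1) = deriv c := by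
        funext s
        exact fderiv_apply_one_eq_deriv
      rw [h3] at h2
      exact h2.hasDerivAt
    have hGc : HasDerivAt (fun s => G (c s)) (fderiv ℝ G (c t) (deriv c t)) t :=
      hasDeriv_comp (W := V →L[ℝ] ℝ) hdG rfl hc1
    have e1 : ∀ w, deriv (fun t' => G (c t') (deriv c t') w) t =
        fderiv ℝ G (c t) (deriv c t) (deriv c t) w + G (c t) (deriv (deriv c) t) w := by
      intro w
      have h1 := (hGc.clm_apply hc2).clm_apply (hasDerivAt_const t w)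
      rw [h1.deriv]
      simp
    have e2 : ∀ w, deriv (fun a : ℝ => G (c t + a • w) (deriv c t) (deriv c t)) 0 =
        fderiv ℝ G (c t) w (deriv c t) (deriv c t) := by
      intro w
      have h1 : HasDerivAt (fun a : ℝ => c t + a • w) w 0 := by
        have := ((hasDerivAt_id (0 : ℝ)).smul_const w).const_add (c t)
        simpa using this
      have h2 : HasFDerivAt G (fderiv ℝ G (c t)) (c t + (0 : ℝ) • w) := by simpa using hdG
      have h3 : HasDerivAt (fun a : ℝ => G (c t + a • w)) (fderiv ℝ G (c t) w) 0 :=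
        hasDeriv_comp (W := V →L[ℝ] ℝ) (c := fun a : ℝ => c t + a • w) (t := 0) hdG
          (by simp) h1
      have h4 := (h3.clm_apply (hasDerivAt_const (0 : ℝ) (deriv c t))).clm_apply
        (hasDerivAt_const (0 : ℝ) (deriv c t))
      rw [h4.deriv]
      simp
    have e3 : GeodesicAt (fun x v w => G x v w) c t ↔
        G (c t) (deriv (deriv c) t) = spXi G (c t, deriv c t) := by
      unfold GeodesicAt
      constructor
      · intro h
        ext w
        have h1 := h w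
        rw [e1, e2] at h1
        rw [spXi_apply]
        linarith
      · intro h w
        rw [e1, e2, h, spXi_apply]
        ring
    rw [e3]
    simp only
    rw [← he, ContinuousLinearMap.inverse_equiv]
    constructor
    · intro h
      rw [← h]
      simp
    · intro h
      rw [h]
      simp

end general

theorem exists_spray {n : ℕ} (G : E n → E n →L[ℝ] E n →L[ℝ] ℝ) {U : Set (E n)}
    (hG : ∀ x ∈ U, ContDiffAt ℝ ∞ G x) (symm : ∀ x v w, G x v w = G x w v)
    (pos : ∀ x ∈ U, ∀ v, v ≠ 0 → 0 < G x v v) :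
    ∃ S : E n × E n → E n, (∀ x ∈ U, ∀ v, ContDiffAt ℝ ∞ S (x, v)) ∧
      (∀ x ∈ U, ∀ v, ∀ r : ℝ, S (x, r • v) = r ^ 2 • S (x, v)) ∧
      ∀ (c : ℝ → E n) (t : ℝ), ContDiffAt ℝ 2 c t → c t ∈ U →
        (GeodesicAt (fun x v w => G x v w) c t ↔ deriv (deriv c) t = S (c t, deriv c t)) :=
  spray_gen G hG pos

end Pool.Agent.NCR
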