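import Pool.Agent.NCR.GeoChange
import Pool.Agent.NCR.Spray

/-! # NCR: conservation of energy

PROOF. `energy_deriv`: with `E s = G (y s) (y' s) (y' s)`, symmetry and the geodesic equation with the
fixed vector `w = y' s` : `E' = 2 (d/ds G (y) (y', w)) - (fderiv G (y) y') y' y' ` evaluated at
`w = y'`, and `d/ds G (y)(y', w) = 1/2 (fderiv G (y) w) y' y'`; so `E' = 0`.
`energy_const`: the set of `t ∈ (a, b)` where some (equivalently every, by `Lift.metric_eq` with
`v = w = 1` and `GeoLift.of_lift`) lift has energy `e` is open and closed in `(a, b)`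
(locally the energy is constant by `energy_deriv` and `is_const_of_deriv_eq_zero` on an interval). -/

set_option autoImplicit false

open Set Filter Topology
open scoped ContDiff

namespace Pool.Agent.NCR

open Pool.Agent.NCP (E RMetric)
open Pool.Agent.NCQ (GeodesicAt)

variable {n : ℕ} {ι M : Type} [TopologicalSpace M]

theorem RM.energy_deriv (R : RM n ι M) (i : ι) {y : ℝ → E n} {t : ℝ}
    (hy : ContDiffAt ℝ ∞ y t) (hd : y t ∈ R.dom) (h : GeodesicAt (R.gm i) y t) :
    HasDerivAt (fun s => R.G i (y s) (deriv y s) (deriv y s)) 0 t := by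
  have h1 : HasDerivAt y (deriv y t) t := (hy.differentiableAt (by simp)).hasDerivAt
  have h2 : HasDerivAt (deriv y) (deriv (deriv y) t) t := by
    have h3 : ContDiffAt ℝ 1 (deriv y) t :=
      (hy.of_le (m := 2) ENat.LEInfty.out).derivWithin (by norm_num)
    exact (h3.differentiableAt (by simp)).hasDerivAt
  have hG : HasFDerivAt (R.G i) (fderiv ℝ (R.G i) (y t)) (y t) :=
    ((R.smooth i _ hd).differentiableAt (by simp)).hasFDerivAt
  have h4 : HasDerivAt (fun s => R.G i (y s)) (fderiv ℝ (R.G i) (y t) (deriv y t)) t :=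
    HasFDerivAt.comp_hasDerivAt (𝕜 := ℝ) (l := R.G i) (f := y)
      (l' := fderiv ℝ (R.G i) (y t)) t hG h1
  have h5 := (h4.clm_apply h2).clm_apply h2
  have h6 := ((h4.clm_apply h2).clm_apply (hasDerivAt_const t (deriv y t)))
  have h7 := h (deriv y t)
  have h8 : deriv (fun t' => R.gm i (y t') (deriv y t') (deriv y t)) t =
      (fderiv ℝ (R.G i) (y t) (deriv y t)) (deriv y t) (deriv y t)
        + (R.G i (y t)) (deriv (deriv y) t) (deriv y t) := by
    have := h6.deriv
    simp only [map_zero, add_zero, ContinuousLinearMap.add_apply] at this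
    exact this
  have h9 : deriv (fun a : ℝ => R.gm i (y t + a • deriv y t) (deriv y t) (deriv y t)) 0 =
      (fderiv ℝ (R.G i) (y t) (deriv y t)) (deriv y t) (deriv y t) := by
    have k1 : HasDerivAt (fun a : ℝ => y t + a • deriv y t) (deriv y t) 0 := by
      have := ((hasDerivAt_id (0 : ℝ)).smul_const (deriv y t)).const_add (y t)
      simpa using this
    have k2 : HasFDerivAt (R.G i) (fderiv ℝ (R.G i) (y t)) (y t + (0 : ℝ) • deriv y t) := by
      simpa using hG
    have k3 := HasFDerivAt.comp_hasDerivAt (𝕜 := ℝ) (l := R.G i)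
      (f := fun a : ℝ => y t + a • deriv y t) (l' := fderiv ℝ (R.G i) (y t)) (0 : ℝ) k2 k1
    have k4 := (k3.clm_apply (hasDerivAt_const (0 : ℝ) (deriv y t))).clm_apply
      (hasDerivAt_const (0 : ℝ) (deriv y t))
    have k5 := k4.deriv
    simp only [map_zero, add_zero, ContinuousLinearMap.add_apply] at k5
    exact k5
  rw [h8, h9] at h7
  refine h5.congr_deriv ?_
  have hs := R.symm i (y t) (deriv (deriv y) t) (deriv y t)
  simp only [ContinuousLinearMap.add_apply]
  rw [← hs]
  linarith

theorem RM.energy_const {R : RM n ι M} {c : ℝ → M} {a b : ℝ} (hc : ∀ t ∈ Ioo a b, R.IsGeo c t)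
    {t t' : ℝ} (ht : t ∈ Ioo a b) (ht' : t' ∈ Ioo a b) {i j : ι} {x v x' v' : E n}
    (h : R.State c t i x v) (h' : R.State c t' j x' v') : R.G j x' v' v' = R.G i x v v := by
  classical
  -- the energy does not depend on the state
  have key : ∀ {s : ℝ} {i j : ι} {x v x' v' : E n}, R.State c s i x v → R.State c s j x' v' →
      R.G j x' v' v' = R.G i x v v := by
    rintro s i j x v x' v' ⟨y, hy, rfl, rfl⟩ ⟨y', hy', rfl, rfl⟩
    have := hy.1.metric_eq hy'.1 1 1
    simpa only [fderiv_apply_one_eq_deriv] using this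
  set f : ℝ → ℝ := fun s => if hs : R.IsGeo c s then
    R.G hs.exists_state.choose hs.exists_state.choose_spec.choose
      hs.exists_state.choose_spec.choose_spec.choose
      hs.exists_state.choose_spec.choose_spec.choose else 0 with hf
  have hfs : ∀ {s : ℝ} {i : ι} {x v : E n}, R.State c s i x v → f s = R.G i x v v := by
    intro s i x v hst
    have hs : R.IsGeo c s := by
      obtain ⟨y, hy, -, -⟩ := hst
      exact ⟨i, y, hy⟩
    simp only [hf, dif_pos hs]
    exact key hst hs.exists_state.choose_spec.choose_spec.choose_spec.2.2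
  have hder : ∀ s ∈ Ioo a b, HasDerivAt f 0 s := by
    intro s hs
    obtain ⟨i, y, hy⟩ := hc s hs
    have h1 : ∀ᶠ r in 𝓝 s, R.GeoLift c r i y := by
      filter_upwards [hy.1.eventually, hy.2.eventually_nhds] with r h2 h3
      exact ⟨h2, h3⟩
    have h2 : f =ᶠ[𝓝 s] fun r => R.G i (y r) (deriv y r) (deriv y r) := by
      filter_upwards [h1] with r hr
      exact hfs ⟨y, hr, rfl, rfl⟩
    have h3 := hy.1.self_of_nhds
    exact (R.energy_deriv i h3.1 h3.2.1 hy.2.self_of_nhds).congr_of_eventuallyEq h2
  have hconst := isOpen_Ioo.is_const_of_deriv_eq_zero isPreconnected_Ioo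
    (fun s hs => (hder s hs).differentiableAt.differentiableWithinAt)
    (fun s hs => (hder s hs).deriv) ht' ht
  rw [← hfs h, ← hfs h']
  exact hconst

end Pool.Agent.NCR
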