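import Pool.Agent.NCR.MSmooth

/-! # NCR: the exponential map of `M`

PROOF. `ex_smul`: `geo_smul`. `exists_lift_ex`: `geo_smooth` with `P = E n`, `z u = (x, D u)`,
`t₀ = 1`; restrict the lift to `t = 1`. -/

set_option autoImplicit false

open Set Filter Topology
open scoped ContDiff

namespace Pool.Agent.NCR

open Pool.Agent.NCP (E RMetric)
open Pool.Agent.NCQ (GeodesicAt)

variable {n : ℕ} {ι M : Type} [TopologicalSpace M]

/-- exponential map at the point `x` of the chart `i`, with the linear coordinates `D` on the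
tangent space -/
noncomputable def RM.ex (R : RM n ι M) (i : ι) (x : E n) (D : E n →L[ℝ] E n) (u : E n) : M :=
  R.geo i x (D u) 1

variable [T2Space M] [Finite ι]

theorem RM.ex_smul (R : RM n ι M) (i : ι) {x : E n} (hx : x ∈ R.dom) (D : E n →L[ℝ] E n) (u : E n)
    (t : ℝ) : R.ex i x D (t • u) = R.geo i x (D u) t := by
  show R.geo i x (D (t • u)) 1 = R.geo i x (D u) t
  rw [map_smul, R.geo_smul i hx, mul_one]

theorem RM.exists_lift_ex (R : RM n ι M) (i : ι) {x : E n} (hx : x ∈ R.dom) (D : E n →L[ℝ] E n)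
    (u : E n) : ∃ (j : ι) (X : E n → E n), R.Lift (R.ex i x D) u j X := by
  obtain ⟨j, X, hX, -⟩ := R.geo_smooth (P := E n) i (fun u => (x, D u)) (p₀ := u)
    (Eventually.of_forall fun p => ⟨contDiffAt_const.prodMk D.contDiff.contDiffAt, hx⟩) 1
  refine ⟨j, fun w => X (w, 1), ?_⟩
  have hc : Tendsto (fun w : E n => ((w, 1) : E n × ℝ)) (𝓝 u) (𝓝 (u, 1)) :=
    (continuous_id.prodMk continuous_const).tendsto u
  filter_upwards [hc.eventually hX] with w hw
  refine ⟨?_, hw.2.1, hw.2.2⟩
  have h1 : ContDiffAt ℝ ∞ (fun w : E n => ((w, 1) : E n × ℝ)) w :=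
    contDiffAt_id.prodMk contDiffAt_const
  exact ContDiffAt.comp (g := X) w hw.1 h1

end Pool.Agent.NCR
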