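import Pool.Agent.NCR.Ex

/-! # NCR: without conjugate points the exponential map is a local diffeomorphism

PROOF. Let `fderiv ℝ X u w = 0` and `α (s, t) = geo i x (D (u + s • w)) t`. By `geo_smooth`
(`P = ℝ`, `z s = (x, D (u + s • w))`) `α` is a variation.
`JacobiZero α 0`: let `Y` be a lift near `(0, 0)`; `q (Y (s, 0)) = α (s, 0) = q i x` is constant,
so `Y (s, 0)` is constant near `s = 0` (local injectivity, or `Lift.ker_eq` for the restrictions to
`t = 0` and a constant lift).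
`JacobiZero α 1`: let `Y` be a lift near `(0, 1)`; `s ↦ Y (s, 1)` and `s ↦ X (u + s • w)` are lifts of the
same curve at `0` and the second one has derivative `fderiv ℝ X u w = 0`; `Lift.ker_eq`.
`NoConj` gives `JacobiZero α t` for all `t`. Let `Y` be a lift of `α` near `(0, 0)` in the chart `i` with
`Y (0, 0) = x` (`Lift.change`). For `t` near `0`, `fderiv ℝ Y (0, t) (1, 0) = 0` (`Lift.ker_eq` with the
lift from `JacobiZero α t`). Differentiate in `t` at `0` and use the symmetry of the second derivative: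
`∂_s (∂_t Y) (0, 0) = 0`. But `∂_t Y (s, 0) = D (u + s • w)` for `s` near `0`: `Y (s, 0) = x`, and
`t ↦ Y (s, t)` is a geodesic lift of `geo i x (D (u + s • w))` in the chart `i` through `x`, so its
velocity is that of `geo_state` (two lifts in the same chart with the same value agree near,
`Lift.eventually_eq`). So `D w = 0` and `w = 0`. -/

set_option autoImplicit false

open Set Filter Topology
open scoped ContDiff

namespace Pool.Agent.NCR

open Pool.Agent.NCP (E RMetric)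
open Pool.Agent.NCQ (GeodesicAt)

variable {n : ℕ} {ι M : Type} [TopologicalSpace M] [T2Space M] [Finite ι]

omit [T2Space M] [Finite ι] in
/-- restriction of a lift to a smooth curve of parameters -/
private theorem lift_comp {R : RM n ι M} {P Q : Type} [NormedAddCommGroup P] [NormedSpace ℝ P]
    [NormedAddCommGroup Q] [NormedSpace ℝ Q] {α : P → M} {j : ι} {Y : P → E n} {f : Q → P} {q : Q}
    (hf : ContDiff ℝ ∞ f) (h : R.Lift α (f q) j Y) :
    R.Lift (fun r => α (f r)) q j (fun r => Y (f r)) := by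
  have hc : Tendsto f (𝓝 q) (𝓝 (f q)) := hf.continuous.tendsto q
  filter_upwards [hc.eventually h] with r hr
  exact ⟨ContDiffAt.comp (g := Y) r hr.1 hf.contDiffAt, hr.2.1, hr.2.2⟩

private theorem fderiv_curve {n : ℕ} {P : Type} [NormedAddCommGroup P] [NormedSpace ℝ P]
    {Y : P → E n} {f : ℝ → P} {s : ℝ} {f' : P} (hf : HasDerivAt f f' s)
    (hY : ContDiffAt ℝ ∞ Y (f s)) : HasDerivAt (fun r => Y (f r)) (fderiv ℝ Y (f s) f') s := by
  have h5 : HasFDerivAt Y (fderiv ℝ Y (f s)) (f s) := (hY.differentiableAt (by simp)).hasFDerivAt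
  exact h5.comp_hasDerivAt s hf

theorem RM.ex_inj {R : RM n ι M} (hR : R.NoConj) (i : ι) {x : E n} (hx : x ∈ R.dom)
    {D : E n →L[ℝ] E n} (hD : Function.Injective D) (u : E n) (j : ι) (X : E n → E n)
    (h : R.Lift (R.ex i x D) u j X) : Function.Injective (fderiv ℝ X u) := by
  rw [injective_iff_map_eq_zero]
  intro w hw
  -- the variation
  let z : ℝ → E n × E n := fun s => (x, D (u + s • w))
  have hz : ∀ s : ℝ, ContDiffAt ℝ ∞ z s := by
    intro s
    have h1 : ContDiffAt ℝ ∞ (fun s : ℝ => u + s • w) s :=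
      contDiffAt_const.add (contDiffAt_id.smul contDiffAt_const)
    exact contDiffAt_const.prodMk (D.contDiff.contDiffAt.comp s h1)
  let α : ℝ × ℝ → M := fun r => R.geo i (z r.1).1 (z r.1).2 r.2
  have hsm : ∀ p : ℝ × ℝ, ∃ (j : ι) (Y : ℝ × ℝ → E n), R.Lift α p j Y ∧
      ∀ᶠ r in 𝓝 p, GeodesicAt (R.gm j) (fun t => Y (r.1, t)) r.2 := by
    rintro ⟨p, t⟩
    exact R.geo_smooth i z (Eventually.of_forall fun s => ⟨hz s, hx⟩) t
  have hα0 : ∀ s : ℝ, α (s, 0) = R.q i x := fun s => R.geo_zero i hx _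
  have hvar : R.IsVariation α := hsm
  -- curves of parameters
  have hfs : ∀ t : ℝ, ContDiff ℝ ∞ (fun s : ℝ => ((s, t) : ℝ × ℝ)) := fun t =>
    contDiff_id.prodMk contDiff_const
  have hft : ∀ s : ℝ, ContDiff ℝ ∞ (fun t : ℝ => ((s, t) : ℝ × ℝ)) := fun s =>
    contDiff_const.prodMk contDiff_id
  have hds : ∀ s t : ℝ, HasDerivAt (fun s : ℝ => ((s, t) : ℝ × ℝ)) ((1, 0) : ℝ × ℝ) s := fun s t =>
    (hasDerivAt_id s).prodMk (hasDerivAt_const s t)
  have hdt : ∀ s t : ℝ, HasDerivAt (fun t : ℝ => ((s, t) : ℝ × ℝ)) ((0, 1) : ℝ × ℝ) t := fun s t =>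
    (hasDerivAt_const t s).prodMk (hasDerivAt_id t)
  -- lifts of `α (s, 0)` are constant
  have hconst : ∀ (k : ι) (Y : ℝ × ℝ → E n), R.Lift α (0, 0) k Y →
      ∀ᶠ s in 𝓝 (0 : ℝ), Y (s, 0) = Y (0, 0) := by
    intro k Y hY
    have h1 := lift_comp (f := fun s : ℝ => ((s, 0) : ℝ × ℝ)) (q := (0 : ℝ)) (hfs 0) hY
    have h0 := hY.self_of_nhds
    have h2 : R.Lift (fun s : ℝ => α (s, 0)) 0 k (fun _ => Y (0, 0)) := by
      refine Eventually.of_forall fun s => ⟨contDiffAt_const, h0.2.1, ?_⟩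
      show R.q k (Y (0, 0)) = α (s, 0)
      rw [hα0 s, ← hα0 0]
      exact h0.2.2
    exact h1.eventually_eq h2 rfl
  have J0 : R.JacobiZero α 0 := by
    obtain ⟨k, Y, hY, -⟩ := hsm (0, 0)
    refine ⟨k, Y, hY, ?_⟩
    have h1 : (fun s : ℝ => Y (s, 0)) =ᶠ[𝓝 0] fun _ => Y (0, 0) := hconst k Y hY
    rw [h1.deriv_eq, deriv_const]
  have J1 : R.JacobiZero α 1 := by
    obtain ⟨k, Y, hY, -⟩ := hsm (0, 1)
    refine ⟨k, Y, hY, ?_⟩
    have h1 := lift_comp (f := fun s : ℝ => ((s, 1) : ℝ × ℝ)) (q := (0 : ℝ)) (hfs 1) hY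
    have hf : ContDiff ℝ ∞ (fun s : ℝ => u + s • w) :=
      contDiff_const.add (contDiff_id.smul contDiff_const)
    have h' : R.Lift (R.ex i x D) ((fun s : ℝ => u + s • w) 0) j X := by
      show R.Lift (R.ex i x D) (u + (0 : ℝ) • w) j X
      rw [zero_smul, add_zero]
      exact h
    have h2 : R.Lift (fun s : ℝ => α (s, 1)) 0 j (fun s => X (u + s • w)) :=
      lift_comp (f := fun s : ℝ => u + s • w) (q := (0 : ℝ)) hf h'
    have hd : HasDerivAt (fun s : ℝ => u + s • w) w 0 := by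
      have h3 := ((hasDerivAt_id (0 : ℝ)).smul_const w).const_add u
      simpa using h3
    have h4 := fderiv_curve hd h'.self_of_nhds.1
    have h5 : fderiv ℝ (fun s : ℝ => X (u + s • w)) (0 : ℝ) (1 : ℝ) = 0 := by
      have h6 : fderiv ℝ (fun s : ℝ => X (u + s • w)) (0 : ℝ) (1 : ℝ) =
        deriv (fun s : ℝ => X (u + s • w)) (0 : ℝ) := rfl
      rw [h6, h4.deriv]
      show fderiv ℝ X (u + (0 : ℝ) • w) w = 0
      rw [zero_smul, add_zero]
      exact hw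
    exact (h2.ker_eq h1 1).2 h5
  have J := hR α hvar 0 1 zero_ne_one J0 J1
  -- a lift in the chart `i` through `x`
  obtain ⟨k, Y₀, hY₀, -⟩ := hsm (0, 0)
  obtain ⟨θ, -, hθ, -, hY⟩ := hY₀.change (j := i) (y := x) hx (hα0 0).symm
  set Y : ℝ × ℝ → E n := fun r => θ (Y₀ r) with hYdef
  have hYx : Y (0, 0) = x := hθ
  have hc1 : Tendsto (fun t : ℝ => ((0, t) : ℝ × ℝ)) (𝓝 0) (𝓝 (0, 0)) :=
    (hft 0).continuous.tendsto 0
  have hc2 : Tendsto (fun s : ℝ => ((s, 0) : ℝ × ℝ)) (𝓝 0) (𝓝 (0, 0)) :=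
    (hfs 0).continuous.tendsto 0
  have hA : ∀ᶠ t in 𝓝 (0 : ℝ), fderiv ℝ Y (0, t) (1, 0) = 0 := by
    filter_upwards [hc1.eventually hY.eventually] with t ht
    obtain ⟨l, Z, hZ, hZ0⟩ := J t
    have h1 : fderiv ℝ Z (0, t) (1, 0) = 0 := by
      rw [← (fderiv_curve (hds 0 t) hZ.self_of_nhds.1).deriv]
      exact hZ0
    exact (hZ.ker_eq ht (1, 0)).2 h1
  have hB : ∀ᶠ s in 𝓝 (0 : ℝ), fderiv ℝ Y (s, 0) (0, 1) = D (u + s • w) := by
    filter_upwards [hc2.eventually hY.eventually, hconst i Y hY] with s hs hs0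
    have h1 := lift_comp (f := fun t : ℝ => ((s, t) : ℝ × ℝ)) (q := (0 : ℝ)) (hft s) hs
    obtain ⟨y, hy, hy0, hy1⟩ := R.geo_state i hx (D (u + s • w))
    have h2 : R.Lift (fun t : ℝ => α (s, t)) 0 i y := hy.1
    have h3 := h1.eventually_eq h2 (by
      show Y (s, 0) = y 0
      rw [hs0, hYx, hy0])
    have h4 : (fun t : ℝ => Y (s, t)) =ᶠ[𝓝 0] y := h3
    rw [← (fderiv_curve (hdt s 0) hs.self_of_nhds.1).deriv]
    exact h4.deriv_eq.trans hy1
  have hY0 : ContDiffAt ℝ ∞ Y (0, 0) := hY.self_of_nhds.1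
  have hY1 : ContDiffAt ℝ ∞ (fderiv ℝ Y) (0, 0) := hY0.fderiv_right (by simp)
  have hF : HasFDerivAt (fderiv ℝ Y) (fderiv ℝ (fderiv ℝ Y) (0, 0)) ((0, 0) : ℝ × ℝ) :=
    (hY1.differentiableAt (by simp)).hasFDerivAt
  have hC : fderiv ℝ (fderiv ℝ Y) (0, 0) (0, 1) (1, 0) = 0 := by
    have h1 : HasDerivAt (fun t : ℝ => fderiv ℝ Y (0, t))
        (fderiv ℝ (fderiv ℝ Y) (0, 0) (0, 1)) 0 :=
      HasFDerivAt.comp_hasDerivAt (f := fun t : ℝ => ((0, t) : ℝ × ℝ)) (0 : ℝ) hF (hdt 0 0)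
    have h2 := h1.clm_apply (hasDerivAt_const (0 : ℝ) ((1, 0) : ℝ × ℝ))
    have h3 : (fun t : ℝ => fderiv ℝ Y (0, t) (1, 0)) =ᶠ[𝓝 0] fun _ => 0 := hA
    have h4 := h2.deriv
    rw [h3.deriv_eq, deriv_const] at h4
    simpa using h4.symm
  have hE : fderiv ℝ (fderiv ℝ Y) (0, 0) (1, 0) (0, 1) = D w := by
    have h1 : HasDerivAt (fun s : ℝ => fderiv ℝ Y (s, 0))
        (fderiv ℝ (fderiv ℝ Y) (0, 0) (1, 0)) 0 :=
      HasFDerivAt.comp_hasDerivAt (f := fun s : ℝ => ((s, 0) : ℝ × ℝ)) (0 : ℝ) hF (hds 0 0)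
    have h2 := h1.clm_apply (hasDerivAt_const (0 : ℝ) ((0, 1) : ℝ × ℝ))
    have h3 : (fun s : ℝ => fderiv ℝ Y (s, 0) (0, 1)) =ᶠ[𝓝 0] fun s => D (u + s • w) := hB
    have h4 := h2.deriv
    have hd : HasDerivAt (fun s : ℝ => u + s • w) w 0 := by
      have h3 := ((hasDerivAt_id (0 : ℝ)).smul_const w).const_add u
      simpa using h3
    have h5 : HasDerivAt (fun s : ℝ => D (u + s • w)) (D w) 0 :=
      D.hasFDerivAt.comp_hasDerivAt (0 : ℝ) hd
    rw [h3.deriv_eq, h5.deriv] at h4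
    simpa using h4.symm
  have hle : (2 : WithTop ℕ∞) ≤ ∞ := (WithTop.coe_le_coe (a := ⊤) (b := (2 : ℕ∞))).mpr le_top
  have hS : IsSymmSndFDerivAt ℝ Y (0, 0) := hY0.isSymmSndFDerivAt (by simpa using hle)
  have h0 : D w = 0 := by
    rw [← hE, ← hC]
    exact hS (1, 0) (0, 1)
  exact hD (by rw [h0, map_zero])

theorem RM.locDiff_ex {R : RM n ι M} (hR : R.NoConj) (i : ι) {x : E n} (hx : x ∈ R.dom)
    {D : E n →L[ℝ] E n} (hD : Function.Injective D) : R.LocDiff (R.ex i x D) :=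
  ⟨fun u => R.exists_lift_ex i hx D u, fun u j X h => RM.ex_inj hR i hx hD u j X h⟩

end Pool.Agent.NCR
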