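import Pool.Agent.NCR.Fexp
import Pool.Agent.NCR.EaEx
import Pool.Agent.NCR.EaBij

/-! # NCR: the pulled back metric has a fan

PROOF. For every `a` let `h a` be from `exists_fexp` (`IsExpAt f a (h a)`), radial by `radial_pull`, and
`e a` from `exists_ea`; `smooth`, `inj`: `comp_smooth`; `bij`: `ea_bijective`.
`der_zero`: let `(j, X)` be a lift of `f` at `a`. `X ∘ e a` is a lift of `h a` at `0`, so
`t ↦ X (e a (t • w))` is a lift of the curve `h a (t • w)` at `0` with value `X a`; it agrees near `0` with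
the lift of `IsExpAt.state` (`Lift.eventually_eq`), so
`fderiv X a (fderiv (e a) 0 w) = fderiv X a w`; injectivity (`hf.inj`).
`gauss`: the left side is `(pull hh).form u u w` (`comp_smooth`) `= (pull hh).form 0 u w` (`Radial`)
`= (pull hf).form a u w` (`fexp_form_zero`).
`flow`: let `b = e a (s • u)`, `w = deriv (fun r => e a (r • u)) s`. The curves
`c t = h a ((s + t) • u) = f (e a ((s + t) • u))` and `c' t = h b (t • w) = f (e b (t • w))` are geodesics
and have at `0` the same state `(j, X b, fderiv X b w)` for a lift `(j, X)` of `f` at `b`: for `c'` by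
`IsExpAt.state`; for `c`: `t ↦ X (e a ((s + t) • u))` is a lift of `c` at `0` and a `GeoLift` by
`GeoLift.of_lift`. So `c = c'` (`eq_geo` or `geo_eqOn`), and `t ↦ e a ((s + t) • u)` and
`t ↦ e b (t • w)` are lifts of the same curve through `f` with the same value at `0`: they are equal
(`lift_eqOn` with `S = univ`). -/

set_option autoImplicit false

open Set Filter Topology
open scoped ContDiff

namespace Pool.Agent.NCR

open Pool.Agent.NCP (E RMetric)

variable {n : ℕ} {ι M : Type} [TopologicalSpace M]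

/-- a lift of `f` composed with a smooth curve -/
private theorem fanex_lift_comp {R : RM n ι M} {f : E n → M} {y : ℝ → E n} {t : ℝ} {j : ι}
    {X : E n → E n} (hy : ContDiff ℝ ∞ y) (hX : R.Lift f (y t) j X) :
    R.Lift (fun s => f (y s)) t j (fun s => X (y s)) := by
  have hc : Tendsto y (𝓝 t) (𝓝 (y t)) := hy.continuous.tendsto t
  have hX' : ∀ᶠ r in 𝓝 (y t), ContDiffAt ℝ ∞ X r ∧ X r ∈ R.dom ∧ R.q j (X r) = f r := hX
  filter_upwards [hc.eventually hX'] with s hs
  exact ⟨ContDiffAt.comp s (g := X) (f := y) hs.1 hy.contDiffAt, hs.2.1, hs.2.2⟩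

private theorem fanex_deriv_comp {X : E n → E n} {y : ℝ → E n} {t : ℝ}
    (hX : ContDiffAt ℝ ∞ X (y t)) (hy : ContDiff ℝ ∞ y) :
    deriv (fun s => X (y s)) t = fderiv ℝ X (y t) (deriv y t) := by
  have h1 : HasFDerivAt X (fderiv ℝ X (y t)) (y t) :=
    (hX.differentiableAt (by simp)).hasFDerivAt
  have h2 : HasDerivAt y (deriv y t) t :=
    (hy.contDiffAt.differentiableAt (by simp)).hasDerivAt
  exact (h1.comp_hasDerivAt t h2).deriv

theorem RM.exists_fan [T2Space M] [Finite ι] {R : RM n ι M} (hR : R.NoConj) {f : E n → M}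
    (hf : R.LocDiff f) (hrf : Radial (RM.pull hf)) : Nonempty (Fan (RM.pull hf)) := by
  choose h hh using fun a => RM.exists_fexp hR hf a
  have hrh : ∀ a, Radial (RM.pull (hh a).locDiff) := fun a =>
    RM.radial_pull (hh a).locDiff (hh a).isGeo
  choose e he0 he1 he2 using fun a =>
    RM.exists_ea hf hrf (hh a).locDiff (hrh a) (hh a).zero
  have hcomp := fun a => RM.comp_smooth hf (hh a).locDiff (he0 a) (he2 a)
  have hray : ∀ (a u : E n), ContDiff ℝ ∞ (fun r : ℝ => e a (r • u)) := by
    intro a u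
    exact (hcomp a).1.comp (contDiff_id.smul contDiff_const)
  have hderiv0 : ∀ (a u : E n), deriv (fun r : ℝ => e a (r • u)) 0 = fderiv ℝ (e a) 0 u := by
    intro a u
    have h1 : HasFDerivAt (e a) (fderiv ℝ (e a) 0) ((0 : ℝ) • u) := by
      rw [zero_smul]
      exact ((hcomp a).1.contDiffAt.differentiableAt (by simp)).hasFDerivAt
    have h2 : HasDerivAt (fun r : ℝ => r • u) ((1 : ℝ) • u) 0 :=
      (hasDerivAt_id (0 : ℝ)).smul_const u
    have h3 := (h1.comp_hasDerivAt (0 : ℝ) h2).deriv
    rw [one_smul] at h3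
    exact h3
  refine ⟨⟨e, he1, fun a => (hcomp a).1, fun a =>
    RM.ea_bijective hf (hh a).locDiff (hrh a) (he0 a) (he2 a), fun a => (hcomp a).2.1, ?_, ?_, ?_⟩⟩
  · intro a w
    obtain ⟨j, X, hX⟩ := hf.lift a
    obtain ⟨y, hyL, hy0, hy1⟩ := (hh a).state j X hX w
    have e0 : (fun r : ℝ => e a (r • w)) 0 = a := by
      simp only [zero_smul, he1]
    have hX' : R.Lift f ((fun r : ℝ => e a (r • w)) 0) j X := by rw [e0]; exact hX
    have hL := fanex_lift_comp (hray a w) hX'
    have hL' : R.Lift (fun s : ℝ => h a (s • w)) 0 j (fun s => X (e a (s • w))) :=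
      hL.congr (Eventually.of_forall fun s => (he2 a _).symm) (Eventually.of_forall fun s => rfl)
    have heq : ∀ᶠ s in 𝓝 (0 : ℝ), X (e a (s • w)) = y s :=
      hL'.eventually_eq hyL.1 (by simp only [zero_smul, he1]; exact hy0.symm)
    have hd : deriv (fun s : ℝ => X (e a (s • w))) 0 = deriv y 0 :=
      Filter.EventuallyEq.deriv_eq heq
    have hd2 := fanex_deriv_comp (X := X) (y := fun r : ℝ => e a (r • w)) (t := 0)
      hX'.self_of_nhds.1 (hray a w)
    have e0' : e a ((0 : ℝ) • w) = a := e0
    rw [e0', hderiv0] at hd2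
    have h4 : fderiv ℝ X a (fderiv ℝ (e a) 0 w) = fderiv ℝ X a w := by
      rw [← hd2, hd, hy1]
    exact hf.inj a j X hX h4
  · intro a u w
    rw [(hcomp a).2.2 u u w, hrh a u w, RM.fexp_form_zero hf (hh a)]
  · intro a u s t
    set b := e a (s • u) with hb
    set w := deriv (fun r : ℝ => e a (r • u)) s with hw
    obtain ⟨j, X, hX⟩ := hf.lift b
    have hX' : R.Lift f ((fun r : ℝ => e a (r • u)) s) j X := hX
    have hL := fanex_lift_comp (hray a u) hX'
    have hL' : R.Lift (fun r : ℝ => h a (r • u)) s j (fun r => X (e a (r • u))) :=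
      hL.congr (Eventually.of_forall fun s => (he2 a _).symm) (Eventually.of_forall fun s => rfl)
    have hG := RM.GeoLift.of_lift ((hh a).isGeo u s) hL'
    have hS1 : R.State (fun r : ℝ => h a (r • u)) s j (X b) (fderiv ℝ X b w) :=
      ⟨_, hG, rfl, fanex_deriv_comp (X := X) (y := fun r : ℝ => e a (r • u)) (t := s)
        hX'.self_of_nhds.1 (hray a u)⟩
    have hS2 := (hh b).state j X hX w
    have hE : ∀ τ : ℝ, h a ((s + τ) • u) = h b (τ • w) := by
      intro τ
      have h1 := RM.eq_geo ((hh a).isGeo u) hS1 τ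
      have h2 := RM.eq_geo ((hh b).isGeo w) hS2 τ
      rw [zero_add] at h2
      exact h1.trans h2.symm
    have hc1 : Continuous (fun τ : ℝ => e a ((s + τ) • u)) :=
      (he0 a).comp ((continuous_const.add continuous_id).smul continuous_const)
    have hc2 : Continuous (fun τ : ℝ => e b (τ • w)) :=
      (he0 b).comp (continuous_id.smul continuous_const)
    have hfin := lift_eqOn hf.isLocalHomeomorph (S := univ) isPreconnected_univ
      (y := fun τ : ℝ => e a ((s + τ) • u)) (y' := fun τ : ℝ => e b (τ • w))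
      hc1.continuousOn hc2.continuousOn
      (fun τ _ => by
        show f (e a ((s + τ) • u)) = f (e b (τ • w))
        rw [he2, he2, hE]) (t₀ := 0) (mem_univ _)
      (by simp only [add_zero, zero_smul, he1]; exact hb.symm)
    exact hfin (mem_univ t)

end Pool.Agent.NCR
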