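import Pool.Agent.NCR.FanPull

/-! # NCR: the lines of a fan

PROOF. `form_deriv`: `deriv (fun r => e a (r • u)) s = fderiv (e a) (s • u) u`; `F.gauss` for `s • u` and
`w = u`, divide by `s`; for `s = 0` use `F.zero`, `F.der_zero`. `dist_line`: `w.l.o.g.` `s ≤ t`;
`F.flow a u s (t - s)` and `F.dist_e` at `b = e a (s • u)`, homogeneity of `nrm` and `form_deriv`.
`eq_of_line`: two lines which agree near one time agree: position and velocity agree at this time
and `F.flow` determines both for all times. -/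

set_option autoImplicit false

open Set Filter Topology
open scoped ContDiff

namespace Pool.Agent.NCR

open Pool.Agent.NCP (E RMetric)

variable {n : ℕ} {g : RMetric n}

theorem fanLine_hasDerivAt (F : Fan g) (a u : E n) (s : ℝ) :
    HasDerivAt (fun r : ℝ => F.e a (r • u)) (fderiv ℝ (F.e a) (s • u) u) s := by
  have h1 : HasFDerivAt (F.e a) (fderiv ℝ (F.e a) (s • u)) (s • u) :=
    ((F.smooth a).differentiable (by simp) _).hasFDerivAt
  have h2 : HasDerivAt (fun r : ℝ => r • u) u s := by
    simpa using (hasDerivAt_id s).smul_const u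
  exact h1.comp_hasDerivAt s h2

theorem fanLine_form_smul (g : RMetric n) (a u v : E n) (s t : ℝ) :
    g.form a (s • u) (t • v) = s * (t * g.form a u v) := by
  rw [map_smul, map_smul, FunLike.coe_smul, Pi.smul_apply, smul_eq_mul, smul_eq_mul]
  ring

theorem Fan.form_deriv (F : Fan g) (a u : E n) (s : ℝ) :
    g.form (F.e a (s • u)) (deriv (fun r : ℝ => F.e a (r • u)) s)
      (deriv (fun r : ℝ => F.e a (r • u)) s) = g.form a u u := by
  rw [(fanLine_hasDerivAt F a u s).deriv]
  by_cases hs : s = 0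
  · subst hs
    simp only [zero_smul, F.zero, F.der_zero]
  · have h := F.gauss a (s • u) u
    have h1 := fanLine_form_smul g a u u s 1
    have h2 := fanLine_form_smul g (F.e a (s • u)) (fderiv ℝ (F.e a) (s • u) u)
      (fderiv ℝ (F.e a) (s • u) u) s 1
    rw [one_smul, one_mul] at h1 h2
    rw [map_smul, h1, h2] at h
    exact mul_left_cancel₀ hs h

theorem fanLine_nrm_smul (g : RMetric n) (a u : E n) (t : ℝ) : nrm g a (t • u) = |t| * nrm g a u := by
  unfold nrm
  rw [fanLine_form_smul, ← mul_assoc, Real.sqrt_mul (mul_self_nonneg _), Real.sqrt_mul_self_eq_abs]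

theorem Fan.dist_line (F : Fan g) (a u : E n) (s t : ℝ) :
    g.dist (F.e a (s • u)) (F.e a (t • u)) = nrm g a u * |s - t| := by
  have h := F.dist_e (F.e a (s • u)) ((t - s) • deriv (fun r : ℝ => F.e a (r • u)) s)
  have hst : s + (t - s) = t := by ring
  have hn : nrm g (F.e a (s • u)) (deriv (fun r : ℝ => F.e a (r • u)) s) = nrm g a u := by
    unfold nrm
    rw [F.form_deriv]
  rw [← F.flow a u s (t - s), fanLine_nrm_smul, hst, hn] at h
  rw [h, abs_sub_comm, mul_comm]

/-- two lines (with shifted parameters) which agree near one time agree for all times -/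
theorem Fan.eq_of_line (F : Fan g) {a a' u u' : E n} {s s' t₀ : ℝ}
    (h : ∀ᶠ t in 𝓝 t₀, F.e a ((s + t) • u) = F.e a' ((s' + t) • u')) (t : ℝ) :
    F.e a ((s + t) • u) = F.e a' ((s' + t) • u') := by
  have hp : F.e a ((s + t₀) • u) = F.e a' ((s' + t₀) • u') := h.self_of_nhds
  have h1 : deriv (fun t : ℝ => F.e a ((s + t) • u)) t₀ =
      deriv (fun t : ℝ => F.e a' ((s' + t) • u')) t₀ := Filter.EventuallyEq.deriv_eq h
  have h2 : HasDerivAt (fun t : ℝ => F.e a ((s + t) • u))
      (fderiv ℝ (F.e a) ((s + t₀) • u) u) t₀ :=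
    HasDerivAt.comp_const_add s t₀ (fanLine_hasDerivAt F a u (s + t₀))
  have h3 : HasDerivAt (fun t : ℝ => F.e a' ((s' + t) • u'))
      (fderiv ℝ (F.e a') ((s' + t₀) • u') u') t₀ :=
    HasDerivAt.comp_const_add s' t₀ (fanLine_hasDerivAt F a' u' (s' + t₀))
  have hd : deriv (fun r : ℝ => F.e a (r • u)) (s + t₀) =
      deriv (fun r : ℝ => F.e a' (r • u')) (s' + t₀) := by
    rw [(fanLine_hasDerivAt F a u (s + t₀)).deriv, (fanLine_hasDerivAt F a' u' (s' + t₀)).deriv,
      ← h2.deriv, ← h3.deriv, h1]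
  have e1 : s + t = (s + t₀) + (t - t₀) := by ring
  have e2 : s' + t = (s' + t₀) + (t - t₀) := by ring
  rw [e1, e2, F.flow a u (s + t₀) (t - t₀), F.flow a' u' (s' + t₀) (t - t₀), hp, hd]

end Pool.Agent.NCR
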