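import Pool.Agent.NCR.FanTri

/-! # NCR: a metric with a fan has no conjugate points

PROOF. Lines are geodesics with `v = nrm g a u` by `dist_line`. (A) Let `c` be a geodesic with speed `v`.
If `v = 0`, `c` is locally constant (`RMetric.eq_of_dist_eq_zero`, `NCP/RBound`), so constant, so `c t = e (c 0) (t • 0)`. If
`v > 0`: let `t₀ : ℝ`, `ε` from `IsGeodesic`, `t₀ - ε < s₀ < t₀ < s₁ < t₀ + ε`; for `s ∈ [s₀, s₁]` we have
`dist (c s₀) (c s) + dist (c s) (c s₁) = dist (c s₀) (c s₁)`, so by `between`, with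
`c s₁ = e (c s₀) u`, `c s = e (c s₀) (((s - s₀) / (s₁ - s₀)) • u)`: near every `t₀`, `c` agrees with a line
`t ↦ e b ((σ + t) • w)` for all `t` in a neighbourhood. Fix the line `L` for `t₀ = 0`. The set of `t` such
that `c = L` near `t` is open and closed (`eq_of_line`: at a limit point the local line agrees with
`L` near some time, so everywhere), so `c = L`: there are `a, u, σ` with `c t = e a ((σ + t) • u)` for all
`t`; by `flow`, `c t = e (c 0) (t • u')` for some `u'`.
(B) `minimising`: `c t = e (c 0) (t • u')` for all `t`, so `dist_line` gives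
`dist (c s) (c t) = nrm g (c 0) u' * |s - t|`, and comparison with the definition of geodesic for
close `s ≠ t` gives `nrm = v`.
(C) `unique`: existence: `q = e p u`, `c t = e p (t • u)`. Uniqueness: `c t = e p (t • u')` with
`e p u' = q`, so `u' = u` by `F.bij`. -/

set_option autoImplicit false

open Set Filter Topology
open scoped ContDiff

namespace Pool.Agent.NCR

open Pool.Agent.NCP (E RMetric)

variable {n : ℕ} {g : RMetric n}

theorem Fan.local_line (F : Fan g) {c : ℝ → E n} {v : ℝ} (hc : g.IsGeodesic c v) (hv : 0 < v)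
    (t₀ : ℝ) : ∃ (a w : E n) (σ : ℝ), ∀ᶠ t in 𝓝 t₀, c t = F.e a ((σ + t) • w) := by
  obtain ⟨ε, hε, h⟩ := hc.2 t₀
  have m0 : t₀ - ε / 2 ∈ Ioo (t₀ - ε) (t₀ + ε) := ⟨by linarith, by linarith⟩
  have m1 : t₀ + ε / 2 ∈ Ioo (t₀ - ε) (t₀ + ε) := ⟨by linarith, by linarith⟩
  obtain ⟨u, hu⟩ := (F.bij (c (t₀ - ε / 2))).2 (c (t₀ + ε / 2))
  have h01 : g.dist (c (t₀ - ε / 2)) (c (t₀ + ε / 2)) = v * ε := by
    rw [h _ m0 _ m1]
    congr 1
    rw [abs_of_nonpos (by linarith)]
    ring
  have hn : nrm g (c (t₀ - ε / 2)) u = v * ε := by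
    rw [← F.dist_e, hu, h01]
  have hu0 : u ≠ 0 := by
    rintro rfl
    rw [F.zero] at hu
    rw [← hu, g.dist_self] at h01
    have := mul_pos hv hε
    linarith
  refine ⟨c (t₀ - ε / 2), (1 / ε) • u, -(t₀ - ε / 2), ?_⟩
  have hnh : Ioo (t₀ - ε / 2) (t₀ + ε / 2) ∈ 𝓝 t₀ := Ioo_mem_nhds (by linarith) (by linarith)
  filter_upwards [hnh] with t ht
  have mt : t ∈ Ioo (t₀ - ε) (t₀ + ε) := ⟨by linarith [ht.1], by linarith [ht.2]⟩
  have e1 : g.dist (c (t₀ - ε / 2)) (c t) = v * (t - (t₀ - ε / 2)) := by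
    rw [h _ m0 _ mt]
    congr 1
    rw [abs_of_nonpos (by linarith [ht.1])]
    ring
  have e2 : g.dist (c t) (c (t₀ + ε / 2)) = v * (t₀ + ε / 2 - t) := by
    rw [h _ mt _ m1]
    congr 1
    rw [abs_of_nonpos (by linarith [ht.2])]
    ring
  have hb := F.between (a := c (t₀ - ε / 2)) (u := u) (x := c t)
    (by rw [hu, h01, e1, e2]; ring) hu0
  rw [hb, e1, hn, smul_smul]
  congr 2
  field_simp
  ring

theorem Fan.geodesic_eq_line (F : Fan g) {c : ℝ → E n} {v : ℝ} (hc : g.IsGeodesic c v) :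
    ∃ u : E n, ∀ t : ℝ, c t = F.e (c 0) (t • u) := by
  rcases hc.1.eq_or_lt with hv | hv
  · refine ⟨0, fun t => ?_⟩
    rw [smul_zero, F.zero]
    have hl : IsLocallyConstant c := by
      rw [IsLocallyConstant.iff_eventually_eq]
      intro t
      obtain ⟨ε, hε, h⟩ := hc.2 t
      filter_upwards [Ioo_mem_nhds (show t - ε < t by linarith) (show t < t + ε by linarith)]
        with s hs
      apply g.eq_of_dist_eq_zero
      rw [h s hs t ⟨by linarith, by linarith⟩, ← hv, zero_mul]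
    exact hl.apply_eq_of_isPreconnected isPreconnected_univ (mem_univ _) (mem_univ _)
  · obtain ⟨a, w, σ, h0⟩ := F.local_line hc hv 0
    let S : Set ℝ := {t | ∀ᶠ r in 𝓝 t, c r = F.e a ((σ + r) • w)}
    have hSo : IsOpen S := by
      rw [isOpen_iff_mem_nhds]
      intro t ht
      exact eventually_eventually_nhds.2 ht
    have hSc : IsClosed S := by
      rw [← closure_subset_iff_isClosed]
      intro t ht
      obtain ⟨a', w', σ', h'⟩ := F.local_line hc hv t
      have h'' := eventually_eventually_nhds.2 h'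
      obtain ⟨s, hs, hsS⟩ := mem_closure_iff_nhds.1 ht _ h''
      have hs1 : ∀ᶠ r in 𝓝 s, c r = F.e a' ((σ' + r) • w') := hs
      have hs2 : ∀ᶠ r in 𝓝 s, c r = F.e a ((σ + r) • w) := hsS
      have h3 := F.eq_of_line (a := a) (a' := a') (u := w) (u' := w') (s := σ) (s' := σ')
        (t₀ := s) (by
          filter_upwards [hs1, hs2] with r hr hr'
          rw [← hr, ← hr'])
      show ∀ᶠ r in 𝓝 t, c r = F.e a ((σ + r) • w)
      filter_upwards [h'] with r hr
      rw [hr, h3]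
    have hS : S = univ := IsClopen.eq_univ ⟨hSc, hSo⟩ ⟨0, h0⟩
    have hall : ∀ t, c t = F.e a ((σ + t) • w) := by
      intro t
      have h4 : t ∈ S := by rw [hS]; exact mem_univ _
      have h5 : ∀ᶠ r in 𝓝 t, c r = F.e a ((σ + r) • w) := h4
      exact h5.self_of_nhds
    refine ⟨deriv (fun r : ℝ => F.e a (r • w)) σ, fun t => ?_⟩
    rw [hall t, F.flow a w σ t, hall 0, add_zero]

theorem Fan.noConjugatePoints (F : Fan g) : g.NoConjugatePoints := by
  have hline : ∀ (p u : E n), g.IsGeodesic (fun t : ℝ => F.e p (t • u)) (nrm g p u) := by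
    intro p u
    refine ⟨Real.sqrt_nonneg _, fun t => ⟨1, one_pos, fun s _ s' _ => ?_⟩⟩
    exact F.dist_line p u s s'
  refine ⟨?_, ?_⟩
  · intro c v hc s t
    obtain ⟨u, hu⟩ := F.geodesic_eq_line hc
    have hd : ∀ s t, g.dist (c s) (c t) = nrm g (c 0) u * |s - t| := by
      intro s t
      rw [hu s, hu t, F.dist_line]
    obtain ⟨ε, hε, h⟩ := hc.2 0
    have h1 := h 0 ⟨by linarith, by linarith⟩ (ε / 2) ⟨by linarith, by linarith⟩
    rw [hd] at h1
    have h2 : |0 - ε / 2| ≠ 0 := by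
      have h6 : (0 : ℝ) - ε / 2 < 0 := by linarith
      exact abs_ne_zero.2 h6.ne
    have h3 : nrm g (c 0) u = v := mul_right_cancel₀ h2 h1
    rw [hd, h3]
  · intro p q hpq
    obtain ⟨u, hu⟩ := (F.bij p).2 q
    refine ⟨fun t : ℝ => F.e p (t • u), ⟨⟨nrm g p u, hline p u⟩, ?_, ?_⟩, ?_⟩
    · simp only [zero_smul, F.zero]
    · simp only [one_smul, hu]
    · rintro c' ⟨⟨v', hv'⟩, h0, h1⟩
      obtain ⟨u', hu'⟩ := F.geodesic_eq_line hv'
      have h2 : u' = u := by
        apply (F.bij p).1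
        rw [hu, ← h1, hu' 1, one_smul, h0]
      funext t
      show c' t = F.e p (t • u)
      rw [hu' t, h0, h2]

end Pool.Agent.NCR
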