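import Pool.Agent.NCR.RadialB
import Pool.Agent.NCP.RLen

/-! # NCR: the metric in normal coordinates at `a`

PROOF. `exists_metric`: `form u = (g.form (e a u)).bilinearComp (fderiv ℝ (e a) u) (fderiv ℝ (e a) u)`;
positive by `F.inj`. `radial`: `F.gauss` for the left side and for `u = 0` the right side is
`g.form (e a 0) (D u) (D w) = g.form a u w` (`F.zero`, `F.der_zero`). `nrm_metric`: the same.
`dist_metric`: `e a` is a diffeomorphism (bijective, smooth with injective derivative: the inverse is
smooth by the inverse function theorem), it maps `C¹` curves to `C¹` curves of the same length in both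
directions. `dist_e`: `g.dist a (e a u) = g.dist (e a 0) (e a u) = (metric a).dist 0 u = nrm ..`
(`radial_dist`). -/

set_option autoImplicit false

open Set Filter Topology
open scoped ContDiff

namespace Pool.Agent.NCR

open Pool.Agent.NCP (E RMetric)

variable {n : ℕ} {g : RMetric n}

section general

variable {V : Type*} [NormedAddCommGroup V] [NormedSpace ℝ V]
variable {W : Type*} [NormedAddCommGroup W] [NormedSpace ℝ W]

private theorem flip_smooth' : ContDiff ℝ ∞ (fun L : V →L[ℝ] V →L[ℝ] W => L.flip) := by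
  have h : IsBoundedLinearMap ℝ (fun L : V →L[ℝ] V →L[ℝ] W => L.flip) := by
    refine ⟨⟨fun a b => rfl, fun a b => rfl⟩, 1, one_pos, fun L => ?_⟩
    rw [ContinuousLinearMap.opNorm_flip]
    simp
  exact h.contDiff

private theorem pull_smooth {B : V → V →L[ℝ] V →L[ℝ] ℝ} {A : V → V →L[ℝ] V}
    (hB : ContDiff ℝ ∞ B) (hA : ContDiff ℝ ∞ A) :
    ContDiff ℝ ∞ (fun x => (((B x).comp (A x)).flip.comp (A x)).flip) := by
  have h1 : ContDiff ℝ ∞ (fun x => (B x).comp (A x)) := hB.clm_comp hA
  have h2 : ContDiff ℝ ∞ (fun x => ((B x).comp (A x)).flip) := flip_smooth'.comp h1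
  have h3 : ContDiff ℝ ∞ (fun x => ((B x).comp (A x)).flip.comp (A x)) := h2.clm_comp hA
  exact flip_smooth'.comp h3

end general

theorem Fan.exists_metric (F : Fan g) (a : E n) : ∃ g' : RMetric n, ∀ u w w',
    g'.form u w w' = g.form (F.e a u) (fderiv ℝ (F.e a) u w) (fderiv ℝ (F.e a) u w') := by
  refine ⟨⟨fun x => (((g.form (F.e a x)).comp (fderiv ℝ (F.e a) x)).flip.comp
    (fderiv ℝ (F.e a) x)).flip, ?_, ?_, ?_⟩, fun u w w' => rfl⟩
  · exact pull_smooth (B := fun x => g.form (F.e a x)) (g.smooth.comp (F.smooth a))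
      ((F.smooth a).fderiv_right (by simp))
  · intro x v w
    exact g.symm _ _ _
  · intro x v hv
    refine g.pos _ _ fun h => hv (F.inj a x ?_)
    rw [map_zero]
    exact h

/-- the metric in normal coordinates at `a` -/
noncomputable def Fan.metric (F : Fan g) (a : E n) : RMetric n := (F.exists_metric a).choose

theorem Fan.metric_form (F : Fan g) (a u w w' : E n) : (F.metric a).form u w w' =
    g.form (F.e a u) (fderiv ℝ (F.e a) u w) (fderiv ℝ (F.e a) u w') :=
  (F.exists_metric a).choose_spec u w w'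

theorem Fan.radial (F : Fan g) (a : E n) : Radial (F.metric a) := by
  intro u w
  rw [F.metric_form, F.metric_form, F.gauss, F.zero, F.der_zero, F.der_zero]

theorem Fan.nrm_metric (F : Fan g) (a u : E n) : nrm (F.metric a) 0 u = nrm g a u := by
  unfold nrm
  rw [F.metric_form, F.zero, F.der_zero]

private theorem Fan.speed_metric (F : Fan g) (a : E n) {c : ℝ → E n} (hc : ContDiff ℝ 1 c)
    (t : ℝ) : (F.metric a).speed c t = g.speed (fun s => F.e a (c s)) t := by
  unfold RMetric.speed
  rw [F.metric_form]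
  have h1 : HasDerivAt c (deriv c t) t := (hc.differentiable (by norm_num) t).hasDerivAt
  have h2 : HasFDerivAt (F.e a) (fderiv ℝ (F.e a) (c t)) (c t) :=
    ((F.smooth a).differentiable (by simp) _).hasFDerivAt
  have h3 : deriv (fun s => F.e a (c s)) t = fderiv ℝ (F.e a) (c t) (deriv c t) :=
    (h2.comp_hasDerivAt t h1).deriv
  rw [h3]

private theorem Fan.exists_equiv (F : Fan g) (a u : E n) :
    ∃ f' : E n ≃L[ℝ] E n, (f' : E n →L[ℝ] E n) = fderiv ℝ (F.e a) u := by
  refine ⟨(LinearEquiv.ofInjectiveEndo (fderiv ℝ (F.e a) u : E n →ₗ[ℝ] E n)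
    (F.inj a u)).toContinuousLinearEquiv, ?_⟩
  ext w
  rfl

private theorem Fan.exists_inverse (F : Fan g) (a : E n) :
    ∃ φ : E n → E n, ContDiff ℝ ∞ φ ∧ (∀ x, φ (F.e a x) = x) ∧ ∀ x, F.e a (φ x) = x := by
  choose f' hf' using F.exists_equiv a
  have hs : ∀ x, HasStrictFDerivAt (F.e a) (f' x : E n →L[ℝ] E n) x := by
    intro x
    rw [hf']
    exact (F.smooth a).contDiffAt.hasStrictFDerivAt (by simp)
  have hopen : IsOpenMap (F.e a) := isOpenMap_of_hasStrictFDerivAt_equiv hs
  let h : E n ≃ₜ E n := (Equiv.ofBijective (F.e a) (F.bij a)).toHomeomorphOfContinuousOpen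
    (F.smooth a).continuous hopen
  refine ⟨h.symm, ?_, fun x => h.symm_apply_apply x, fun x => h.apply_symm_apply x⟩
  exact h.contDiff_symm (f₀' := f') (fun x => (hs x).hasFDerivAt) (F.smooth a)

theorem Fan.dist_metric (F : Fan g) (a x y : E n) :
    (F.metric a).dist x y = g.dist (F.e a x) (F.e a y) := by
  obtain ⟨φ, hφ, hl, hr⟩ := F.exists_inverse a
  have hlen : ∀ c : ℝ → E n, ContDiff ℝ 1 c →
      (F.metric a).length c = g.length (fun s => F.e a (c s)) := by
    intro c hc
    unfold RMetric.length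
    congr 1
    funext t
    exact F.speed_metric a hc t
  unfold RMetric.dist
  congr 1
  ext L
  constructor
  · rintro ⟨c, hc, h0, h1, rfl⟩
    refine ⟨fun s => F.e a (c s), ((F.smooth a).of_le (by simp)).comp hc, ?_, ?_, hlen c hc⟩
    · simp only [h0]
    · simp only [h1]
  · rintro ⟨c, hc, h0, h1, rfl⟩
    have hc' : ContDiff ℝ 1 (fun s => φ (c s)) := (hφ.of_le (by simp)).comp hc
    refine ⟨fun s => φ (c s), hc', ?_, ?_, ?_⟩
    · simp only [h0, hl]
    · simp only [h1, hl]
    · rw [hlen _ hc']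
      congr 1
      funext s
      rw [hr]

theorem Fan.dist_e (F : Fan g) (a u : E n) : g.dist a (F.e a u) = nrm g a u := by
  have h1 := F.dist_metric a 0 u
  rw [F.zero, radial_dist (F.radial a), F.nrm_metric] at h1
  exact h1.symm

end Pool.Agent.NCR
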