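import Pool.Agent.NCR.RadialB

/-! # NCR: curves of unit speed which realise the distance to the centre of a radial metric

PROOF. On `(0, T)`: differentiate `g₀ (y, y) = (ℓ + t) ^ 2`: `g₀ (y, y') = ℓ + t`, which is
`g (y) (y, y')` (`Radial`); also `g (y) (y, y) = g₀ (y, y) = (ℓ + t) ^ 2` and `g (y) (y', y') = 1`. So
`g (y) (z, z) = 0` for `z = y' - (ℓ + t)⁻¹ y`, `z = 0`. So `(ℓ + t)⁻¹ • y t` has derivative `0` on
`(0, T)` and is continuous on `[0, T]`, hence constant. -/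

set_option autoImplicit false

open Set Filter Topology
open scoped ContDiff

namespace Pool.Agent.NCR

open Pool.Agent.NCP (E RMetric)

variable {n : ℕ}

theorem radial_eq {g : RMetric n} (hg : Radial g) {y : ℝ → E n} {ℓ T : ℝ} (hℓ : 0 < ℓ)
    (hT : 0 ≤ T) (hc : ContinuousOn y (Icc 0 T))
    (hd : ∀ t ∈ Ioo 0 T, DifferentiableAt ℝ y t ∧ g.form (y t) (deriv y t) (deriv y t) = 1)
    (hn : ∀ t ∈ Icc 0 T, nrm g 0 (y t) = ℓ + t) : y T = ((ℓ + T) / ℓ) • y 0 := by
  have hnn : ∀ x v, 0 ≤ g.form x v v := by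
    intro x v
    rcases eq_or_ne v 0 with rfl | hv
    · simp
    · exact (g.pos x v hv).le
  have hN : ∀ t ∈ Icc 0 T, g.form 0 (y t) (y t) = (ℓ + t) ^ 2 := by
    intro t ht
    rw [← hn t ht, nrm, Real.sq_sqrt (hnn _ _)]
  -- the velocity
  have hv : ∀ t ∈ Ioo 0 T, HasDerivAt y ((ℓ + t)⁻¹ • y t) t := by
    intro t ht
    obtain ⟨h1, h2⟩ := hd t ht
    have hy : HasDerivAt y (deriv y t) t := h1.hasDerivAt
    have hpos : 0 < ℓ + t := by linarith [ht.1]
    have hB : HasDerivAt (fun s => g.form 0 (y s) (y s))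
        (g.form 0 (deriv y t) (y t) + g.form 0 (y t) (deriv y t)) t := by
      have k1 : HasDerivAt (fun s => g.form 0 (y s)) (g.form 0 (deriv y t)) t :=
        (g.form 0).hasFDerivAt.comp_hasDerivAt t hy
      exact k1.clm_apply hy
    have hB' : HasDerivAt (fun s => g.form 0 (y s) (y s)) (2 * (ℓ + t)) t := by
      have k1 : HasDerivAt (fun s : ℝ => (ℓ + s) ^ 2) (2 * (ℓ + t)) t := by
        refine (((hasDerivAt_id t).const_add ℓ).fun_pow 2).congr_deriv ?_
        simp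
      refine k1.congr_of_eventuallyEq ?_
      filter_upwards [Ioo_mem_nhds ht.1 ht.2] with s hs
      exact hN s ⟨hs.1.le, hs.2.le⟩
    have e1 := hB.unique hB'
    have e2 : g.form 0 (y t) (deriv y t) = ℓ + t := by
      rw [g.symm 0 (deriv y t) (y t)] at e1
      linarith
    have e3 : g.form (y t) (y t) (deriv y t) = ℓ + t := by rw [hg, e2]
    have e3' : g.form (y t) (deriv y t) (y t) = ℓ + t := by rw [g.symm, e3]
    have e4 : g.form (y t) (y t) (y t) = (ℓ + t) ^ 2 := by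
      rw [hg, hN t ⟨ht.1.le, ht.2.le⟩]
    have e5 : g.form (y t) (deriv y t - (ℓ + t)⁻¹ • y t) (deriv y t - (ℓ + t)⁻¹ • y t) = 0 := by
      simp only [map_sub, map_smul, ContinuousLinearMap.sub_apply, ContinuousLinearMap.smul_apply,
        smul_eq_mul, e3, e3', e4, h2]
      field_simp
      ring
    have e6 : deriv y t - (ℓ + t)⁻¹ • y t = 0 := by
      by_contra hne
      exact absurd e5 (g.pos _ _ hne).ne'
    rw [← sub_eq_zero.mp e6]
    exact hy
  rcases hT.eq_or_lt with rfl | hT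
  · simp [hℓ.ne']
  set w : ℝ → E n := fun s => (ℓ + s)⁻¹ • y s with hw
  have hwc : ContinuousOn w (Icc 0 T) := by
    have k1 : ContinuousOn (fun s : ℝ => (ℓ + s)⁻¹) (Icc 0 T) := by
      refine ContinuousOn.inv₀ (by fun_prop) ?_
      intro s hs
      have := hs.1
      positivity
    exact k1.smul hc
  have hwd : ∀ s ∈ Ioo 0 T, HasDerivAt w 0 s := by
    intro s hs
    have hpos : 0 < ℓ + s := by linarith [hs.1]
    have k1 : HasDerivAt (fun s : ℝ => (ℓ + s)⁻¹) (-1 / (ℓ + s) ^ 2) s :=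
      ((hasDerivAt_id s).const_add ℓ).inv hpos.ne'
    have k2 := k1.smul (hv s hs)
    refine k2.congr_deriv ?_
    rw [smul_smul, ← add_smul]
    have : (ℓ + s)⁻¹ * (ℓ + s)⁻¹ + -1 / (ℓ + s) ^ 2 = 0 := by
      field_simp
      ring
    rw [this, zero_smul]
  have hw1 : ∀ s ∈ Ioo 0 T, w T = w s := by
    intro s hs
    refine constant_of_has_deriv_right_zero (hwc.mono (Icc_subset_Icc_left hs.1.le)) ?_ T
      ⟨hs.2.le, le_rfl⟩
    intro r hr
    exact (hwd r ⟨hs.1.trans_le hr.1, hr.2⟩).hasDerivWithinAt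
  have hw2 : Tendsto w (𝓝[Ioo 0 T] 0) (𝓝 (w 0)) :=
    ((hwc 0 ⟨le_rfl, hT.le⟩).mono Ioo_subset_Icc_self)
  have hw3 : Tendsto w (𝓝[Ioo 0 T] 0) (𝓝 (w T)) := by
    refine tendsto_const_nhds.congr' ?_
    filter_upwards [self_mem_nhdsWithin] with s hs
    exact hw1 s hs
  have hne : (𝓝[Ioo 0 T] (0 : ℝ)).NeBot := by
    rw [← mem_closure_iff_nhdsWithin_neBot, closure_Ioo hT.ne]
    exact ⟨le_rfl, hT.le⟩
  have hw4 : w T = w 0 := tendsto_nhds_unique hw3 hw2
  simp only [hw, add_zero] at hw4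
  have hpos : ℓ + T ≠ 0 := by positivity
  calc y T = (ℓ + T) • ((ℓ + T)⁻¹ • y T) := by rw [smul_smul, mul_inv_cancel₀ hpos, one_smul]
    _ = ((ℓ + T) / ℓ) • y 0 := by rw [hw4, smul_smul, div_eq_mul_inv]

end Pool.Agent.NCR
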