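import Pool.Agent.NCR.FanLine
import Pool.Agent.NCR.RadialEq
import Pool.Agent.NCP.RBound
import Pool.Agent.NCP.RCat

/-! # NCR: equality in the triangle inequality

PROOF. Let `b = e a u`, `ℓ = g.dist a x`, `T = g.dist x b`; `ℓ + T = g.dist a b = nrm g a u`
(`dist_e`). If `ℓ = 0` then `x = a` (`RMetric.eq_of_dist_eq_zero`, `NCP/RBound`) and `λ = 0` works
(`F.zero`). If `T = 0` then `x = b`, `λ = 1`. Otherwise let `x = e a w₁`, `b = e x w₂`, `nrm g a w₁ = ℓ`,
`nrm g x w₂ = T`, `L t = e x ((t / T) • w₂)`: unit speed from `x` to `b` (`form_deriv`), and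
`g.dist x (L t) = t`, `g.dist (L t) b = T - t` for `t ∈ [0, T]` (`dist_line`). By the triangle inequality
(`RMetric.dist_triangle`, `NCP/RCat`; `dist_comm` in `NCP/RLen`) `g.dist a (L t) = ℓ + t`. Let `y t = (e a)⁻¹ (L t)` (smooth; `e a (y t) = L t`): in the metric
`F.metric a` it has unit speed (chain rule `deriv L t = fderiv (e a) (y t) (deriv y t)`) and
`nrm (F.metric a) 0 (y t) = nrm g a (y t) = g.dist a (L t) = ℓ + t`. `radial_eq`:
`u = y T = ((ℓ + T) / ℓ) • w₁`. So `w₁ = (ℓ / (ℓ + T)) • u`. -/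

set_option autoImplicit false

open Set Filter Topology
open scoped ContDiff

namespace Pool.Agent.NCR

open Pool.Agent.NCP (E RMetric)

variable {n : ℕ} {g : RMetric n}

private theorem fanTri_nrm_sq (g : RMetric n) (a u : E n) : nrm g a u * nrm g a u = g.form a u u :=
  Real.mul_self_sqrt (g.form_nonneg a u)

private theorem fanTri_exists_inv (F : Fan g) (a : E n) : ∃ k : E n → E n,
    (∀ u, k (F.e a u) = u) ∧ (∀ b, F.e a (k b) = b) ∧ Differentiable ℝ k := by
  let ϕ := Equiv.ofBijective (F.e a) (F.bij a)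
  have h1 : ∀ u, ϕ.symm (F.e a u) = u := fun u => ϕ.symm_apply_apply u
  have h2 : ∀ b, F.e a (ϕ.symm b) = b := fun b => ϕ.apply_symm_apply b
  refine ⟨ϕ.symm, h1, h2, ?_⟩
  intro b
  obtain ⟨u, rfl⟩ : ∃ u, F.e a u = b := ⟨_, h2 b⟩
  have hs : HasStrictFDerivAt (F.e a) (fderiv ℝ (F.e a) u) u :=
    (F.smooth a).contDiffAt.hasStrictFDerivAt (by simp)
  let A : E n ≃ₗ[ℝ] E n := LinearEquiv.ofInjectiveEndo
    ((fderiv ℝ (F.e a) u : E n →L[ℝ] E n) : E n →ₗ[ℝ] E n) (F.inj a u)
  let B : E n ≃L[ℝ] E n := A.toContinuousLinearEquiv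
  have hB : (B : E n →L[ℝ] E n) = fderiv ℝ (F.e a) u := by
    ext v
    rfl
  rw [← hB] at hs
  have hmap := hs.map_nhds_eq_of_equiv
  have hcont : ContinuousAt ϕ.symm (F.e a u) := by
    unfold ContinuousAt
    rw [← hmap, h1, Filter.tendsto_map'_iff]
    have : ϕ.symm ∘ F.e a = id := by
      funext v
      exact h1 v
    rw [this]
    exact tendsto_id
  have hd : HasFDerivAt (F.e a) (B : E n →L[ℝ] E n) (ϕ.symm (F.e a u)) := by
    rw [h1]
    exact hs.hasFDerivAt
  exact (HasFDerivAt.of_local_left_inverse hcont hd (Filter.Eventually.of_forall h2)).differentiableAt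

theorem Fan.between (F : Fan g) {a u x : E n}
    (h : g.dist a x + g.dist x (F.e a u) = g.dist a (F.e a u)) (hu : u ≠ 0) :
    x = F.e a ((g.dist a x / nrm g a u) • u) := by
  have hupos : 0 < nrm g a u := Real.sqrt_pos.mpr (g.pos a u hu)
  rw [F.dist_e a u] at h
  rcases (g.dist_nonneg a x).eq_or_lt with h0 | hℓ
  · rw [← h0, zero_div, zero_smul, F.zero]
    exact (g.eq_of_dist_eq_zero h0.symm).symm
  rcases (g.dist_nonneg x (F.e a u)).eq_or_lt with h0 | hT
  · rw [← h0, add_zero] at h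
    rw [h, div_self hupos.ne', one_smul]
    exact g.eq_of_dist_eq_zero h0.symm
  obtain ⟨w₁, hw₁⟩ := (F.bij a).2 x
  obtain ⟨w₂, hw₂⟩ := (F.bij x).2 (F.e a u)
  obtain ⟨k, hk1, hk2, hk3⟩ := fanTri_exists_inv F a
  set ℓ := g.dist a x with hℓdef
  set T := g.dist x (F.e a u) with hTdef
  have hn2 : nrm g x w₂ = T := by rw [hTdef, ← hw₂, F.dist_e]
  set L : ℝ → E n := fun t => F.e x ((t / T) • w₂) with hL
  have hL0 : L 0 = x := by simp [hL, F.zero]
  have hLT : L T = F.e a u := by simp [hL, div_self hT.ne', hw₂]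
  -- derivative of `L`
  have hline : ∀ s, DifferentiableAt ℝ (fun r : ℝ => F.e x (r • w₂)) s := by
    intro s
    have h1 : DifferentiableAt ℝ (F.e x) (s • w₂) :=
      (F.smooth x).differentiable (by simp) _
    have h2 : DifferentiableAt ℝ (fun r : ℝ => r • w₂) s := differentiableAt_id.smul_const w₂
    exact DifferentiableAt.comp s h1 h2
  have hLd : ∀ t, HasDerivAt L ((1 / T) • deriv (fun r : ℝ => F.e x (r • w₂)) (t / T)) t := by
    intro t
    have h1 : HasDerivAt (fun t : ℝ => t / T) (1 / T) t := (hasDerivAt_id t).div_const T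
    exact HasDerivAt.scomp t (hline (t / T)).hasDerivAt h1
  have hLs : ∀ t, g.form (L t) (deriv L t) (deriv L t) = 1 := by
    intro t
    rw [(hLd t).deriv]
    have h1 := F.form_deriv x w₂ (t / T)
    have h2 := fanTri_nrm_sq g x w₂
    rw [hn2] at h2
    simp only [map_smul, FunLike.coe_smul, Pi.smul_apply, smul_eq_mul]
    show 1 / T * (1 / T * g.form (F.e x ((t / T) • w₂)) _ _) = 1
    rw [h1, ← h2]
    field_simp
  -- distances
  have hd1 : ∀ t ∈ Icc 0 T, g.dist a (L t) = ℓ + t := by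
    intro t ht
    have e1 : g.dist x (L t) = t := by
      have := F.dist_line x w₂ 0 (t / T)
      rw [zero_smul, F.zero, hn2, zero_sub, abs_neg, abs_of_nonneg (div_nonneg ht.1 hT.le)] at this
      rw [hL]
      simp only
      rw [this]
      field_simp
    have e2 : g.dist (L t) (F.e a u) = T - t := by
      have := F.dist_line x w₂ (t / T) 1
      rw [one_smul, hw₂, hn2, abs_sub_comm, abs_of_nonneg
        (by rw [sub_nonneg, div_le_one hT]; exact ht.2)] at this
      rw [hL]
      simp only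
      rw [this]
      field_simp
    have t1 := g.dist_triangle a x (L t)
    have t2 := g.dist_triangle a (L t) (F.e a u)
    rw [F.dist_e a u] at t2
    rw [← hℓdef] at t1
    linarith
  -- the pulled back curve
  set y : ℝ → E n := fun t => k (L t) with hy
  have hey : ∀ t, F.e a (y t) = L t := fun t => hk2 _
  have hyd : ∀ t, DifferentiableAt ℝ y t := fun t =>
    DifferentiableAt.comp t (hk3 _) (hLd t).differentiableAt
  have hyc : Continuous y := by
    rw [continuous_iff_continuousAt]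
    exact fun t => (hyd t).continuousAt
  have hchain : ∀ t, fderiv ℝ (F.e a) (y t) (deriv y t) = deriv L t := by
    intro t
    have h1 : HasFDerivAt (F.e a) (fderiv ℝ (F.e a) (y t)) (y t) :=
      ((F.smooth a).differentiable (by simp) _).hasFDerivAt
    have h2 := h1.comp_hasDerivAt t (hyd t).hasDerivAt
    have h3 : (F.e a) ∘ y = L := by
      funext s
      exact hey s
    rw [h3] at h2
    exact h2.deriv.symm
  have key := radial_eq (F.radial a) hℓ hT.le (y := y) hyc.continuousOn
    (fun t _ => ⟨hyd t, by rw [F.metric_form, hey, hchain, hLs]⟩)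
    (fun t ht => by rw [F.nrm_metric, ← F.dist_e, hey, hd1 t ht])
  have hyT : y T = u := by
    show k (L T) = u
    rw [hLT, hk1]
  have hy0 : y 0 = w₁ := by
    show k (L 0) = w₁
    rw [hL0, ← hw₁, hk1]
  rw [hyT, hy0, h] at key
  have h3 : (ℓ / nrm g a u) • u = (ℓ / nrm g a u) • ((nrm g a u / ℓ) • w₁) :=
    congrArg (fun z => (ℓ / nrm g a u) • z) key
  have h4 : ℓ / nrm g a u * (nrm g a u / ℓ) = 1 := by
    field_simp
  rw [smul_smul, h4, one_smul] at h3
  rw [h3, hw₁]

end Pool.Agent.NCR
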