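import Pool.Agent.NCR.Defs

/-! # NCR: Gauss lemma for a metric on `E n` whose geodesics through `0` are the straight lines

PROOF. Write `g (x) (v, w) = g.form x v w`. (1) The equation for the line `t ↦ t • v` and `w = v` says
`d/dt g (t v) (v, v) = 1/2 d/dt g (t v) (v, v)`, so `g (t v) (v, v) = g (0) (v, v)` for all `t`, `v`.
(2) Fix `u, w`, `f t = g (t u) (u, w)`. The equation for the line `t ↦ t u` and the vector `w`:
`f' t = 1/2 (fderiv g (t u) w) u u`. Differentiate the identity (1) for fixed `t` at `v = u` in the
direction `w`: `t (fderiv g (t u) w) u u + 2 g (t u) (u, w) = 2 g (0) (u, w)`. So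
`(t f t)' = f t + t f' t = g (0) (u, w)`, hence `f 1 = g (0) (u, w)`. -/

set_option autoImplicit false

open Set Filter Topology
open scoped ContDiff

namespace Pool.Agent.NCR

open Pool.Agent.NCP (E RMetric)
open Pool.Agent.NCQ (GeodesicAt)

theorem gauss {n : ℕ} (g : RMetric n)
    (h : ∀ (u : E n) (t : ℝ), GeodesicAt (fun x v w => g.form x v w) (fun s : ℝ => s • u) t) :
    Radial g := by
  have hD : ∀ x, HasFDerivAt g.form (fderiv ℝ g.form x) x := fun x =>
    (g.smooth.differentiable (by simp)).differentiableAt.hasFDerivAt
  -- derivatives along lines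
  have hline : ∀ (x v a b : E n) (t : ℝ),
      HasDerivAt (fun s : ℝ => g.form (x + s • v) a b) (fderiv ℝ g.form (x + t • v) v a b) t := by
    intro x v a b t
    have h1 : HasDerivAt (fun s : ℝ => x + s • v) v t := by
      simpa using ((hasDerivAt_id t).smul_const v).const_add x
    have h2 := HasFDerivAt.comp_hasDerivAt (l := g.form) (l' := fderiv ℝ g.form (x + t • v))
      t (hD (x + t • v)) h1
    have h3 := (h2.clm_apply (hasDerivAt_const t a)).clm_apply (hasDerivAt_const t b)
    simpa using h3
  have hder : ∀ (u : E n) (s : ℝ), deriv (fun s : ℝ => s • u) s = u := by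
    intro u s
    simpa using ((hasDerivAt_id s).smul_const u).deriv
  -- the geodesic equation
  have hG : ∀ (u w : E n) (t : ℝ), fderiv ℝ g.form (t • u) u u w =
      1 / 2 * fderiv ℝ g.form (t • u) w u u := by
    intro u w t
    have h1 := h u t w
    simp only [hder] at h1
    have h2 := hline 0 u u w t
    simp only [zero_add] at h2
    rw [h2.deriv] at h1
    have h3 := hline (t • u) w u u 0
    simp only [zero_smul, add_zero] at h3
    rw [h3.deriv] at h1
    exact h1
  -- (1)
  have hone : ∀ (v : E n) (t : ℝ), g.form (t • v) v v = g.form 0 v v := by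
    intro v t
    have hconst := is_const_of_deriv_eq_zero (f := fun s : ℝ => g.form (s • v) v v) ?_ ?_ t 0
    · simpa using hconst
    · intro s
      have h2 := hline 0 v v v s
      simp only [zero_add] at h2
      exact h2.differentiableAt
    · intro s
      have h2 := hline 0 v v v s
      simp only [zero_add] at h2
      rw [h2.deriv]
      have h3 := hG v v s
      linarith
  -- (2)
  intro u w
  have hkey : ∀ t : ℝ, t * fderiv ℝ g.form (t • u) w u u + 2 * g.form (t • u) u w =
      2 * g.form 0 u w := by
    intro t
    have hv : HasDerivAt (fun a : ℝ => u + a • w) w 0 := by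
      simpa using ((hasDerivAt_id (0 : ℝ)).smul_const w).const_add u
    have hx : HasDerivAt (fun a : ℝ => t • (u + a • w)) (t • w) 0 := hv.const_smul t
    have hx0 : t • (u + (0 : ℝ) • w) = t • u := by simp
    have h2 := HasFDerivAt.comp_hasDerivAt (l := g.form)
      (l' := fderiv ℝ g.form (t • (u + (0 : ℝ) • w))) (0 : ℝ) (hD (t • (u + (0 : ℝ) • w))) hx
    rw [hx0] at h2
    have hL := (h2.clm_apply hv).clm_apply hv
    have hR := ((hasDerivAt_const (0 : ℝ) (g.form 0)).clm_apply hv).clm_apply hv
    have heq : (fun a : ℝ => g.form (t • (u + a • w)) (u + a • w) (u + a • w)) =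
        fun a : ℝ => g.form 0 (u + a • w) (u + a • w) := by
      funext a
      exact hone _ _
    have hL' : HasDerivAt (fun a : ℝ => g.form 0 (u + a • w) (u + a • w)) _ 0 := heq ▸ hL
    have := hL'.unique hR
    simp only [zero_smul, add_zero, add_apply, map_smul,
      smul_apply, smul_eq_mul, zero_apply, zero_add, Function.comp_apply] at this
    rw [g.symm (t • u) w u, g.symm 0 w u] at this
    linarith
  have hconst := is_const_of_deriv_eq_zero
    (f := fun s : ℝ => s * g.form (s • u) u w - s * g.form 0 u w) ?_ ?_ 1 0
  · simp only [one_mul, one_smul, zero_mul, sub_zero] at hconst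
    linarith
  · intro s
    have h2 := hline 0 u u w s
    simp only [zero_add] at h2
    exact ((hasDerivAt_id s).mul h2).differentiableAt.sub
      ((hasDerivAt_id s).mul_const _).differentiableAt
  · intro s
    have h2 := hline 0 u u w s
    simp only [zero_add] at h2
    have h3 := ((hasDerivAt_id s).mul h2).sub ((hasDerivAt_id s).mul_const (g.form 0 u w))
    have h4 := h3.deriv
    have h5 := hkey s
    have h6 := hG u w s
    simp only [id, one_mul] at h4
    refine Eq.trans ?_ (h4.trans ?_)
    · rfl
    · rw [h6]
      linarith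

end Pool.Agent.NCR
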