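import Pool.Agent.NCR.Change
import Pool.Agent.NCQ.Cov

/-! # NCR: change of charts for geodesics

`GeoLift.change`: let `θ, θ'` be as in `exists_change` (from the chart `i` at `x t` to the chart `j`
at `y`), `c = θ ∘ x`. Near `t`, `θ' ∘ c = x` is a geodesic of `R.G i`, and by
`NCQ.GeodesicAt.of_comp` (with `Φ = θ'`) `c` is a geodesic of the pull back of `R.G i` by `θ'`,
which is `R.G j` near `y` (`NCQ.GeodesicAt.congr`). -/

set_option autoImplicit false

open Set Filter Topology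
open scoped ContDiff

namespace Pool.Agent.NCR

open Pool.Agent.NCP (E RMetric)
open Pool.Agent.NCQ (GeodesicAt)

variable {n : ℕ} {ι M : Type} [TopologicalSpace M]

theorem RM.GeoLift.change {R : RM n ι M} {c : ℝ → M} {t : ℝ} {i : ι} {x : ℝ → E n}
    (h : R.GeoLift c t i x) {j : ι} {y : E n} (hy : y ∈ R.dom) (e : R.q j y = c t) :
    ∃ x' : ℝ → E n, R.GeoLift c t j x' ∧ x' t = y := by
  obtain ⟨hL, hG⟩ := h
  obtain ⟨h1, hx, hq⟩ := hL.self_of_nhds
  -- the lift to the chart `j`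
  obtain ⟨θ, _, e1, _, hL'⟩ := hL.change hy e
  set x' : ℝ → E n := fun r => θ (x r) with hx'
  have e1' : x' t = y := e1
  -- the inverse change of charts
  have hid : R.Lift (R.q j) y j (fun r => r) := by
    filter_upwards [R.isOpen_dom.mem_nhds hy] with r hr
    exact ⟨contDiffAt_id, hr, rfl⟩
  obtain ⟨φ, _, e2, _, hφ⟩ := hid.change hx (hq.trans e.symm)
  have e2' : φ y = x t := e2
  have hφ' : ∀ᶠ r in 𝓝 y, ContDiffAt ℝ ∞ φ r ∧ φ r ∈ R.dom ∧ R.q i (φ r) = R.q j r := hφ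
  -- matching of the metrics
  have hmet : ∀ᶠ r in 𝓝 y, ∀ v w, R.G i (φ r) (fderiv ℝ φ r v) (fderiv ℝ φ r w) =
      R.G j r v w := by
    filter_upwards [hφ.eventually, hid.eventually] with r hr1 hr2 v w
    have := hr2.metric_eq hr1 v w
    simpa using this
  -- continuity of `x'`
  have hcx' : ContinuousAt x' t := hL'.self_of_nhds.1.continuousAt
  have hcx'' : Tendsto x' (𝓝 t) (𝓝 y) := by
    have := hcx'.tendsto
    rwa [e1'] at this
  -- `φ ∘ x'` is a lift to the chart `i`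
  have hL2 : R.Lift c t i (fun s => φ (x' s)) := by
    filter_upwards [hL', hcx''.eventually hφ'] with s hs1 hs2
    exact ⟨hs2.1.comp s hs1.1, hs2.2.1, hs2.2.2.trans hs1.2.2⟩
  have heq : ∀ᶠ s in 𝓝 t, φ (x' s) = x s :=
    hL2.eventually_eq hL (by rw [e1', e2'])
  refine ⟨x', ⟨hL', ?_⟩, e1'⟩
  filter_upwards [hG, hL, hL', hcx''.eventually hφ', hcx''.eventually hmet.eventually_nhds,
    heq.eventually_nhds] with s hs1 hs2 hs3 hs4 hs5 hs6
  have g1 : GeodesicAt (R.gm i) (fun r => φ (x' r)) s :=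
    hs1.congr (Eventually.of_forall fun _ _ _ => rfl) hs2.1.continuousAt hs6
  have g2 := GeodesicAt.of_comp (R.G i) (R.symm i) (Φ := φ) (c := x') (t := s)
    ((R.smooth i _ hs4.2.1).of_le (by exact_mod_cast le_top))
    (hs4.1.of_le ENat.LEInfty.out)
    (hs3.1.of_le ENat.LEInfty.out) g1
  refine g2.congr ?_ hs3.1.continuousAt (Eventually.of_forall fun _ => rfl)
  filter_upwards [hs5] with r hr v w
  exact (hr v w).symm

/-- every lift of a geodesic satisfies the geodesic equation -/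
theorem RM.GeoLift.of_lift {R : RM n ι M} {c : ℝ → M} {t : ℝ} (h : R.IsGeo c t) {j : ι}
    {x' : ℝ → E n} (h' : R.Lift c t j x') : R.GeoLift c t j x' := by
  obtain ⟨i, x, hx⟩ := h
  obtain ⟨_, h2, h3⟩ := h'.self_of_nhds
  obtain ⟨x'', h4, h5⟩ := hx.change h2 h3
  refine ⟨h', ?_⟩
  have heq : ∀ᶠ s in 𝓝 t, x' s = x'' s := h'.eventually_eq h4.1 h5.symm
  filter_upwards [h4.2, h4.1, heq.eventually_nhds] with s hs1 hs2 hs3
  exact hs1.congr (Eventually.of_forall fun _ _ _ => rfl) hs2.1.continuousAt hs3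

theorem RM.IsGeo.eventually {R : RM n ι M} {c : ℝ → M} {t : ℝ} (h : R.IsGeo c t) :
    ∀ᶠ s in 𝓝 t, R.IsGeo c s := by
  obtain ⟨i, x, h1, h2⟩ := h
  filter_upwards [h1.eventually, h2.eventually_nhds] with s hs1 hs2
  exact ⟨i, x, hs1, hs2⟩

theorem RM.IsGeo.congr {R : RM n ι M} {c c' : ℝ → M} {t : ℝ} (h : R.IsGeo c t)
    (e : ∀ᶠ s in 𝓝 t, c' s = c s) : R.IsGeo c' t := by
  obtain ⟨i, x, h1, h2⟩ := h
  exact ⟨i, x, h1.congr e (Eventually.of_forall fun _ => rfl), h2⟩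

theorem RM.State.congr {R : RM n ι M} {c c' : ℝ → M} {t : ℝ} {i : ι} {x v : E n}
    (h : R.State c t i x v) (e : ∀ᶠ s in 𝓝 t, c' s = c s) : R.State c' t i x v := by
  obtain ⟨y, ⟨h1, h2⟩, h3, h4⟩ := h
  exact ⟨y, ⟨h1.congr e (Eventually.of_forall fun _ => rfl), h2⟩, h3, h4⟩

/-- a geodesic has a state at every time -/
theorem RM.IsGeo.exists_state {R : RM n ι M} {c : ℝ → M} {t : ℝ} (h : R.IsGeo c t) :
    ∃ i x v, x ∈ R.dom ∧ R.q i x = c t ∧ R.State c t i x v := by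
  obtain ⟨i, y, hy⟩ := h
  obtain ⟨_, h2, h3⟩ := hy.1.self_of_nhds
  exact ⟨i, y t, deriv y t, h2, h3, y, hy, rfl, rfl⟩

end Pool.Agent.NCR
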