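import Pool.Agent.NCR.Pull
import Pool.Agent.NCR.GeoChange

/-! # NCR: geodesics of the pulled back metric

PROOF. Let `X` be a lift of `f` at `y t` (chart `j`). `f ∘ y` has a geodesic lift `z'` to the chart
`j` through `X (y t)` (`GeoLift.change`), and `X ∘ y = z'` near `t` (`locInj`), so `X ∘ y` is a
geodesic of `R.G j` at `t`. By
`NCQ.GeodesicAt.of_comp` with `Φ = X`, `G = R.G j`, `y` is a geodesic of the form
`G j (X u) (DX v) (DX w)`, which is `(pull hf).form` near `y t` (`pull_form`, `NCQ.GeodesicAt.congr`). -/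

set_option autoImplicit false

open Set Filter Topology
open scoped ContDiff

namespace Pool.Agent.NCR

open Pool.Agent.NCP (E RMetric)
open Pool.Agent.NCQ (GeodesicAt)

variable {n : ℕ} {ι M : Type} [TopologicalSpace M]

theorem RM.geodesicAt_pull {R : RM n ι M} {f : E n → M} (hf : R.LocDiff f) {y : ℝ → E n} {t : ℝ}
    (hy : ContDiffAt ℝ ∞ y t) (h : R.IsGeo (fun s => f (y s)) t) :
    GeodesicAt (fun x v w => (RM.pull hf).form x v w) y t := by
  obtain ⟨j, X, hX⟩ := hf.lift (y t)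
  have hX' : ∀ᶠ r in 𝓝 (y t), ContDiffAt ℝ ∞ X r ∧ X r ∈ R.dom ∧ R.q j (X r) = f r := hX
  have hyc : ContinuousAt y t := hy.continuousAt
  obtain ⟨hX1, hX2, hX3⟩ := hX'.self_of_nhds
  -- a geodesic lift to the chart `j` through `X (y t)`; it is `X ∘ y` by local injectivity
  obtain ⟨i, z, hz⟩ := h
  obtain ⟨z', hz', ez⟩ := hz.change hX2 hX3
  obtain ⟨U, hU, hinj⟩ := R.locInj j (X (y t)) hX2
  have hzL : ∀ᶠ s in 𝓝 t, ContDiffAt ℝ ∞ z' s ∧ z' s ∈ R.dom ∧ R.q j (z' s) = f (y s) := hz'.1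
  have hzc : ContinuousAt z' t := hzL.self_of_nhds.1.continuousAt
  have hXyc : ContinuousAt (fun s => X (y s)) t :=
    ContinuousAt.comp (g := X) hX1.continuousAt hyc
  have heq : ∀ᶠ s in 𝓝 t, X (y s) = z' s := by
    have hU1 : ∀ᶠ s in 𝓝 t, z' s ∈ U := hzc.eventually_mem (by rw [ez]; exact hU)
    have hU2 : ∀ᶠ s in 𝓝 t, X (y s) ∈ U := hXyc.eventually_mem hU
    filter_upwards [hU1, hU2, hzL, hyc.eventually hX'] with s hs1 hs2 hs3 hs4
    exact hinj hs2 hs1 (hs4.2.2.trans hs3.2.2.symm)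
  have hG : GeodesicAt (R.gm j) (fun s => X (y s)) t :=
    (hz'.2.self_of_nhds).congr (Eventually.of_forall fun _ _ _ => rfl) hzc heq
  have g2 := GeodesicAt.of_comp (R.G j) (R.symm j) (Φ := X) (c := y) (t := t)
    ((R.smooth j _ hX2).of_le (by exact_mod_cast le_top))
    (hX1.of_le ENat.LEInfty.out)
    (hy.of_le ENat.LEInfty.out) hG
  refine g2.congr ?_ hyc (Eventually.of_forall fun _ => rfl)
  filter_upwards [hX.eventually] with r hr v w
  exact RM.pull_form hf hr v w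

end Pool.Agent.NCR
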