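import Pool.Agent.NCR.ExInj
import Pool.Agent.NCR.PullGeo
import Pool.Agent.NCR.Gauss

/-! # NCR: the exponential map of `M` based at the point `f a`, in the coordinates of `f`

PROOF. `exists_fexp`: let `X₀` be a lift of `f` at `a` in the chart `i`, `x = X₀ a`,
`D = fderiv ℝ X₀ a`; `h = R.ex i x D`. `LocDiff`: `locDiff_ex`. `h (s • u) = geo i x (D u) s`
(`ex_smul`), so `h 0 = q i x = f a` and it is a geodesic. State in another lift `(j, X)` of `f` at `a`:
let `θ` be from `exists_change` for `(i, x)`, `(j, X a)`. `θ ∘ X₀` is a lift of `f` at `a` with value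
`X a`, so it is `X` near `a` (`Lift.eventually_eq`) and `fderiv X a = fderiv θ x ∘ D`. For the lift `y`
of `geo_state`, `θ ∘ y` is a lift of the same curve in the chart `j` (a `GeoLift` by
`GeoLift.of_lift`), with derivative `fderiv θ x (D u) = fderiv X a u`.
`fexp_form_zero`: let `(j, X)` be a lift of `f` at `a`, `Y` a lift of `h` at `0` in the chart `j` with
`Y 0 = X a` (`Lift.change`). `s ↦ Y (s • u)` is a lift of the curve, so it is the lift from `State` near
`0`, hence `fderiv Y 0 u = fderiv X a u`. Then `pull_form` twice.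
`radial_pull`: `geodesicAt_pull` for the lines and `gauss`. -/

set_option autoImplicit false

open Set Filter Topology
open scoped ContDiff

namespace Pool.Agent.NCR

open Pool.Agent.NCP (E RMetric)
open Pool.Agent.NCQ (GeodesicAt)

variable {n : ℕ} {ι M : Type} [TopologicalSpace M]

/-- `h` is the exponential map at `f a` in the coordinates given by `f`. -/
structure RM.IsExpAt (R : RM n ι M) (f : E n → M) (a : E n) (h : E n → M) : Prop where
  locDiff : R.LocDiff h
  zero : h 0 = f a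
  isGeo : ∀ u t, R.IsGeo (fun s : ℝ => h (s • u)) t
  state : ∀ (j : ι) (X : E n → E n), R.Lift f a j X → ∀ u,
    R.State (fun s : ℝ => h (s • u)) 0 j (X a) (fderiv ℝ X a u)

private theorem fexp_comp {R : RM n ι M} {P : Type} [NormedAddCommGroup P] [NormedSpace ℝ P]
    {α : P → M} {p : P} {i j : ι} {z : P → E n} {x : E n} {θ : E n → E n}
    (h : R.Lift α p i z) (e : z p = x)
    (hθ : ∀ᶠ r in 𝓝 x, ContDiffAt ℝ ∞ θ r ∧ θ r ∈ R.dom ∧ R.q j (θ r) = R.q i r) :
    R.Lift α p j (fun r => θ (z r)) := by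
  have hc : Tendsto z (𝓝 p) (𝓝 x) := by
    have h1 : ContinuousAt z p := (h.self_of_nhds).1.continuousAt
    have h2 := h1.tendsto
    rwa [e] at h2
  filter_upwards [h, hc.eventually hθ] with r h1 h2
  exact ⟨ContDiffAt.comp r h2.1 h1.1, h2.2.1, h2.2.2.trans h1.2.2⟩

theorem RM.exists_fexp [T2Space M] [Finite ι] {R : RM n ι M} (hR : R.NoConj) {f : E n → M}
    (hf : R.LocDiff f) (a : E n) : ∃ h : E n → M, R.IsExpAt f a h := by
  obtain ⟨i, X₀, hX₀⟩ := hf.lift a
  have hinj := hf.inj a i X₀ hX₀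
  obtain ⟨hs0, hx, hq⟩ := hX₀.self_of_nhds
  have hcurve : ∀ u, (fun s : ℝ => R.ex i (X₀ a) (fderiv ℝ X₀ a) (s • u)) =
      R.geo i (X₀ a) (fderiv ℝ X₀ a u) := by
    intro u
    funext s
    exact R.ex_smul i hx _ u s
  refine ⟨R.ex i (X₀ a) (fderiv ℝ X₀ a), RM.locDiff_ex hR i hx hinj, ?_, ?_, ?_⟩
  · have h1 := R.ex_smul i hx (fderiv ℝ X₀ a) 0 0
    rw [zero_smul, R.geo_zero i hx] at h1
    rw [h1]
    exact hq
  · intro u t
    rw [hcurve u]
    exact R.geo_isGeo i hx _ t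
  · intro j X hX u
    rw [hcurve u]
    obtain ⟨y, hy, hy0, hy1⟩ := R.geo_state i hx (fderiv ℝ X₀ a u)
    obtain ⟨hsX, hXd, hXq⟩ := hX.self_of_nhds
    have hid : R.Lift (R.q i) (X₀ a) i (fun r => r) := by
      filter_upwards [R.isOpen_dom.mem_nhds hx] with r hr
      exact ⟨contDiffAt_id, hr, rfl⟩
    obtain ⟨θ, hθ0, e1, -, hθ⟩ := hid.change hXd (hXq.trans hq.symm)
    have hθ0' : ContDiffAt ℝ ∞ θ (X₀ a) := hθ0
    have e1' : θ (X₀ a) = X a := e1
    have hθ' : ∀ᶠ r in 𝓝 (X₀ a), ContDiffAt ℝ ∞ θ r ∧ θ r ∈ R.dom ∧ R.q j (θ r) = R.q i r := hθ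
    have hL1 : R.Lift f a j (fun r => θ (X₀ r)) := fexp_comp hX₀ rfl hθ'
    have hE1 : ∀ᶠ r in 𝓝 a, θ (X₀ r) = X r := hL1.eventually_eq hX e1'
    have hθd : DifferentiableAt ℝ θ (X₀ a) := hθ0'.differentiableAt (by simp)
    have hXd0 : DifferentiableAt ℝ X₀ a := hs0.differentiableAt (by simp)
    have hD : fderiv ℝ X a = (fderiv ℝ θ (X₀ a)).comp (fderiv ℝ X₀ a) := by
      rw [← fderiv_comp a hθd hXd0]
      refine Filter.EventuallyEq.fderiv_eq ?_
      filter_upwards [hE1] with r hr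
      exact hr.symm
    have hL2 : R.Lift (R.geo i (X₀ a) (fderiv ℝ X₀ a u)) 0 j (fun r => θ (y r)) :=
      fexp_comp hy.1 hy0 hθ'
    refine ⟨fun r => θ (y r), RM.GeoLift.of_lift (R.geo_isGeo i hx _ 0) hL2, ?_, ?_⟩
    · show θ (y 0) = X a
      rw [hy0]
      exact e1'
    · have hyd : DifferentiableAt ℝ y 0 := hy.1.self_of_nhds.1.differentiableAt (by simp)
      have hθd' : DifferentiableAt ℝ θ (y 0) := by
        rw [hy0]
        exact hθd
      have h3 := fderiv_comp_deriv (x := (0 : ℝ)) (f := y) (l := θ) hθd' hyd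
      have h4 : deriv (fun r => θ (y r)) 0 = fderiv ℝ θ (y 0) (deriv y 0) := h3
      rw [h4, hy0, hy1, hD]
      rfl

theorem RM.fexp_form_zero {R : RM n ι M} {f h : E n → M} {a : E n} (hf : R.LocDiff f)
    (hh : R.IsExpAt f a h) (w w' : E n) :
    (RM.pull hh.locDiff).form 0 w w' = (RM.pull hf).form a w w' := by
  obtain ⟨j, X, hX⟩ := hf.lift a
  obtain ⟨k, Y₀, hY₀⟩ := hh.locDiff.lift 0
  obtain ⟨hsX, hXd, hXq⟩ := hX.self_of_nhds
  obtain ⟨θ, -, e1, -, hY⟩ := hY₀.change hXd (hXq.trans hh.zero.symm)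
  have key : ∀ u, fderiv ℝ (fun r => θ (Y₀ r)) 0 u = fderiv ℝ X a u := by
    intro u
    obtain ⟨y, hy, hy0, hy1⟩ := hh.state j X hX u
    have hYd : DifferentiableAt ℝ (fun r => θ (Y₀ r)) ((0 : ℝ) • u) := by
      rw [zero_smul]
      exact hY.self_of_nhds.1.differentiableAt (by simp)
    have hc : Tendsto (fun s : ℝ => s • u) (𝓝 0) (𝓝 (0 : E n)) := by
      have h1 : Continuous (fun s : ℝ => s • u) := continuous_id.smul continuous_const
      have h2 := h1.tendsto 0
      rwa [zero_smul] at h2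
    have hL : R.Lift (fun s : ℝ => h (s • u)) 0 j (fun s => θ (Y₀ (s • u))) := by
      filter_upwards [hc.eventually hY] with s hs
      refine ⟨?_, hs.2.1, hs.2.2⟩
      exact ContDiffAt.comp (g := fun r => θ (Y₀ r)) (f := fun s : ℝ => s • u) s hs.1
        (contDiffAt_id.smul contDiffAt_const)
    have hE : ∀ᶠ s in 𝓝 (0 : ℝ), θ (Y₀ (s • u)) = y s := by
      refine hL.eventually_eq hy.1 ?_
      rw [hy0, zero_smul]
      exact e1
    have hE' : (fun s : ℝ => θ (Y₀ (s • u))) =ᶠ[𝓝 0] y := hE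
    have h1 : deriv (fun s : ℝ => θ (Y₀ (s • u))) 0 = fderiv ℝ X a u := by
      rw [hE'.deriv_eq, hy1]
    have hu : HasDerivAt (fun s : ℝ => s • u) u 0 := by
      have h5 := (hasDerivAt_id (0 : ℝ)).smul_const u
      simpa using h5
    have h2 := fderiv_comp_deriv (x := (0 : ℝ)) (f := fun s : ℝ => s • u)
      (l := fun r => θ (Y₀ r)) hYd hu.differentiableAt
    have h3 : deriv (fun s : ℝ => θ (Y₀ (s • u))) 0 =
        fderiv ℝ (fun r => θ (Y₀ r)) ((0 : ℝ) • u) (deriv (fun s : ℝ => s • u) 0) := h2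
    rw [hu.deriv, zero_smul] at h3
    rw [← h3, h1]
  have e1' : θ (Y₀ 0) = X a := e1
  rw [RM.pull_form hh.locDiff hY, RM.pull_form hf hX, key, key, e1']

theorem RM.radial_pull {R : RM n ι M} {h : E n → M} (hh : R.LocDiff h)
    (hg : ∀ u t, R.IsGeo (fun s : ℝ => h (s • u)) t) : Radial (RM.pull hh) := by
  refine gauss (RM.pull hh) fun u t => ?_
  exact RM.geodesicAt_pull hh (y := fun s : ℝ => s • u) (contDiffAt_id.smul contDiffAt_const)
    (hg u t)

end Pool.Agent.NCR
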