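import Pool.Agent.NCR.Model

/-! # NCR: no conjugate points, from `GMMetric` to `RM`

PROOF. `(rm g).Lift α p i x` iff `IsLift α p i (fun r => Lc (x r))` (`qm_eq`; smoothness by `Lc`, `Lc.symm`).
`GeodesicAt ((rm g).gm i) y t` iff `GeodesicAt (g.form i) (fun s => Lc (y s)) t`: `mG_apply`,
`deriv (fun s => Lc (y s)) t = Lc (deriv y t)` (true for every function, `Lc` is an equivalence), and
`Lc (y t + a • w) = Lc (y t) + a • Lc w`. `JacobiZero`: the same. -/

set_option autoImplicit false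

open Set Filter Topology
open scoped ContDiff

namespace Pool.Agent.NCR

open Pool.Agent.NCP (E RMetric)
open Pool.Agent.NCQ Pool.Agent.NCT

variable {A : Matrix.SpecialLinearGroup (Fin 2) ℤ}

private theorem deriv_Lc (y : ℝ → E 3) (t : ℝ) :
    deriv (fun s => Lc (y s)) t = Lc (deriv y t) := by
  have e : fderiv ℝ (fun s => Lc (y s)) t = (Lc : E 3 →L[ℝ] ℂ × ℝ).comp (fderiv ℝ y t) :=
    Lc.comp_fderiv (f := y) (x := t)
  rw [← fderiv_apply_one_eq_deriv, e, ← fderiv_apply_one_eq_deriv]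
  rfl

private theorem deriv_Lc_symm (y : ℝ → ℂ × ℝ) (t : ℝ) :
    deriv (fun s => Lc.symm (y s)) t = Lc.symm (deriv y t) := by
  have e : fderiv ℝ (fun s => Lc.symm (y s)) t
      = (Lc.symm : ℂ × ℝ →L[ℝ] E 3).comp (fderiv ℝ y t) :=
    Lc.symm.comp_fderiv (f := y) (x := t)
  rw [← fderiv_apply_one_eq_deriv, e, ← fderiv_apply_one_eq_deriv]
  rfl

private theorem isLift_of_lift {g : GMMetric A} {α : ℝ × ℝ → MBar A} {p : ℝ × ℝ} {i : Fin 2}
    {x : ℝ × ℝ → E 3} (h : (rm g).Lift α p i x) : IsLift α p i (fun r => Lc (x r)) := by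
  filter_upwards [h] with r hr
  obtain ⟨h1, h2, h3⟩ := hr
  refine ⟨Lc.contDiff.contDiffAt.comp r h1, h2, ?_⟩
  have h4 : qm A i (Lc (x r)) = α r := h3
  rw [← h4]
  exact qm_eq h2

private theorem lift_of_isLift {g : GMMetric A} {α : ℝ × ℝ → MBar A} {p : ℝ × ℝ} {i : Fin 2}
    {x : ℝ × ℝ → ℂ × ℝ} (h : IsLift α p i x) : (rm g).Lift α p i (fun r => Lc.symm (x r)) := by
  filter_upwards [h] with r hr
  obtain ⟨h1, h2, h3⟩ := hr
  refine ⟨Lc.symm.contDiff.contDiffAt.comp r h1, ?_, ?_⟩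
  · change Lc (Lc.symm (x r)) ∈ piece
    rw [Lc.apply_symm_apply]
    exact h2
  · change qm A i (Lc (Lc.symm (x r))) = α r
    rw [Lc.apply_symm_apply, qm_eq h2]
    exact h3.symm

private theorem geo_Lc {g : GMMetric A} {i : Fin 2} {y : ℝ → E 3} {t : ℝ}
    (h : GeodesicAt ((rm g).gm i) y t) : GeodesicAt (g.form i) (fun s => Lc (y s)) t := by
  intro w
  have h1 := h (Lc.symm w)
  have e : ∀ x v w : E 3, (rm g).gm i x v w = g.form i (Lc x) (Lc v) (Lc w) :=
    fun x v w => mG_apply g i x v w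
  simp only [e, Lc.apply_symm_apply, map_add, map_smul] at h1
  simp only [deriv_Lc]
  exact h1

theorem noConj_rm {g : GMMetric A} (hg : g.NoConjugatePoints) : (rm g).NoConj := by
  intro α hv t₁ t₂ hne h1 h2 t
  have hJ : ∀ s, (rm g).JacobiZero α s → JacobiZero α s := by
    rintro s ⟨i, x, hx, hd⟩
    refine ⟨i, fun r => Lc (x r), isLift_of_lift hx, ?_⟩
    have := deriv_Lc (fun s' => x (s', s)) 0
    rw [hd, map_zero] at this
    exact this
  have hv' : g.IsVariation α := by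
    intro p
    obtain ⟨i, x, hx, hG⟩ := hv p
    refine ⟨i, fun r => Lc (x r), isLift_of_lift hx, ?_⟩
    filter_upwards [hG] with q hq
    exact geo_Lc hq
  obtain ⟨i, x, hx, hd⟩ := hg α hv' t₁ t₂ hne (hJ t₁ h1) (hJ t₂ h2) t
  refine ⟨i, fun r => Lc.symm (x r), lift_of_isLift hx, ?_⟩
  have := deriv_Lc_symm (fun s' => x (s', t)) 0
  rw [hd, map_zero] at this
  exact this

end Pool.Agent.NCR
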