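import Pool.Agent.NCR.ThmA
import Pool.Agent.NCR.ModelNC
import Pool.Agent.NCR.DeckDisc
import Pool.Agent.NCR.DeckCoc
import Pool.Agent.NCT.Main
import Pool.Agent.NCP.Main

/-! # NCR: a metric without conjugate points on the graph manifold gives a deck action on `ℝ³` -/

set_option autoImplicit false

open Set Filter Topology
open scoped ContDiff

namespace Pool.Agent.NCR

open Pool.Agent.NCP (E RMetric)
open Pool.Agent.NCQ Pool.Agent.NCT

variable {A : Matrix.SpecialLinearGroup (Fin 2) ℤ}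

theorem exists_deckAction {g : GMMetric A} (hg : g.NoConjugatePoints) :
    ∃ (g' : RMetric 3) (ρ : NCP.GMGroup A →* Equiv.Perm (E 3)), g'.NoConjugatePoints ∧
      g'.IsDeckAction ρ := by
  have hx : Lc.symm ((1 / 2 : ℂ), (0 : ℝ)) ∈ (rm g).dom := by
    change Lc (Lc.symm _) ∈ piece
    rw [Lc.apply_symm_apply]
    exact half_mem_piece
  obtain ⟨g', π, hπ, hnc, hdist⟩ := RM.thmA (noConj_rm hg) 0 hx
  obtain ⟨ρ, hc, hp, hfree, htr⟩ := exists_deck (A := A) hπ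
  refine ⟨g', ρ, hnc, ?_, hfree, fun K hK => deck_disc hπ ρ hc hp hfree hK,
    deck_cocompact hπ ρ htr⟩
  intro γ x y
  refine le_antisymm (hdist (ρ γ) (hc γ) (hp γ) x y) ?_
  have h := hdist (ρ γ⁻¹) (hc γ⁻¹) (hp γ⁻¹) (ρ γ x) (ρ γ y)
  have e : ∀ z, ρ γ⁻¹ (ρ γ z) = z := by
    intro z
    rw [← Equiv.Perm.mul_apply, ← map_mul, inv_mul_cancel, map_one, Equiv.Perm.one_apply]
  rwa [e, e] at h

theorem not_exists_noConjugatePoints (A : Matrix.SpecialLinearGroup (Fin 2) ℤ)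
    (htr : 2 < |A.1 0 0 + A.1 1 1|) (ha : A.1 0 0 ≠ 0) (hd : A.1 1 1 ≠ 0) :
    ¬ ∃ g : GMMetric A, g.NoConjugatePoints := by
  rintro ⟨g, hg⟩
  obtain ⟨g', ρ, hnc, hρ⟩ := exists_deckAction hg
  exact NCP.main A htr ha hd 3 g' ρ hnc hρ

end Pool.Agent.NCR
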