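import Pool.Agent.NCR.GOde
import Pool.Agent.Unicorn.C1

/-! # NCR: local smooth flow of a vector field on an open set

PROOF. Take a smooth bump function `χ` equal to `1` on a ball `ball z₀ (2 r)` with closed ball of
radius `3 r` contained in `O`, `χ` supported there (`ContDiffBump`; note that `X` is only smooth at
the points of `O`), and `Y = χ • X` (extended by `0`), compactly supported and smooth.  Let `u z` be
the global solution of `Y` with `u z 0 = z` (`exists_global_sol`). By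
`Pool.Agent.Unicorn.contDiffOn_of_solutions` (with `P = F`, `S = univ`) the map
`(z, t) ↦ u z t` is smooth, in particular continuous, so `u z t ∈ ball z₀ (2 r)` for `z` near `z₀` and
`|t| < ε`; there `Y = X`. Put `Φ = u`. -/

set_option autoImplicit false

open Set Filter Topology
open scoped ContDiff

namespace Pool.Agent.NCR

theorem exists_local_flow {F : Type} [NormedAddCommGroup F] [NormedSpace ℝ F]
    [FiniteDimensional ℝ F] {X : F → F} {O : Set F} (hO : IsOpen O)
    (hX : ∀ z ∈ O, ContDiffAt ℝ ∞ X z) {z₀ : F} (hz₀ : z₀ ∈ O) :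
    ∃ ε > (0 : ℝ), ∃ W : Set F, IsOpen W ∧ z₀ ∈ W ∧ ∃ Φ : F → ℝ → F,
      (∀ z ∈ W, ∀ t ∈ Ioo (-ε) ε, ContDiffAt ℝ ∞ (fun p : F × ℝ => Φ p.1 p.2) (z, t) ∧
        Φ z t ∈ O ∧ HasDerivAt (Φ z) (X (Φ z t)) t) ∧ ∀ z ∈ W, Φ z 0 = z := by
  obtain ⟨ε₀, hε₀, hball⟩ := Metric.isOpen_iff.mp hO z₀ hz₀
  set r : ℝ := ε₀ / 4 with hr
  have hr0 : 0 < r := by rw [hr]; positivity
  let χ : ContDiffBump z₀ := ⟨2 * r, 3 * r, by positivity, by linarith⟩
  have hts : tsupport χ ⊆ O := by
    rw [χ.tsupport_eq]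
    intro x hx
    apply hball
    rw [Metric.mem_closedBall] at hx
    rw [Metric.mem_ball]
    have h3 : dist x z₀ ≤ 3 * r := hx
    have h4 : 4 * r = ε₀ := by rw [hr]; ring
    linarith
  let Y : F → F := fun z => χ z • X z
  have hY : ContDiff ℝ ∞ Y := by
    rw [contDiff_iff_contDiffAt]
    intro z
    by_cases hz : z ∈ tsupport χ
    · exact (χ.contDiff.contDiffAt).smul (hX z (hts hz))
    · have h0 : Y =ᶠ[𝓝 z] fun _ => 0 := by
        have h1 : ∀ᶠ w in 𝓝 z, w ∈ (tsupport χ)ᶜ :=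
          (isClosed_tsupport χ).isOpen_compl.mem_nhds hz
        filter_upwards [h1] with w hw
        show χ w • X w = 0
        rw [image_eq_zero_of_notMem_tsupport hw, zero_smul]
      exact contDiffAt_const.congr_of_eventuallyEq h0
  have hYs : HasCompactSupport Y := χ.hasCompactSupport.smul_right
  choose u hu0 hu using fun z => exists_global_sol hY hYs z
  have hsm : ContDiffOn ℝ ∞ (fun p : F × ℝ => u p.1 p.2) (univ ×ˢ univ) := by
    refine Pool.Agent.Unicorn.contDiffOn_of_solutions hY isOpen_univ ?_ (fun p _ s => hu p s)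
    have : (fun p => u p 0) = fun p => p := funext hu0
    rw [this]
    exact contDiffOn_id
  have hsm' : ContDiff ℝ ∞ (fun p : F × ℝ => u p.1 p.2) := by
    rw [univ_prod_univ] at hsm
    exact contDiffOn_univ.mp hsm
  have hopen : IsOpen ((fun p : F × ℝ => u p.1 p.2) ⁻¹' Metric.ball z₀ (2 * r)) :=
    Metric.isOpen_ball.preimage hsm'.continuous
  have hmem : ((z₀, 0) : F × ℝ) ∈ (fun p : F × ℝ => u p.1 p.2) ⁻¹' Metric.ball z₀ (2 * r) := by
    show u z₀ 0 ∈ Metric.ball z₀ (2 * r)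
    rw [hu0]
    exact Metric.mem_ball_self (by positivity)
  obtain ⟨ε, hε, hsub⟩ := Metric.isOpen_iff.mp hopen _ hmem
  refine ⟨ε, hε, Metric.ball z₀ ε, Metric.isOpen_ball, Metric.mem_ball_self hε, u, ?_,
    fun z _ => hu0 z⟩
  intro z hz t ht
  have h1 : ((z, t) : F × ℝ) ∈ Metric.ball ((z₀, 0) : F × ℝ) ε := by
    rw [← ball_prod_same]
    refine ⟨hz, ?_⟩
    rw [Metric.mem_ball, Real.dist_eq, sub_zero, abs_lt]
    exact ht
  have h2 : u z t ∈ Metric.ball z₀ (2 * r) := hsub h1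
  have h3 : χ (u z t) = 1 := χ.one_of_mem_closedBall (Metric.ball_subset_closedBall h2)
  refine ⟨hsm'.contDiffAt, ?_, ?_⟩
  · apply hball
    rw [Metric.mem_ball] at h2 ⊢
    have h4 : 4 * r = ε₀ := by rw [hr]; ring
    linarith
  · have h4 := hu z t
    have h5 : Y (u z t) = X (u z t) := by
      show χ (u z t) • X (u z t) = X (u z t)
      rw [h3, one_smul]
    rw [h5] at h4
    exact h4

end Pool.Agent.NCR
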