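import Mathlib

/-! # NCR: global solutions of a compactly supported smooth vector field

PROOF. `X` is bounded by some `L` and globally Lipschitz (`ContDiff.lipschitzWith_of_hasCompactSupport`
or bounded derivative). For every `T > 0` the hypotheses of Picard-Lindelöf hold on `[-T, T]` with the
closed ball of radius `L T` (`IsPicardLindelof`, `exists_eq_forall_mem_Icc_hasDerivWithinAt₀`). The
solutions for different `T` agree (`ODE_solution_unique_of_mem_Icc` or `_Ioo`), so
`u s := u_{|s|+1} s` is a global solution. -/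

set_option autoImplicit false

open Set Filter Topology
open scoped ContDiff

namespace Pool.Agent.NCR

theorem exists_global_sol {F : Type} [NormedAddCommGroup F] [NormedSpace ℝ F]
    [FiniteDimensional ℝ F] {X : F → F} (hX : ContDiff ℝ ∞ X) (hs : HasCompactSupport X) (z : F) :
    ∃ u : ℝ → F, u 0 = z ∧ ∀ s, HasDerivAt u (X (u s)) s := by
  obtain ⟨K, hK⟩ := ContDiff.lipschitzWith_of_hasCompactSupport (𝕂 := ℝ) hs hX (by simp)
  obtain ⟨C, hC⟩ := hs.exists_bound_of_continuous hX.continuous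
  have hC0 : 0 ≤ C := le_trans (norm_nonneg _) (hC 0)
  have hex : ∀ T : ℝ, 0 < T → ∃ α : ℝ → F, α 0 = z ∧
      ∀ t ∈ Ioo (-T) T, HasDerivAt α (X (α t)) t := by
    intro T hT
    have h0 : (0 : ℝ) ∈ Icc (-T) T := ⟨by linarith, hT.le⟩
    have hCT : 0 ≤ C * T := mul_nonneg hC0 hT.le
    have hPL : IsPicardLindelof (fun _ : ℝ => X) (tmin := -T) (tmax := T) ⟨0, h0⟩ z
        ⟨C * T, hCT⟩ 0 ⟨C, hC0⟩ K := by
      refine ⟨fun t _ => hK.lipschitzOnWith, fun x _ => continuousOn_const,
        fun t _ x _ => hC x, ?_⟩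
      have h1 : max (T - 0) (0 - -T) = T := by simp
      show C * max (T - 0) (0 - -T) ≤ C * T - 0
      rw [h1, sub_zero]
    obtain ⟨α, h1, h2⟩ := hPL.exists_eq_forall_mem_Icc_hasDerivWithinAt₀
    refine ⟨α, h1, fun t ht => ?_⟩
    exact (h2 t ⟨ht.1.le, ht.2.le⟩).hasDerivAt (Icc_mem_nhds ht.1 ht.2)
  choose α hα0 hα using hex
  have huniq : ∀ (T T' : ℝ) (hT : 0 < T) (hT' : 0 < T') (s : ℝ), |s| < T → |s| < T' →
      α T hT s = α T' hT' s := by
    intro T T' hT hT' s h1 h2
    have hm : 0 < min T T' := lt_min hT hT'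
    have hsm : |s| < min T T' := lt_min h1 h2
    have := ODE_solution_unique_of_mem_Ioo (v := fun _ : ℝ => X) (s := fun _ => univ) (K := K)
      (a := -(min T T')) (b := min T T') (t₀ := 0) (f := α T hT) (g := α T' hT')
      (fun t _ => hK.lipschitzOnWith) ⟨by linarith, hm⟩
      (fun t ht => ⟨hα T hT t ⟨by linarith [ht.1, min_le_left T T'],
        lt_of_lt_of_le ht.2 (min_le_left _ _)⟩, mem_univ _⟩)
      (fun t ht => ⟨hα T' hT' t ⟨by linarith [ht.1, min_le_right T T'],
        lt_of_lt_of_le ht.2 (min_le_right _ _)⟩, mem_univ _⟩)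
      (by rw [hα0, hα0])
    exact this (abs_lt.1 hsm)
  have hpos : ∀ s : ℝ, 0 < |s| + 1 := fun s => by positivity
  refine ⟨fun s => α (|s| + 1) (hpos s) s, hα0 _ _, fun s => ?_⟩
  have hT : 0 < |s| + 2 := by positivity
  have heq : (fun s => α (|s| + 1) (hpos s) s) =ᶠ[𝓝 s] α (|s| + 2) hT := by
    have hnear : ∀ᶠ r in 𝓝 s, |r| < |s| + 2 := by
      have : ∀ᶠ r in 𝓝 s, |r| < |s| + 2 :=
        (continuous_abs.tendsto s).eventually (gt_mem_nhds (by linarith))
      exact this
    filter_upwards [hnear] with r hr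
    exact huniq _ _ _ _ r (by linarith) hr
  have h1 := hα (|s| + 2) hT s (abs_lt.1 (by linarith))
  have h2 : α (|s| + 1) (hpos s) s = α (|s| + 2) hT s :=
    huniq _ _ _ _ s (by linarith) (by linarith)
  show HasDerivAt (fun s => α (|s| + 1) (hpos s) s) (X (α (|s| + 1) (hpos s) s)) s
  rw [h2]
  exact h1.congr_of_eventuallyEq heq

end Pool.Agent.NCR
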