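import Pool.Agent.NCR.MExist

/-! # NCR: the geodesic with given initial state

All statements follow from `exists_geo` and uniqueness `geo_eqOn` (on `Ioo (-N) N` for all `N`).
`geo_shift`: the shifted curve is a geodesic with the state `(j, y, w)` at `0`.
`geo_smul`: for the lift `y` of `geo i x v` at `0`, `s ↦ y (r * s)` is a lift of the scaled curve with
derivative `r • v` (`geodesicAt_smul`); at other times the same.
`geo_change`: by `GeoLift.change` the curve has also the state `(j, y, fderiv θ x v)` for the change of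
charts `θ` (from `exists_change`); here stated for two states of one geodesic at the time `0`. -/

set_option autoImplicit false

open Set Filter Topology
open scoped ContDiff

namespace Pool.Agent.NCR

open Pool.Agent.NCP (E RMetric)
open Pool.Agent.NCQ (GeodesicAt)

variable {n : ℕ} {ι M : Type} [TopologicalSpace M]

open Classical in
/-- the geodesic with position `x` and velocity `v` in the chart `i` at the time `0` -/
noncomputable def RM.geo (R : RM n ι M) (i : ι) (x v : E n) : ℝ → M :=
  if h : ∃ c : ℝ → M, (∀ t, R.IsGeo c t) ∧ R.State c 0 i x v then h.choose else fun _ => R.q i x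

section

variable [T2Space M] [Finite ι]

theorem RM.geo_isGeo (R : RM n ι M) (i : ι) {x : E n} (hx : x ∈ R.dom) (v : E n) (t : ℝ) :
    R.IsGeo (R.geo i x v) t := by
  have h := R.exists_geo i hx v
  unfold RM.geo
  rw [dif_pos h]
  exact h.choose_spec.1 t

theorem RM.geo_state (R : RM n ι M) (i : ι) {x : E n} (hx : x ∈ R.dom) (v : E n) :
    R.State (R.geo i x v) 0 i x v := by
  have h := R.exists_geo i hx v
  unfold RM.geo
  rw [dif_pos h]
  exact h.choose_spec.2

omit [T2Space M] [Finite ι] in
theorem RM.State.mem_dom {R : RM n ι M} {c : ℝ → M} {t : ℝ} {i : ι} {x v : E n}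
    (h : R.State c t i x v) : x ∈ R.dom ∧ R.q i x = c t := by
  obtain ⟨y, hy, h1, -⟩ := h
  have h2 := hy.1.self_of_nhds
  rw [h1] at h2
  exact ⟨h2.2.1, h2.2.2⟩

theorem RM.geo_zero (R : RM n ι M) (i : ι) {x : E n} (hx : x ∈ R.dom) (v : E n) :
    R.geo i x v 0 = R.q i x :=
  (R.geo_state i hx v).mem_dom.2.symm

omit [T2Space M] [Finite ι] in
private theorem shift_lift {R : RM n ι M} {c : ℝ → M} {a t : ℝ} {i : ι} {y : ℝ → E n}
    (h : R.GeoLift c (a + t) i y) : R.GeoLift (fun s => c (a + s)) t i (fun s => y (a + s)) := by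
  have hcont : Tendsto (fun s : ℝ => a + s) (𝓝 t) (𝓝 (a + t)) :=
    (continuous_const.add continuous_id).tendsto t
  refine ⟨?_, ?_⟩
  · filter_upwards [hcont.eventually h.1] with s hs
    refine ⟨?_, hs.2.1, hs.2.2⟩
    exact ContDiffAt.comp s (g := y) (f := fun s => a + s) hs.1
      (contDiffAt_const.add contDiffAt_id)
  · filter_upwards [hcont.eventually h.2] with s hs
    exact geodesicAt_shift a hs

omit [T2Space M] [Finite ι] in
private theorem scale_lift {R : RM n ι M} {c : ℝ → M} {r t : ℝ} {i : ι} {y : ℝ → E n}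
    (h : R.GeoLift c (r * t) i y) : R.GeoLift (fun s => c (r * s)) t i (fun s => y (r * s)) := by
  have hcont : Tendsto (fun s : ℝ => r * s) (𝓝 t) (𝓝 (r * t)) :=
    (continuous_const.mul continuous_id).tendsto t
  refine ⟨?_, ?_⟩
  · filter_upwards [hcont.eventually h.1] with s hs
    refine ⟨?_, hs.2.1, hs.2.2⟩
    exact ContDiffAt.comp s (g := y) (f := fun s => r * s) hs.1
      (contDiffAt_const.mul contDiffAt_id)
  · filter_upwards [hcont.eventually h.1, hcont.eventually h.2] with s hs1 hs2
    exact R.geodesicAt_smul i r hs1.1 hs1.2.1 hs2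

theorem RM.eq_geo {R : RM n ι M} {c : ℝ → M} (hc : ∀ t, R.IsGeo c t) {t₀ : ℝ} {i : ι} {x v : E n}
    (h : R.State c t₀ i x v) (t : ℝ) : c (t₀ + t) = R.geo i x v t := by
  have hx := h.mem_dom.1
  have h1 : ∀ s, R.IsGeo (fun s => c (t₀ + s)) s := by
    intro s
    obtain ⟨j, y, hy⟩ := hc (t₀ + s)
    exact ⟨j, _, shift_lift hy⟩
  have h2 : R.State (fun s => c (t₀ + s)) 0 i x v := by
    obtain ⟨y, hy, hy1, hy2⟩ := h
    refine ⟨fun s => y (t₀ + s), shift_lift (by rwa [add_zero]), ?_, ?_⟩
    · show y (t₀ + 0) = x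
      rw [add_zero]
      exact hy1
    · rw [deriv_comp_const_add, add_zero]
      exact hy2
  have h3 := R.geo_eqOn (a := -(|t| + 1)) (b := |t| + 1) (t₀ := 0)
    (by constructor <;> linarith [abs_nonneg t]) (fun s _ => h1 s)
    (fun s _ => R.geo_isGeo i hx v s) h2 (R.geo_state i hx v)
  exact h3 (by constructor <;> linarith [neg_abs_le t, le_abs_self t])

theorem RM.geo_smul (R : RM n ι M) (i : ι) {x : E n} (hx : x ∈ R.dom) (v : E n) (r t : ℝ) :
    R.geo i x (r • v) t = R.geo i x v (r * t) := by
  have h1 : ∀ s, R.IsGeo (fun s => R.geo i x v (r * s)) s := by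
    intro s
    obtain ⟨j, y, hy⟩ := R.geo_isGeo i hx v (r * s)
    exact ⟨j, _, scale_lift hy⟩
  have h2 : R.State (fun s => R.geo i x v (r * s)) 0 i x (r • v) := by
    obtain ⟨y, hy, hy1, hy2⟩ := R.geo_state i hx v
    refine ⟨fun s => y (r * s), scale_lift (by rwa [mul_zero]), ?_, ?_⟩
    · show y (r * 0) = x
      rw [mul_zero]
      exact hy1
    · rw [deriv_comp_mul_left, mul_zero, hy2]
  have h3 := RM.eq_geo h1 h2 t
  rw [zero_add] at h3
  exact h3.symm

/-- shift and change of chart at the same time -/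
theorem RM.geo_shift (R : RM n ι M) (i : ι) {x : E n} (hx : x ∈ R.dom) (v : E n) {s : ℝ} {j : ι}
    {y w : E n} (h : R.State (R.geo i x v) s j y w) (t : ℝ) :
    R.geo i x v (s + t) = R.geo j y w t :=
  RM.eq_geo (R.geo_isGeo i hx v) h t

end

end Pool.Agent.NCR
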