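import Pool.Agent.NCQ.PolarInv

/-! # NCR: the gluing condition for two vectors

PROOF. Polarisation: `g.glue` for `v + w`, `v`, `w`; expand with `g.add_left`, `g.symm` (additivity in the
second argument follows from `symm`), `map_add` for the derivatives. -/

set_option autoImplicit false

open Set Filter Topology
open scoped ContDiff

namespace Pool.Agent.NCR

open Pool.Agent.NCQ

variable {A : Matrix.SpecialLinearGroup (Fin 2) ℤ}

private theorem form_add_right (g : GMMetric A) (i : Fin 2) (x v w w' : ℂ × ℝ) :
    g.form i x v (w + w') = g.form i x v w + g.form i x v w' := by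
  rw [g.symm i x v (w + w'), g.add_left, g.symm i x w v, g.symm i x w' v]

private theorem form_add_self (g : GMMetric A) (i : Fin 2) (x v w : ℂ × ℝ) :
    g.form i x (v + w) (v + w) = g.form i x v v + 2 * g.form i x v w + g.form i x w w := by
  rw [g.add_left, form_add_right, form_add_right, g.symm i x w v]
  ring

theorem glue_bil (g : GMMetric A) {y : ℝ × ℝ × ℝ} (h0 : 0 < y.1) (h1 : y.1 < 1 / 4)
    (v w : ℝ × ℝ × ℝ) :
    g.form 0 (polar y) (fderiv ℝ polar y v) (fderiv ℝ polar y w) =
      g.form 1 (polar (flip A y)) (fderiv ℝ (fun z => polar (flip A z)) y v)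
        (fderiv ℝ (fun z => polar (flip A z)) y w) := by
  have h1' := g.glue y (v + w) h0 h1
  have h2' := g.glue y v h0 h1
  have h3' := g.glue y w h0 h1
  rw [map_add, map_add, form_add_self, form_add_self] at h1'
  linarith

end Pool.Agent.NCR
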