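import Pool.Agent.NCR.Pull

/-! # NCR: continuous lifts through a local diffeomorphism are smooth local isometries

PROOF. `lift_smooth`: let `X` be a lift of `f` at `y p`, by `Lift.change` in the chart `j` with
`X (y p) = x p`. Near `p`, `q j (X (y r)) = f (y r) = α r = q j (x r)`, both arguments are near `x p`, so
`X (y r) = x r` (local injectivity of `q j`; `y` is continuous at `p`). `X` has a smooth local inverse
`Y` at `x p` (inverse function theorem) and `y r = Y (x r)` near `p` (because `y r → y p`). The identity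
of forms is `pull_form` and the chain rule `fderiv x p = fderiv X (y p) ∘ fderiv y p`.
`comp_smooth`: apply it with `P = E n`, `α = h`. Injectivity of `fderiv ℝ e u` follows from the form
identity and positivity. -/

set_option autoImplicit false

open Set Filter Topology
open scoped ContDiff

namespace Pool.Agent.NCR

open Pool.Agent.NCP (E RMetric)
open Pool.Agent.NCQ (GeodesicAt)

variable {n : ℕ} {ι M : Type} [TopologicalSpace M]

private theorem smooth_local_inv {X : E n → E n} {u : E n} (hX : ContDiffAt ℝ ∞ X u)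
    (hinj : Function.Injective (fderiv ℝ X u)) :
    ∃ Y : E n → E n, ContDiffAt ℝ ∞ Y (X u) ∧ ∀ᶠ z in 𝓝 u, Y (X z) = z := by
  have hb : Function.Bijective (fderiv ℝ X u : E n →ₗ[ℝ] E n) :=
    ⟨hinj, LinearMap.injective_iff_surjective.mp hinj⟩
  let f' : E n ≃L[ℝ] E n :=
    (LinearEquiv.ofBijective (fderiv ℝ X u : E n →ₗ[ℝ] E n) hb).toContinuousLinearEquiv
  have hf' : HasFDerivAt X (f' : E n →L[ℝ] E n) u := by
    have h1 : (f' : E n →L[ℝ] E n) = fderiv ℝ X u := by
      ext1 v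
      rfl
    rw [h1]
    exact (hX.differentiableAt (by simp)).hasFDerivAt
  have hn : (∞ : WithTop ℕ∞) ≠ 0 := by simp
  refine ⟨hX.localInverse hf' hn, hX.to_localInverse hf' hn, ?_⟩
  exact (hX.hasStrictFDerivAt' hf' hn).eventually_left_inverse

theorem RM.lift_smooth {R : RM n ι M} {f : E n → M} (hf : R.LocDiff f) {P : Type}
    [NormedAddCommGroup P] [NormedSpace ℝ P] {α : P → M} {p : P} {j : ι} {x : P → E n}
    (h : R.Lift α p j x) {y : P → E n} (hy : ∀ᶠ r in 𝓝 p, ContinuousAt y r ∧ f (y r) = α r) :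
    ContDiffAt ℝ ∞ y p ∧ ∀ v w : P,
      (RM.pull hf).form (y p) (fderiv ℝ y p v) (fderiv ℝ y p w) =
        R.G j (x p) (fderiv ℝ x p v) (fderiv ℝ x p w) := by
  obtain ⟨hx1, hx2, hx3⟩ := h.self_of_nhds
  obtain ⟨hy1, hy2⟩ := hy.self_of_nhds
  obtain ⟨j0, X0, hX0⟩ := hf.lift (y p)
  obtain ⟨θ, _, hθ2, _, hX⟩ := hX0.change hx2 (hx3.trans hy2.symm)
  set X : E n → E n := fun r => θ (X0 r) with hXdef
  have hXp : X (y p) = x p := hθ2
  obtain ⟨hXc, _, _⟩ := hX.self_of_nhds
  have hinj := hf.inj (y p) j X hX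
  obtain ⟨Y, hY1, hY2⟩ := smooth_local_inv hXc hinj
  obtain ⟨U, hU, hUinj⟩ := R.locInj j (x p) hx2
  -- `X ∘ y = x` near `p`
  have hev : ∀ᶠ r in 𝓝 p, X (y r) = x r := by
    have e1 : ∀ᶠ r in 𝓝 p, R.q j (X (y r)) = f (y r) := by
      have := hy1.eventually hX
      filter_upwards [this] with r hr using hr.2.2
    have e2 : ∀ᶠ r in 𝓝 p, X (y r) ∈ U := by
      have hc : ContinuousAt (fun r => X (y r)) p := by
        apply ContinuousAt.comp (g := X) (f := y) hXc.continuousAt hy1
      have hU2 : U ∈ 𝓝 ((fun r => X (y r)) p) := by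
        change U ∈ 𝓝 (X (y p))
        rw [hXp]
        exact hU
      exact hc.eventually hU2
    have e3 : ∀ᶠ r in 𝓝 p, x r ∈ U := hx1.continuousAt.eventually hU
    filter_upwards [e1, e2, e3, hy, h] with r h1 h2 h3 h4 h5
    apply hUinj h2 h3
    rw [h1, h4.2, h5.2.2]
  have hyx : ∀ᶠ r in 𝓝 p, y r = Y (x r) := by
    have e1 : ∀ᶠ r in 𝓝 p, Y (X (y r)) = y r := hy1.eventually hY2
    filter_upwards [e1, hev] with r h1 h2
    rw [← h2, h1]
  have hys : ContDiffAt ℝ ∞ y p := by
    have h1 : ContDiffAt ℝ ∞ (fun r => Y (x r)) p := by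
      apply ContDiffAt.comp (g := Y) (f := x) p _ hx1
      rw [← hXp]
      exact hY1
    exact h1.congr_of_eventuallyEq hyx
  refine ⟨hys, fun v w => ?_⟩
  rw [RM.pull_form hf hX, hXp]
  have hd : fderiv ℝ x p = (fderiv ℝ X (y p)).comp (fderiv ℝ y p) := by
    have h1 : fderiv ℝ x p = fderiv ℝ (fun r => X (y r)) p :=
      Filter.EventuallyEq.fderiv_eq (hev.mono fun r hr => hr.symm)
    rw [h1]
    exact fderiv_comp p (hXc.differentiableAt (by simp)) (hys.differentiableAt (by simp))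
  rw [hd]
  rfl

theorem RM.comp_smooth {R : RM n ι M} {f h : E n → M} (hf : R.LocDiff f) (hh : R.LocDiff h)
    {e : E n → E n} (he : Continuous e) (hfe : ∀ u, f (e u) = h u) :
    ContDiff ℝ ∞ e ∧ (∀ u, Function.Injective (fderiv ℝ e u)) ∧ ∀ u w w',
      (RM.pull hf).form (e u) (fderiv ℝ e u w) (fderiv ℝ e u w') = (RM.pull hh).form u w w' := by
  have key : ∀ u : E n, ContDiffAt ℝ ∞ e u ∧ ∀ w w',
      (RM.pull hf).form (e u) (fderiv ℝ e u w) (fderiv ℝ e u w') = (RM.pull hh).form u w w' := by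
    intro u
    obtain ⟨j, x, hx⟩ := hh.lift u
    obtain ⟨h1, h2⟩ := RM.lift_smooth hf hx
      (Filter.Eventually.of_forall fun r => ⟨he.continuousAt, hfe r⟩)
    refine ⟨h1, fun w w' => ?_⟩
    rw [h2, RM.pull_form hh hx]
  refine ⟨contDiff_iff_contDiffAt.mpr fun u => (key u).1, fun u => ?_, fun u => (key u).2⟩
  rw [injective_iff_map_eq_zero]
  intro w hw
  by_contra hne
  have h1 := (RM.pull hh).pos u w hne
  rw [← (key u).2 w w, hw] at h1
  simp at h1

end Pool.Agent.NCR
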