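import Pool.Agent.NCR.Spray
import Pool.Agent.NCR.Flow

/-! # NCR: the local geodesic flow in a chart

PROOF. `S` from `exists_spray` for `G = R.G i`, `U = R.dom`. Apply `exists_local_flow` to the vector
field `X (x, v) = (v, S (x, v))` on `O = R.dom ×ˢ univ`; `ψ z t = (Φ z t).1`. Then
`deriv (ψ z) t = (Φ z t).2` for `|t| < ε` and `deriv (deriv (ψ z)) t = S (ψ z t, deriv (ψ z) t)`
(the first derivative formula holds near `t`). -/

set_option autoImplicit false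

open Set Filter Topology
open scoped ContDiff

namespace Pool.Agent.NCR

open Pool.Agent.NCP (E RMetric)
open Pool.Agent.NCQ (GeodesicAt)

variable {n : ℕ} {ι M : Type} [TopologicalSpace M]

theorem RM.exists_loc_geo (R : RM n ι M) (i : ι) {x₀ : E n} (hx₀ : x₀ ∈ R.dom) (v₀ : E n) :
    ∃ ε > (0 : ℝ), ∃ W : Set (E n × E n), IsOpen W ∧ (x₀, v₀) ∈ W ∧
      ∃ ψ : E n × E n → ℝ → E n, ∀ z ∈ W, ψ z 0 = z.1 ∧ deriv (ψ z) 0 = z.2 ∧
        ∀ t ∈ Ioo (-ε) ε, ContDiffAt ℝ ∞ (fun p : (E n × E n) × ℝ => ψ p.1 p.2) (z, t) ∧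
          ψ z t ∈ R.dom ∧ GeodesicAt (R.gm i) (ψ z) t := by
  obtain ⟨S, hS, -, hgeo⟩ := exists_spray (R.G i) (U := R.dom) (R.smooth i) (R.symm i) (R.pos i)
  obtain ⟨ε, hε, W, hW, hzW, Φ, hΦ, hΦ0⟩ := exists_local_flow
    (X := fun z : E n × E n => (z.2, S z)) (O := R.dom ×ˢ univ)
    (R.isOpen_dom.prod isOpen_univ)
    (by
      rintro ⟨x, v⟩ hz
      exact contDiffAt_snd.prodMk (hS x hz.1 v))
    (z₀ := (x₀, v₀)) ⟨hx₀, mem_univ _⟩
  refine ⟨ε, hε, W, hW, hzW, fun z t => (Φ z t).1, fun z hz => ?_⟩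
  have hd1 : ∀ t ∈ Ioo (-ε) ε, HasDerivAt (fun s => (Φ z s).1) (Φ z t).2 t := by
    intro t ht
    exact (hΦ z hz t ht).2.2.fst
  have hd2 : ∀ t ∈ Ioo (-ε) ε, HasDerivAt (fun s => (Φ z s).2) (S (Φ z t)) t := by
    intro t ht
    exact (hΦ z hz t ht).2.2.snd
  have h0 : (0 : ℝ) ∈ Ioo (-ε) ε := ⟨by linarith, hε⟩
  refine ⟨?_, ?_, ?_⟩
  · simp only [hΦ0 z hz]
  · rw [(hd1 0 h0).deriv, hΦ0 z hz]
  · intro t ht
    have hc : ContDiffAt ℝ ∞ (fun p : (E n × E n) × ℝ => (Φ p.1 p.2).1) (z, t) :=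
      contDiffAt_fst.comp (z, t) (hΦ z hz t ht).1
    have hc2 : ContDiffAt ℝ 2 (fun s => (Φ z s).1) t := by
      have h1 : ContDiffAt ℝ ∞ (fun s : ℝ => ((z, s) : (E n × E n) × ℝ)) t :=
        contDiffAt_const.prodMk contDiffAt_id
      exact (ContDiffAt.comp t hc h1).of_le ENat.LEInfty.out
    refine ⟨hc, (hΦ z hz t ht).2.1.1, ?_⟩
    refine (hgeo (fun s => (Φ z s).1) t hc2 (hΦ z hz t ht).2.1.1).2 ?_
    have he : deriv (fun s => (Φ z s).1) =ᶠ[𝓝 t] fun s => (Φ z s).2 := by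
      filter_upwards [isOpen_Ioo.mem_nhds ht] with s hs
      exact (hd1 s hs).deriv
    rw [he.deriv_eq, (hd2 t ht).deriv, he.self_of_nhds]

end Pool.Agent.NCR
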