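import Mathlib

/-! # NCR: uniqueness of solutions near a point

PROOF. `X` is `C¹` at `u t₀`, hence Lipschitz near `u t₀`
(`ContDiffAt.exists_lipschitzOnWith`); `u`, `u'` are continuous at `t₀`, so near `t₀` they have
values in that neighbourhood; `ODE_solution_unique_of_eventually`. -/

set_option autoImplicit false

open Set Filter Topology
open scoped ContDiff

namespace Pool.Agent.NCR

theorem sol_unique {F : Type} [NormedAddCommGroup F] [NormedSpace ℝ F] {X : F → F} {u u' : ℝ → F}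
    {t₀ : ℝ} (hX : ContDiffAt ℝ 1 X (u t₀)) (hu : ∀ᶠ t in 𝓝 t₀, HasDerivAt u (X (u t)) t)
    (hu' : ∀ᶠ t in 𝓝 t₀, HasDerivAt u' (X (u' t)) t) (h : u t₀ = u' t₀) :
    ∀ᶠ t in 𝓝 t₀, u t = u' t := by
  obtain ⟨K, s, hs, hL⟩ := hX.exists_lipschitzOnWith
  have hc : ContinuousAt u t₀ := hu.self_of_nhds.continuousAt
  have hc' : ContinuousAt u' t₀ := hu'.self_of_nhds.continuousAt
  have h1 : ∀ᶠ t in 𝓝 t₀, u t ∈ s := hc hs
  have h2 : ∀ᶠ t in 𝓝 t₀, u' t ∈ s := hc' (h ▸ hs)
  exact ODE_solution_unique_of_eventually (v := fun _ => X) (s := fun _ => s) (K := K)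
    (Filter.Eventually.of_forall fun _ => hL) (hu.and h1) (hu'.and h2) h

end Pool.Agent.NCR
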