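import Pool.Agent.NCR.Spray
import Pool.Agent.NCR.SolUniq

/-! # NCR: local uniqueness of geodesics in a chart

PROOF. `u = (y, deriv y)` and `u' = (y', deriv y')` solve `u' = X u` near `t₀`,
`X (x, v) = (v, S (x, v))`, `S` from `exists_spray`. Use `sol_unique`. -/

set_option autoImplicit false

open Set Filter Topology
open scoped ContDiff

namespace Pool.Agent.NCR

open Pool.Agent.NCP (E RMetric)
open Pool.Agent.NCQ (GeodesicAt)

variable {n : ℕ} {ι M : Type} [TopologicalSpace M]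

private theorem two_le_infty : (2 : WithTop ℕ∞) ≤ ∞ :=
  (WithTop.coe_le_coe (a := ⊤) (b := (2 : ℕ∞))).mpr le_top

private theorem one_add_one_le_infty : (1 : WithTop ℕ∞) + 1 ≤ ∞ := by
  rw [one_add_one_eq_two]
  exact two_le_infty

private theorem hasDerivAt_pair {n : ℕ} {y : ℝ → E n} {s : ℝ} (h : ContDiffAt ℝ ∞ y s) :
    HasDerivAt (fun t => (y t, deriv y t)) (deriv y s, deriv (deriv y) s) s := by
  have h1 : ContDiffAt ℝ 1 y s := h.of_le (by exact_mod_cast le_top)
  have h2 : ContDiffAt ℝ 1 (deriv y) s :=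
    ContDiffAt.derivWithin (n := ∞) h one_add_one_le_infty
  exact (h1.differentiableAt one_ne_zero).hasDerivAt.prodMk
    (h2.differentiableAt one_ne_zero).hasDerivAt

theorem RM.geo_unique_chart (R : RM n ι M) (i : ι) {y y' : ℝ → E n} {t₀ : ℝ}
    (hy : ∀ᶠ s in 𝓝 t₀, ContDiffAt ℝ ∞ y s ∧ y s ∈ R.dom ∧ GeodesicAt (R.gm i) y s)
    (hy' : ∀ᶠ s in 𝓝 t₀, ContDiffAt ℝ ∞ y' s ∧ y' s ∈ R.dom ∧ GeodesicAt (R.gm i) y' s)
    (h0 : y t₀ = y' t₀) (h1 : deriv y t₀ = deriv y' t₀) : ∀ᶠ s in 𝓝 t₀, y s = y' s := by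
  obtain ⟨S, hS1, -, hS3⟩ := exists_spray (R.G i) (R.smooth i) (R.symm i) (R.pos i)
  have hd : y t₀ ∈ R.dom := hy.self_of_nhds.2.1
  have hX : ContDiffAt ℝ 1 (fun p : E n × E n => (p.2, S p)) (y t₀, deriv y t₀) :=
    contDiffAt_snd.prodMk ((hS1 _ hd _).of_le (by exact_mod_cast le_top))
  have key : ∀ z : ℝ → E n,
      (∀ᶠ s in 𝓝 t₀, ContDiffAt ℝ ∞ z s ∧ z s ∈ R.dom ∧ GeodesicAt (R.gm i) z s) →
      ∀ᶠ s in 𝓝 t₀, HasDerivAt (fun t => (z t, deriv z t))
        ((fun p : E n × E n => (p.2, S p)) ((fun t => (z t, deriv z t)) s)) s := by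
    intro z hz
    filter_upwards [hz] with s hs
    have e := (hS3 z s (hs.1.of_le two_le_infty) hs.2.1).mp hs.2.2
    have h2 := hasDerivAt_pair hs.1
    rw [e] at h2
    exact h2
  have h2 := sol_unique (u := fun t => (y t, deriv y t)) (u' := fun t => (y' t, deriv y' t))
    hX (key y hy) (key y' hy') (by simp only [h0, h1])
  filter_upwards [h2] with s hs
  exact congrArg Prod.fst hs

/-- scaling: `s ↦ y (r * s)` is a geodesic -/
theorem RM.geodesicAt_smul (R : RM n ι M) (i : ι) {y : ℝ → E n} (r : ℝ) {t : ℝ}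
    (hy : ContDiffAt ℝ ∞ y (r * t)) (hd : y (r * t) ∈ R.dom) (h : GeodesicAt (R.gm i) y (r * t)) :
    GeodesicAt (R.gm i) (fun s => y (r * s)) t := by
  obtain ⟨S, hS1, hS2, hS3⟩ := exists_spray (R.G i) (R.smooth i) (R.symm i) (R.pos i)
  have hy2 : ContDiffAt ℝ 2 y (r * t) := hy.of_le two_le_infty
  have e := (hS3 y (r * t) hy2 hd).mp h
  have hc : ContDiffAt ℝ 2 (fun s => y (r * s)) t :=
    ContDiffAt.comp (f := fun s : ℝ => r * s) t hy2 (contDiffAt_const.mul contDiffAt_id)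
  have hd1 : deriv (fun s => y (r * s)) = fun s => r • deriv y (r * s) := by
    funext s
    exact deriv_comp_mul_left r y s
  have hd2 : deriv (deriv (fun s => y (r * s))) t = r ^ 2 • deriv (deriv y) (r * t) := by
    rw [hd1]
    have e1 : deriv (fun s => r • deriv y (r * s)) t = r • deriv (fun s => deriv y (r * s)) t := by
      have e2 := deriv_const_smul_field (x := t) (f := fun s => deriv y (r * s)) r
      exact e2
    rw [e1, deriv_comp_mul_left r (deriv y) t, smul_smul, pow_two]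
  refine (hS3 (fun s => y (r * s)) t hc hd).mpr ?_
  rw [hd2, hd1, hS2 _ hd, e]

/-- shift -/
theorem geodesicAt_shift {n : ℕ} {g : E n → E n → E n → ℝ} {y : ℝ → E n} (a : ℝ) {t : ℝ}
    (h : GeodesicAt g y (a + t)) : GeodesicAt g (fun s => y (a + s)) t := by
  intro w
  have hd : deriv (fun s => y (a + s)) = fun s => deriv y (a + s) := by
    funext s
    exact deriv_comp_const_add y a s
  have h1 := h w
  rw [hd]
  have e := deriv_comp_const_add (fun t' => g (y t') (deriv y t') w) a t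
  exact e.trans h1

end Pool.Agent.NCR
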