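import Pool.Agent.NCR.GeoChange
import Pool.Agent.NCR.LocUniq

/-! # NCR: uniqueness of geodesics in `M`

PROOF. `T = {t ∈ (a, b) | c = c' near t}` is open, contains `t₀` (`geo_unique_chart`).
Let `t* ∈ (a, b)` be in the closure of `T`. By continuity and `T2Space`, `c t* = c' t*`. Take geodesic
lifts of `c` and `c'` near `t*` in the same chart `i` with the same value at `t*`
(`GeoLift.change`); call them `y`, `y'`. For `t ∈ T` near `t*` local injectivity of `q i` near
`y t*` gives `y = y'` near `t` (`y`, `y'` are continuous), so the derivatives agree at such `t`;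
by continuity `deriv y t* = deriv y' t*`. So `y = y'` near `t*` and `t* ∈ T`.
`Ioo a b` is connected. -/

set_option autoImplicit false

open Set Filter Topology
open scoped ContDiff

namespace Pool.Agent.NCR

open Pool.Agent.NCP (E RMetric)
open Pool.Agent.NCQ (GeodesicAt)

variable {n : ℕ} {ι M : Type} [TopologicalSpace M]

private theorem muniq_cont_deriv {n : ℕ} {y : ℝ → E n} {s : ℝ} (h : ContDiffAt ℝ ∞ y s) :
    ContinuousAt (deriv y) s := by
  have h0 : (1 : WithTop ℕ∞) + 1 ≤ ∞ := by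
    rw [one_add_one_eq_two]
    exact (WithTop.coe_le_coe (a := ⊤) (b := (2 : ℕ∞))).mpr le_top
  have h2 : ContDiffAt ℝ 1 (deriv y) s := ContDiffAt.derivWithin (n := ∞) h h0
  exact h2.continuousAt

/-- two geodesic lifts to the same chart with the same state -/
private theorem muniq_step {R : RM n ι M} {c c' : ℝ → M} {t : ℝ} {i : ι} {y y' : ℝ → E n}
    (h : R.GeoLift c t i y) (h' : R.GeoLift c' t i y') (h0 : y t = y' t)
    (h1 : deriv y t = deriv y' t) : ∀ᶠ s in 𝓝 t, c s = c' s := by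
  have key := R.geo_unique_chart i (y := y) (y' := y') (t₀ := t)
    (by filter_upwards [h.1, h.2] with s hs hs'
        exact ⟨hs.1, hs.2.1, hs'⟩)
    (by filter_upwards [h'.1, h'.2] with s hs hs'
        exact ⟨hs.1, hs.2.1, hs'⟩) h0 h1
  filter_upwards [key, h.1, h'.1] with s hs hs1 hs2
  rw [← hs1.2.2, ← hs2.2.2, hs]

theorem RM.geo_eqOn [T2Space M] {R : RM n ι M} {c c' : ℝ → M} {a b t₀ : ℝ} (ht₀ : t₀ ∈ Ioo a b)
    (hc : ∀ t ∈ Ioo a b, R.IsGeo c t) (hc' : ∀ t ∈ Ioo a b, R.IsGeo c' t) {i : ι} {x v : E n}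
    (h : R.State c t₀ i x v) (h' : R.State c' t₀ i x v) : EqOn c c' (Ioo a b) := by
  have hT : IsOpen {t : ℝ | ∀ᶠ s in 𝓝 t, c s = c' s} := isOpen_setOfPred_eventually_nhds
  have hsub : Ioo a b ⊆ {t : ℝ | ∀ᶠ s in 𝓝 t, c s = c' s} := by
    refine isPreconnected_Ioo.subset_of_closure_inter_subset hT ⟨t₀, ht₀, ?_⟩ ?_
    · obtain ⟨y, hy, hy0, hy1⟩ := h
      obtain ⟨y', hy', hy0', hy1'⟩ := h'
      exact muniq_step hy hy' (hy0.trans hy0'.symm) (hy1.trans hy1'.symm)
    · rintro t ⟨htcl, ht⟩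
      have hfr : ∃ᶠ s in 𝓝 t, ∀ᶠ r in 𝓝 s, c r = c' r := mem_closure_iff_frequently.1 htcl
      obtain ⟨j, y, hy⟩ := hc t ht
      obtain ⟨j', z, hz⟩ := hc' t ht
      have hcc : ContinuousAt c t := hy.1.continuousAt
      have hcc' : ContinuousAt c' t := hz.1.continuousAt
      have heq : c t = c' t := tendsto_nhds_unique_of_frequently_eq hcc hcc'
        (hfr.mono fun s hs => hs.self_of_nhds)
      have hyt := hy.1.self_of_nhds
      obtain ⟨y', hy', hy0⟩ := hz.change hyt.2.1 (hyt.2.2.trans heq)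
      have hyt' := hy'.1.self_of_nhds
      obtain ⟨U, hU, hinj⟩ := R.locInj j (y t) hyt.2.1
      have e1 : ∀ᶠ s in 𝓝 t, y s ∈ U := hyt.1.continuousAt hU
      have e2 : ∀ᶠ s in 𝓝 t, y' s ∈ U := hyt'.1.continuousAt (by rw [hy0]; exact hU)
      have e3 : ∀ᶠ s in 𝓝 t, (y s ∈ U ∧ y' s ∈ U) ∧ R.q j (y s) = c s ∧ R.q j (y' s) = c' s := by
        filter_upwards [e1, e2, hy.1, hy'.1] with s h1 h2 h3 h4
        exact ⟨⟨h1, h2⟩, h3.2.2, h4.2.2⟩
      have e4 := e3.eventually_nhds
      have hder : ∃ᶠ s in 𝓝 t, deriv y s = deriv y' s := by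
        refine (hfr.and_eventually e4).mono ?_
        rintro s ⟨h1, h2⟩
        apply Filter.EventuallyEq.deriv_eq
        filter_upwards [h1, h2] with r hr1 hr2
        refine hinj hr2.1.1 hr2.1.2 ?_
        rw [hr2.2.1, hr2.2.2, hr1]
      have hd : deriv y t = deriv y' t :=
        tendsto_nhds_unique_of_frequently_eq (muniq_cont_deriv hyt.1) (muniq_cont_deriv hyt'.1)
          hder
      exact muniq_step hy hy' hy0.symm hd
  intro t ht
  exact (hsub ht).self_of_nhds

end Pool.Agent.NCR
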