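import Pool.Agent.NCR.GeoChange
import Pool.Agent.NCR.LocGeo

/-! # NCR: uniform existence time

PROOF. The set `Z = {(x, v) | x ∈ K, G i x v v ≤ e}` is compact for every `i` (lower bound
`m ‖v‖² ≤ G i x v v` on `K` by compactness of `K ×ˢ sphere`). `exists_loc_geo` gives a uniform `ε` on a
neighbourhood of every point of `Z`; `Z` is covered by finitely many of them, and `ι` is finite.
For a general state `(i, x, v)`, `x ∈ dom`, choose `j`, `y ∈ K` with `q j y = q i x` (`cover`), `θ` as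
in `exists_change` from `(i, x)` to `(j, y)`, `w = fderiv θ x v`; then `G j y w w = G i x v v ≤ e`;
`c t = q j (ψ (y, w) t)` has `State c 0 j y w`, and `fun t => θ' (ψ (y, w) t)` is a lift to the chart
`i` with value `x` and derivative `v` at `0` (`GeoLift.of_lift`). -/

set_option autoImplicit false

open Set Filter Topology
open scoped ContDiff

namespace Pool.Agent.NCR

open Pool.Agent.NCP (E RMetric)
open Pool.Agent.NCQ (GeodesicAt)

variable {n : ℕ} {ι M : Type} [TopologicalSpace M]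

/-- uniform existence time for the states over `K` in one chart -/
private theorem time_aux (R : RM n ι M) (e : ℝ) (i : ι) : ∃ ε > (0 : ℝ), ∀ z : E n × E n,
    z.1 ∈ R.K → R.G i z.1 z.2 z.2 ≤ e → ∃ ψ : ℝ → E n, ψ 0 = z.1 ∧ deriv ψ 0 = z.2 ∧
      ∀ t ∈ Ioo (-ε) ε, ContDiffAt ℝ ∞ ψ t ∧ ψ t ∈ R.dom ∧ GeodesicAt (R.gm i) ψ t := by
  -- continuity of the metric
  have hcont : ContinuousOn (fun z : E n × E n => R.G i z.1 z.2 z.2) (R.K ×ˢ univ) := by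
    intro z hz
    have h1 : ContinuousAt (R.G i) z.1 := (R.smooth i _ (R.K_sub hz.1)).continuousAt
    have h2 : ContinuousAt (fun z : E n × E n => R.G i z.1) z :=
      ContinuousAt.comp (f := fun z : E n × E n => z.1) h1 continuousAt_fst
    exact ((h2.clm_apply continuousAt_snd).clm_apply continuousAt_snd).continuousWithinAt
  -- lower bound
  obtain ⟨m, hm, hlow⟩ : ∃ m > (0 : ℝ), ∀ x ∈ R.K, ∀ u : E n, ‖u‖ = 1 → m ≤ R.G i x u u := by
    have hc : IsCompact (R.K ×ˢ (Metric.sphere (0 : E n) 1)) :=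
      R.isCompact_K.prod (isCompact_sphere _ _)
    by_cases hne : (R.K ×ˢ (Metric.sphere (0 : E n) 1)).Nonempty
    · obtain ⟨z, hz, hmin⟩ := hc.exists_isMinOn hne
        (hcont.mono (prod_mono subset_rfl (subset_univ _)))
      refine ⟨R.G i z.1 z.2 z.2, R.pos i _ (R.K_sub hz.1) _ ?_, ?_⟩
      · intro h0
        have := hz.2
        rw [h0] at this
        simp at this
      · intro x hx u hu
        exact hmin (show (x, u) ∈ R.K ×ˢ (Metric.sphere (0 : E n) 1) from ⟨hx, by simpa using hu⟩)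
    · refine ⟨1, one_pos, fun x hx u hu => ?_⟩
      exact absurd ⟨(x, u), hx, by simpa using hu⟩ hne
  set r : ℝ := 1 + |e| / m with hr
  -- the compact set of states
  have hB : IsCompact (R.K ×ˢ Metric.closedBall (0 : E n) r) :=
    R.isCompact_K.prod (isCompact_closedBall _ _)
  set Z : Set (E n × E n) := (R.K ×ˢ Metric.closedBall (0 : E n) r) ∩
    (fun z : E n × E n => R.G i z.1 z.2 z.2) ⁻¹' Iic e with hZ
  have hZc : IsCompact Z := by
    refine hB.of_isClosed_subset ?_ inter_subset_left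
    exact (hcont.mono (prod_mono subset_rfl (subset_univ _))).preimage_isClosed_of_isClosed
      hB.isClosed isClosed_Iic
  have hmain : ∃ ε > (0 : ℝ), ∀ z ∈ Z, ∃ ψ : ℝ → E n, ψ 0 = z.1 ∧ deriv ψ 0 = z.2 ∧
      ∀ t ∈ Ioo (-ε) ε, ContDiffAt ℝ ∞ ψ t ∧ ψ t ∈ R.dom ∧ GeodesicAt (R.gm i) ψ t := by
    refine hZc.induction_on (p := fun S : Set (E n × E n) => ∃ ε > (0 : ℝ), ∀ z ∈ S,
      ∃ ψ : ℝ → E n, ψ 0 = z.1 ∧ deriv ψ 0 = z.2 ∧
      ∀ t ∈ Ioo (-ε) ε, ContDiffAt ℝ ∞ ψ t ∧ ψ t ∈ R.dom ∧ GeodesicAt (R.gm i) ψ t) ?_ ?_ ?_ ?_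
    · exact ⟨1, one_pos, fun z hz => absurd hz (notMem_empty z)⟩
    · rintro s t hst ⟨ε, hε, h⟩
      exact ⟨ε, hε, fun z hz => h z (hst hz)⟩
    · rintro s t ⟨ε, hε, h⟩ ⟨ε', hε', h'⟩
      refine ⟨min ε ε', lt_min hε hε', fun z hz => ?_⟩
      rcases hz with hz | hz
      · obtain ⟨ψ, h1, h2, h3⟩ := h z hz
        refine ⟨ψ, h1, h2, fun t ht => h3 t ⟨?_, ?_⟩⟩
        · have := min_le_left ε ε'; linarith [ht.1]
        · have := min_le_left ε ε'; linarith [ht.2]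
      · obtain ⟨ψ, h1, h2, h3⟩ := h' z hz
        refine ⟨ψ, h1, h2, fun t ht => h3 t ⟨?_, ?_⟩⟩
        · have := min_le_right ε ε'; linarith [ht.1]
        · have := min_le_right ε ε'; linarith [ht.2]
    · rintro z hz
      obtain ⟨ε, hε, W, hW, hzW, ψ, hψ⟩ := R.exists_loc_geo i (R.K_sub hz.1.1) z.2
      refine ⟨W, mem_nhdsWithin_of_mem_nhds (hW.mem_nhds hzW), ε, hε, fun z' hz' => ?_⟩
      obtain ⟨h1, h2, h3⟩ := hψ z' hz'
      refine ⟨ψ z', h1, h2, fun t ht => ?_⟩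
      obtain ⟨h4, h5, h6⟩ := h3 t ht
      refine ⟨?_, h5, h6⟩
      have h7 : ContDiffAt ℝ ∞ (fun s : ℝ => ((z', s) : (E n × E n) × ℝ)) t :=
        contDiffAt_const.prodMk contDiffAt_id
      exact ContDiffAt.comp (g := fun p : (E n × E n) × ℝ => ψ p.1 p.2)
        (f := fun s : ℝ => ((z', s) : (E n × E n) × ℝ)) t h4 h7
  obtain ⟨ε, hε, h⟩ := hmain
  refine ⟨ε, hε, fun z hz he => h z ⟨⟨hz, ?_⟩, he⟩⟩
  rw [mem_closedBall_zero_iff]
  have hem : 0 ≤ |e| / m := by positivity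
  by_cases hv : z.2 = 0
  · rw [hv, norm_zero]
    linarith
  have hv' : 0 < ‖z.2‖ := norm_pos_iff.mpr hv
  have h1 := hlow z.1 hz (‖z.2‖⁻¹ • z.2) (by
    rw [norm_smul, norm_inv, norm_norm, inv_mul_cancel₀ hv'.ne'])
  have h2 : R.G i z.1 (‖z.2‖⁻¹ • z.2) (‖z.2‖⁻¹ • z.2) = ‖z.2‖⁻¹ ^ 2 * R.G i z.1 z.2 z.2 := by
    simp only [map_smul, _root_.smul_apply, smul_eq_mul]
    ring
  rw [h2] at h1
  have h3 : m * ‖z.2‖ ^ 2 ≤ |e| := by
    have h4 : m * ‖z.2‖ ^ 2 ≤ (‖z.2‖⁻¹ ^ 2 * R.G i z.1 z.2 z.2) * ‖z.2‖ ^ 2 :=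
      mul_le_mul_of_nonneg_right h1 (by positivity)
    have h5 : (‖z.2‖⁻¹ ^ 2 * R.G i z.1 z.2 z.2) * ‖z.2‖ ^ 2 = R.G i z.1 z.2 z.2 := by
      field_simp
    rw [h5] at h4
    exact h4.trans (he.trans (le_abs_self e))
  have h4 : ‖z.2‖ ^ 2 ≤ |e| / m := by
    rw [le_div_iff₀ hm]; linarith
  nlinarith [sq_nonneg (‖z.2‖ - 1)]

theorem RM.exists_time [Finite ι] (R : RM n ι M) (e : ℝ) : ∃ ε > (0 : ℝ), ∀ (i : ι), ∀ x ∈ R.dom,
    ∀ v, R.G i x v v ≤ e → ∃ c : ℝ → M, (∀ t ∈ Ioo (-ε) ε, R.IsGeo c t) ∧ R.State c 0 i x v := by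
  choose f hf0 hf using fun i => time_aux R e i
  obtain ⟨ε, hε, hle⟩ : ∃ ε > (0 : ℝ), ∀ i, ε ≤ f i := by
    rcases isEmpty_or_nonempty ι with hι | hι
    · exact ⟨1, one_pos, fun i => (IsEmpty.false i).elim⟩
    · obtain ⟨i₀, hi₀⟩ := Finite.exists_min f
      exact ⟨f i₀, hf0 i₀, hi₀⟩
  refine ⟨ε, hε, fun i x hx v hv => ?_⟩
  obtain ⟨j, y, hyK, hq⟩ := R.cover (R.q i x)
  have hy := R.K_sub hyK
  have hid : R.Lift (R.q i) x i (fun r => r) := by
    filter_upwards [R.isOpen_dom.mem_nhds hx] with r hr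
    exact ⟨contDiffAt_id, hr, rfl⟩
  have hidj : R.Lift (R.q j) y j (fun r => r) := by
    filter_upwards [R.isOpen_dom.mem_nhds hy] with r hr
    exact ⟨contDiffAt_id, hr, rfl⟩
  obtain ⟨θ, hθs, hθ0, -, hθ⟩ := hid.change hy hq
  obtain ⟨φ, hφs, hφ0, -, hφ⟩ := hidj.change hx hq.symm
  have hθs' : ContDiffAt ℝ ∞ θ x := hθs
  have hθ0' : θ x = y := hθ0
  have hφs' : ContDiffAt ℝ ∞ φ y := hφs
  have hφ0' : φ y = x := hφ0
  have hφ' : ∀ᶠ r in 𝓝 y, ContDiffAt ℝ ∞ φ r ∧ φ r ∈ R.dom ∧ R.q i (φ r) = R.q j r := hφ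
  have hθ' : ∀ᶠ r in 𝓝 x, ContDiffAt ℝ ∞ θ r ∧ θ r ∈ R.dom ∧ R.q j (θ r) = R.q i r := hθ
  set w : E n := fderiv ℝ θ x v with hw
  have hG : R.G j y w w = R.G i x v v := by
    have := hid.metric_eq hθ v v
    simp only [hθ0', fderiv_fun_id, ContinuousLinearMap.id_apply] at this
    exact this
  obtain ⟨ψ, hψ0, hψd, hψ⟩ := hf j (y, w) hyK (by rw [hG]; exact hv)
  have h0 : (0 : ℝ) ∈ Ioo (-ε) ε := ⟨by linarith, hε⟩
  have hsub : ∀ t ∈ Ioo (-ε) ε, t ∈ Ioo (-(f j)) (f j) := by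
    intro t ht
    have := hle j
    exact ⟨by linarith [ht.1], by linarith [ht.2]⟩
  have hgeo : ∀ t ∈ Ioo (-ε) ε, R.GeoLift (fun s => R.q j (ψ s)) t j ψ := by
    intro t ht
    constructor
    · filter_upwards [isOpen_Ioo.mem_nhds ht] with s hs
      obtain ⟨h1, h2, h3⟩ := hψ s (hsub s hs)
      exact ⟨h1, h2, rfl⟩
    · filter_upwards [isOpen_Ioo.mem_nhds ht] with s hs
      exact (hψ s (hsub s hs)).2.2
  refine ⟨fun s => R.q j (ψ s), fun t ht => ⟨j, ψ, hgeo t ht⟩, fun s => φ (ψ s), ?_, ?_, ?_⟩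
  · refine RM.GeoLift.of_lift ⟨j, ψ, hgeo 0 h0⟩ ?_
    have hc : ContinuousAt ψ 0 := (hψ 0 (hsub 0 h0)).1.continuousAt
    have hc' : Tendsto ψ (𝓝 0) (𝓝 y) := by
      have := hc.tendsto
      rwa [hψ0] at this
    filter_upwards [hc'.eventually hφ', isOpen_Ioo.mem_nhds h0] with s hs1 hs2
    exact ⟨ContDiffAt.comp s hs1.1 (hψ s (hsub s hs2)).1, hs1.2.1, hs1.2.2⟩
  · change φ (ψ 0) = x
    rw [hψ0]; exact hφ0'
  · -- the derivative
    have hψ1 : HasDerivAt ψ w 0 := by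
      have h1 : DifferentiableAt ℝ ψ 0 :=
        (hψ 0 (hsub 0 h0)).1.differentiableAt (by simp)
      have h2 := h1.hasDerivAt
      rwa [hψd] at h2
    have hφ1 : HasFDerivAt φ (fderiv ℝ φ y) (ψ 0) := by
      rw [hψ0]
      exact (hφs'.differentiableAt (by simp)).hasFDerivAt
    have h3 : HasDerivAt (fun s => φ (ψ s)) (fderiv ℝ φ y w) 0 := hφ1.comp_hasDerivAt 0 hψ1
    rw [h3.deriv]
    -- `φ ∘ θ = id` near `x`
    have hc' : Tendsto θ (𝓝 x) (𝓝 y) := by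
      have := hθs'.continuousAt.tendsto
      rwa [hθ0'] at this
    have hL : R.Lift (R.q i) x i (fun r => φ (θ r)) := by
      filter_upwards [hc'.eventually hφ', hθ'] with s hs1 hs2
      exact ⟨ContDiffAt.comp s hs1.1 hs2.1, hs1.2.1, hs1.2.2.trans hs2.2.2⟩
    have heq : ∀ᶠ r in 𝓝 x, φ (θ r) = r := hL.eventually_eq hid (by rw [hθ0', hφ0'])
    have h4 : HasFDerivAt (fun r => φ (θ r)) ((fderiv ℝ φ y).comp (fderiv ℝ θ x)) x := by
      have h5 : HasFDerivAt φ (fderiv ℝ φ y) (θ x) := by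
        rw [hθ0']
        exact (hφs'.differentiableAt (by simp)).hasFDerivAt
      exact h5.comp x (hθs'.differentiableAt (by simp)).hasFDerivAt
    have h6 : HasFDerivAt (fun r => φ (θ r)) (ContinuousLinearMap.id ℝ (E n)) x :=
      (hasFDerivAt_id x).congr_of_eventuallyEq heq
    have h7 := h4.unique h6
    have h8 := congrArg (fun L : E n →L[ℝ] E n => L v) h7
    simpa using h8

end Pool.Agent.NCR
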