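import Pool.Agent.NCR.Energy
import Pool.Agent.NCR.MUniq
import Pool.Agent.NCR.Time

/-! # NCR: geodesics exist for all times

PROOF. `e = G i x v v`, `ε` from `exists_time`. By induction on `k` there is `c` which is a geodesic
on `(-(k+1) ε/2, (k+1) ε/2)` with `State c 0 i x v`: at a time `t₁ < (k+1) ε / 2`,
`(k+1) ε/2 - t₁ < ε/2`, take a state `(j, y, w)` of `c` (`exists_state`); by `energy_const`
`G j y w w = e`; `exists_time` gives `c₁` on `(t₁ - ε, t₁ + ε)` (after a shift) with this state at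
`t₁`; `c` and `c₁` agree on the common interval (`geo_eqOn`); define the new curve by `c` for
`t < t₁` and `c₁` for `t ≥ t₁`; the same on the left. The curves for different `k` agree by
`geo_eqOn`; take `c t = c_k t` with `k = ⌈2 |t| / ε⌉ + 1`. -/

set_option autoImplicit false

open Set Filter Topology
open scoped ContDiff

namespace Pool.Agent.NCR

open Pool.Agent.NCP (E RMetric)
open Pool.Agent.NCQ (GeodesicAt)

variable {n : ℕ} {ι M : Type} [TopologicalSpace M]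

private theorem tendsto_shift (s t₁ : ℝ) :
    Tendsto (fun t : ℝ => t - t₁) (𝓝 s) (𝓝 (s - t₁)) :=
  (continuous_id.sub continuous_const).tendsto s

private theorem RM.GeoLift.shift {R : RM n ι M} {c : ℝ → M} {s t₁ : ℝ} {i : ι} {y : ℝ → E n}
    (h : R.GeoLift c (s - t₁) i y) :
    R.GeoLift (fun t => c (t - t₁)) s i (fun t => y (t - t₁)) := by
  refine ⟨?_, ?_⟩
  · have h1 := (tendsto_shift s t₁).eventually h.1
    filter_upwards [h1] with r hr
    refine ⟨?_, hr.2.1, hr.2.2⟩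
    exact ContDiffAt.comp r hr.1 (contDiffAt_id.sub contDiffAt_const)
  · have h2 := (tendsto_shift s t₁).eventually h.2
    filter_upwards [h2] with r hr
    intro w
    have h3 := hr w
    have hd : ∀ t, deriv (fun t => y (t - t₁)) t = deriv y (t - t₁) := fun t =>
      deriv_comp_sub_const y t₁ t
    simp only [hd]
    rw [deriv_comp_sub_const (fun t' => R.gm i (y t') (deriv y t') w) t₁ r]
    exact h3

private theorem RM.IsGeo.shift {R : RM n ι M} {c : ℝ → M} {s t₁ : ℝ} (h : R.IsGeo c (s - t₁)) :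
    R.IsGeo (fun t => c (t - t₁)) s := by
  obtain ⟨i, x, hx⟩ := h
  exact ⟨i, _, hx.shift⟩

private theorem RM.State.shift {R : RM n ι M} {c : ℝ → M} {s t₁ : ℝ} {i : ι} {x v : E n}
    (h : R.State c (s - t₁) i x v) : R.State (fun t => c (t - t₁)) s i x v := by
  obtain ⟨y, hy, h1, h2⟩ := h
  exact ⟨_, hy.shift, h1, by rw [deriv_comp_sub_const y t₁ s, h2]⟩

/-- gluing two geodesics with a common state -/
private theorem RM.glue [T2Space M] {R : RM n ι M} {c c' : ℝ → M} {a b a' b' t₁ : ℝ}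
    (h1 : t₁ ∈ Ioo a b) (h1' : t₁ ∈ Ioo a' b') (hc : ∀ t ∈ Ioo a b, R.IsGeo c t)
    (hc' : ∀ t ∈ Ioo a' b', R.IsGeo c' t) {i : ι} {x v : E n}
    (h : R.State c t₁ i x v) (h' : R.State c' t₁ i x v) :
    ∃ d : ℝ → M, (∀ t ∈ Ioo a b, d t = c t) ∧ ∀ t ∈ Ioo a' b', d t = c' t := by
  classical
  refine ⟨fun t => if t ∈ Ioo a b then c t else c' t, fun t ht => if_pos ht, fun t ht => ?_⟩
  by_cases h2 : t ∈ Ioo a b
  · have h3 : EqOn c c' (Ioo (max a a') (min b b')) := by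
      refine R.geo_eqOn (t₀ := t₁) ?_ ?_ ?_ h h'
      · exact ⟨max_lt h1.1 h1'.1, lt_min h1.2 h1'.2⟩
      · intro s hs
        exact hc s ⟨lt_of_le_of_lt (le_max_left _ _) hs.1, lt_of_lt_of_le hs.2 (min_le_left _ _)⟩
      · intro s hs
        exact hc' s ⟨lt_of_le_of_lt (le_max_right _ _) hs.1,
          lt_of_lt_of_le hs.2 (min_le_right _ _)⟩
    simp only [if_pos h2]
    exact h3 ⟨max_lt h2.1 ht.1, lt_min h2.2 ht.2⟩
  · simp only [if_neg h2]

private theorem RM.geo_of_eq {R : RM n ι M} {c d : ℝ → M} {a b : ℝ}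
    (hc : ∀ t ∈ Ioo a b, R.IsGeo c t) (h : ∀ t ∈ Ioo a b, d t = c t) :
    ∀ t ∈ Ioo a b, R.IsGeo d t := by
  intro t ht
  refine (hc t ht).congr ?_
  filter_upwards [isOpen_Ioo.mem_nhds ht] with s hs
  exact h s hs

private theorem RM.state_of_eq {R : RM n ι M} {c d : ℝ → M} {a b t : ℝ} {i : ι} {x v : E n}
    (ht : t ∈ Ioo a b) (hc : R.State c t i x v) (h : ∀ t ∈ Ioo a b, d t = c t) :
    R.State d t i x v := by
  refine hc.congr ?_
  filter_upwards [isOpen_Ioo.mem_nhds ht] with s hs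
  exact h s hs

/-- extension of a geodesic beyond a time `t₁` -/
private theorem RM.extend [T2Space M] {R : RM n ι M} {i : ι} {x v : E n} {ε : ℝ}
    (hε : ∀ (j : ι), ∀ y ∈ R.dom, ∀ w, R.G j y w w ≤ R.G i x v v →
      ∃ c : ℝ → M, (∀ t ∈ Ioo (-ε) ε, R.IsGeo c t) ∧ R.State c 0 j y w) (hε0 : 0 < ε)
    {c : ℝ → M} {a b t₁ : ℝ} (h0 : (0 : ℝ) ∈ Ioo a b) (h1 : t₁ ∈ Ioo a b)
    (hc : ∀ t ∈ Ioo a b, R.IsGeo c t) (hs : R.State c 0 i x v) :
    ∃ d : ℝ → M, (∀ t ∈ Ioo a b, R.IsGeo d t) ∧ (∀ t ∈ Ioo (t₁ - ε) (t₁ + ε), R.IsGeo d t) ∧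
      R.State d 0 i x v := by
  obtain ⟨j, y, w, hy, hqy, hst⟩ := (hc t₁ h1).exists_state
  have he : R.G j y w w = R.G i x v v := R.energy_const hc h0 h1 hs hst
  obtain ⟨c₁, hc₁, hs₁⟩ := hε j y hy w he.le
  have hc₂ : ∀ t ∈ Ioo (t₁ - ε) (t₁ + ε), R.IsGeo (fun t => c₁ (t - t₁)) t := by
    intro t ht
    refine RM.IsGeo.shift (hc₁ _ ⟨?_, ?_⟩)
    · have := ht.1; linarith
    · have := ht.2; linarith
  have hs₂ : R.State (fun t => c₁ (t - t₁)) t₁ j y w := by
    apply RM.State.shift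
    rw [sub_self]
    exact hs₁
  obtain ⟨d, hd1, hd2⟩ := R.glue h1 (a' := t₁ - ε) (b' := t₁ + ε)
    ⟨by linarith, by linarith⟩ hc hc₂ hst hs₂
  exact ⟨d, R.geo_of_eq hc hd1, R.geo_of_eq hc₂ hd2, R.state_of_eq h0 hs hd1⟩

theorem RM.exists_geo [T2Space M] [Finite ι] (R : RM n ι M) (i : ι) {x : E n} (hx : x ∈ R.dom)
    (v : E n) : ∃ c : ℝ → M, (∀ t, R.IsGeo c t) ∧ R.State c 0 i x v := by
  obtain ⟨ε, hε0, hε⟩ := R.exists_time (R.G i x v v)
  -- the extension step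
  have step : ∀ T : ℝ, 0 < T → (∃ c : ℝ → M, (∀ t ∈ Ioo (-T) T, R.IsGeo c t) ∧
      R.State c 0 i x v) → ∃ c : ℝ → M, (∀ t ∈ Ioo (-(T + ε / 2)) (T + ε / 2), R.IsGeo c t) ∧
      R.State c 0 i x v := by
    rintro T hT ⟨c, hc, hs⟩
    have hδ0 : 0 < min T (ε / 2) / 2 := by
      have : 0 < min T (ε / 2) := lt_min hT (by linarith)
      linarith
    have hδ1 : min T (ε / 2) ≤ T := min_le_left _ _
    have hδ2 : min T (ε / 2) ≤ ε / 2 := min_le_right _ _
    set δ := min T (ε / 2) / 2 with hδ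
    obtain ⟨d, hd1, hd2, hd3⟩ := R.extend hε hε0 (t₁ := T - δ) ⟨by linarith, hT⟩
      ⟨by linarith, by linarith⟩ hc hs
    have hd : ∀ t ∈ Ioo (-T) (T + ε / 2), R.IsGeo d t := by
      intro t ht
      by_cases h : t < T
      · exact hd1 t ⟨ht.1, h⟩
      · exact hd2 t ⟨by linarith, by linarith [ht.2]⟩
    obtain ⟨f, hf1, hf2, hf3⟩ := R.extend hε hε0 (t₁ := -(T - δ))
      ⟨by linarith, by linarith⟩ ⟨by linarith, by linarith⟩ hd hd3
    refine ⟨f, fun t ht => ?_, hf3⟩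
    by_cases h : -T < t
    · exact hf1 t ⟨h, ht.2⟩
    · exact hf2 t ⟨by linarith [ht.1], by linarith⟩
  have hk : ∀ k : ℕ, ∃ c : ℝ → M, (∀ t ∈ Ioo (-(ε + k * (ε / 2))) (ε + k * (ε / 2)),
      R.IsGeo c t) ∧ R.State c 0 i x v := by
    intro k
    induction k with
    | zero =>
      obtain ⟨c, hc, hs⟩ := hε i x hx v le_rfl
      refine ⟨c, ?_, hs⟩
      simpa using hc
    | succ k ih =>
      have hpos : 0 < ε + k * (ε / 2) := by positivity
      have h := step _ hpos ih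
      have e : ε + ((k + 1 : ℕ) : ℝ) * (ε / 2) = ε + k * (ε / 2) + ε / 2 := by
        push_cast; ring
      rw [e]
      exact h
  have hT : ∀ T : ℝ, ∃ c : ℝ → M, (∀ t ∈ Ioo (-T) T, R.IsGeo c t) ∧ R.State c 0 i x v := by
    intro T
    obtain ⟨k, hk'⟩ := exists_nat_gt (T / (ε / 2))
    obtain ⟨c, hc, hs⟩ := hk k
    refine ⟨c, fun t ht => hc t ?_, hs⟩
    have h1 : T < k * (ε / 2) := by
      rw [div_lt_iff₀ (by linarith)] at hk'
      exact hk'
    exact ⟨by linarith [ht.1], by linarith [ht.2]⟩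
  choose c hc hs using hT
  have agree : ∀ S T t : ℝ, |t| < S → |t| < T → c S t = c T t := by
    intro S T t h1 h2
    have hm : 0 < min S T := lt_min (lt_of_le_of_lt (abs_nonneg t) h1)
      (lt_of_le_of_lt (abs_nonneg t) h2)
    have h3 : EqOn (c S) (c T) (Ioo (-(min S T)) (min S T)) := by
      refine R.geo_eqOn (t₀ := 0) ⟨by linarith, hm⟩ ?_ ?_ (hs S) (hs T)
      · intro s hs'
        have := min_le_left S T
        exact hc S s ⟨by linarith [hs'.1], by linarith [hs'.2]⟩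
      · intro s hs'
        have := min_le_right S T
        exact hc T s ⟨by linarith [hs'.1], by linarith [hs'.2]⟩
    exact h3 (abs_lt.mp (lt_min h1 h2))
  have near : ∀ t : ℝ, ∀ᶠ s in 𝓝 t, c (|s| + 1) s = c (|t| + 1) s := by
    intro t
    have h1 : ∀ᶠ s in 𝓝 t, |s| < |t| + 1 :=
      (continuous_abs.tendsto t).eventually (gt_mem_nhds (by linarith))
    filter_upwards [h1] with s hs'
    exact agree _ _ s (by linarith) hs'
  refine ⟨fun t => c (|t| + 1) t, fun t => ?_, ?_⟩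
  · refine (hc (|t| + 1) t ?_).congr (near t)
    exact abs_lt.mp (by linarith)
  · have h := near 0
    exact (hs (|0| + 1)).congr h

end Pool.Agent.NCR
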