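import Pool.Agent.NCR.Geo

/-! # NCR: smooth dependence of geodesics on the initial state

PROOF. Let `α (p, t) = geo i (z p).1 (z p).2 t`, and let `T` be the set of `t₀` for which the claim
holds at `(p₀, t₀)`. `T` is open (the claim at `(p₀, t₀)` gives the claim nearby). `0 ∈ T`: with
`ψ` from `exists_loc_geo` near `z p₀`, `X (p, t) = ψ (z p) t` is a geodesic lift: for `p` near `p₀` the
curve `t ↦ q i (ψ (z p) t)` is a geodesic on `(-ε, ε)` with the state `(i, (z p).1, (z p).2)` at `0`, so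
it equals `geo ...` there (`geo_eqOn`). `T` closed: let `t*` be in the closure, `(j, y*, w*)` a state
of `geo i (z p₀).1 (z p₀).2` at `t*` with the lift `y`, `ψ, W, ε` from `exists_loc_geo` for `j` near
`(y*, w*)`. Choose `t₁ ∈ T` with `|t₁ - t*| < ε/2` so close to `t*` that `(y t₁, deriv y t₁) ∈ W` and
`y` is a lift near `t₁`. The claim at `(p₀, t₁)` gives `X` in some chart; by `Lift.change` we may
assume that it is in the chart `j` and `X (p₀, t₁) = y t₁`; by uniqueness of lifts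
`X (p₀, t) = y t` near `t₁`. Put `z₁ p = (X (p, t₁), deriv (fun t => X (p, t)) t₁)`, smooth near `p₀`
(`deriv (fun t => X (p,t)) t₁ = fderiv ℝ X (p, t₁) (0, 1)`), `z₁ p₀ ∈ W`. Then
`X* (p, t) = ψ (z₁ p) (t - t₁)` is a geodesic lift of `α` near `(p₀, t*)`: `geo_eqOn` on
`(t₁ - ε, t₁ + ε)`, both curves have the state `(j, z₁ p)` at `t₁`. `ℝ` is connected. -/

set_option autoImplicit false

open Set Filter Topology
open scoped ContDiff

namespace Pool.Agent.NCR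

open Pool.Agent.NCP (E RMetric)
open Pool.Agent.NCQ (GeodesicAt)

variable {n : ℕ} {ι M : Type} [TopologicalSpace M]

private theorem ms_shift {g : E n → E n → E n → ℝ} {c : ℝ → E n} {a t : ℝ}
    (h : GeodesicAt g c (t - a)) : GeodesicAt g (fun s => c (s - a)) t := by
  intro w
  have hd : deriv (fun s => c (s - a)) = fun s => deriv c (s - a) := by
    funext s
    exact deriv_comp_sub_const c a s
  rw [hd]
  have e : deriv (fun t' => g (c (t' - a)) (deriv c (t' - a)) w) t =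
      deriv (fun t' => g (c t') (deriv c t') w) (t - a) :=
    deriv_comp_sub_const (fun t' => g (c t') (deriv c t') w) a t
  rw [e]
  exact h w

/-- the local step -/
private theorem ms_key [T2Space M] (R : RM n ι M) {P : Type} [NormedAddCommGroup P]
    [NormedSpace ℝ P] {α : P × ℝ → M} {p₀ : P}
    (hα : ∀ᶠ p in 𝓝 p₀, ∀ t, R.IsGeo (fun s => α (p, s)) t) {j : ι} {ε : ℝ}
    {W : Set (E n × E n)} (hW : IsOpen W) {ψ : E n × E n → ℝ → E n}
    (hψ : ∀ z ∈ W, ψ z 0 = z.1 ∧ deriv (ψ z) 0 = z.2 ∧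
        ∀ t ∈ Ioo (-ε) ε, ContDiffAt ℝ ∞ (fun p : (E n × E n) × ℝ => ψ p.1 p.2) (z, t) ∧
          ψ z t ∈ R.dom ∧ GeodesicAt (R.gm j) (ψ z) t)
    {z₁ : P → E n × E n} {t₁ : ℝ} (hz₁ : ∀ᶠ p in 𝓝 p₀, ContDiffAt ℝ ∞ z₁ p)
    (hz₁W : z₁ p₀ ∈ W)
    (hst : ∀ᶠ p in 𝓝 p₀, R.State (fun s => α (p, s)) t₁ j (z₁ p).1 (z₁ p).2)
    {t' : ℝ} (ht' : |t' - t₁| < ε) :
    ∃ X : P × ℝ → E n, R.Lift α (p₀, t') j X ∧
      ∀ᶠ r in 𝓝 ((p₀, t') : P × ℝ), GeodesicAt (R.gm j) (fun t => X (r.1, t)) r.2 := by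
  have hε : 0 < ε := lt_of_le_of_lt (abs_nonneg _) ht'
  rw [abs_lt] at ht'
  have hzW : ∀ᶠ p in 𝓝 p₀, z₁ p ∈ W :=
    hz₁.self_of_nhds.continuousAt.eventually (hW.mem_nhds hz₁W)
  -- the curve given by `ψ`
  have hcurve : ∀ w ∈ W, ∀ t ∈ Ioo (t₁ - ε) (t₁ + ε),
      R.GeoLift (fun s => R.q j (ψ w (s - t₁))) t j (fun s => ψ w (s - t₁)) := by
    intro w hw t ht
    have hnear : ∀ᶠ s in 𝓝 t, s ∈ Ioo (t₁ - ε) (t₁ + ε) := isOpen_Ioo.mem_nhds ht
    constructor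
    · refine hnear.mono fun s hs => ?_
      have h1 := (hψ w hw).2.2 (s - t₁) ⟨by linarith [hs.1], by linarith [hs.2]⟩
      refine ⟨?_, h1.2.1, rfl⟩
      have h2 : ContDiffAt ℝ ∞ (fun s : ℝ => ((w, s - t₁) : (E n × E n) × ℝ)) s :=
        contDiffAt_const.prodMk (contDiffAt_id.sub contDiffAt_const)
      exact ContDiffAt.comp (g := fun p : (E n × E n) × ℝ => ψ p.1 p.2) s h1.1 h2
    · refine hnear.mono fun s hs => ?_
      exact ms_shift ((hψ w hw).2.2 (s - t₁) ⟨by linarith [hs.1], by linarith [hs.2]⟩).2.2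
  have heq : ∀ᶠ p in 𝓝 p₀, z₁ p ∈ W ∧ ContDiffAt ℝ ∞ z₁ p ∧
      EqOn (fun s => α (p, s)) (fun s => R.q j (ψ (z₁ p) (s - t₁))) (Ioo (t₁ - ε) (t₁ + ε)) := by
    filter_upwards [hα, hz₁, hzW, hst] with p h1 h2 h3 h4
    refine ⟨h3, h2, ?_⟩
    have ht₁ : t₁ ∈ Ioo (t₁ - ε) (t₁ + ε) := ⟨by linarith, by linarith⟩
    have hs' : R.State (fun s => R.q j (ψ (z₁ p) (s - t₁))) t₁ j (z₁ p).1 (z₁ p).2 := by
      refine ⟨fun s => ψ (z₁ p) (s - t₁), hcurve _ h3 t₁ ht₁, ?_, ?_⟩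
      · show ψ (z₁ p) (t₁ - t₁) = (z₁ p).1
        rw [sub_self]
        exact (hψ _ h3).1
      · rw [deriv_comp_sub_const (ψ (z₁ p)) t₁ t₁, sub_self]
        exact (hψ _ h3).2.1
    exact RM.geo_eqOn ht₁ (fun t _ => h1 t) (fun t ht => ⟨j, _, hcurve _ h3 t ht⟩) h4 hs'
  have hfst : ∀ᶠ r in 𝓝 ((p₀, t') : P × ℝ), z₁ r.1 ∈ W ∧ ContDiffAt ℝ ∞ z₁ r.1 ∧
      EqOn (fun s => α (r.1, s)) (fun s => R.q j (ψ (z₁ r.1) (s - t₁)))
        (Ioo (t₁ - ε) (t₁ + ε)) :=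
    (continuous_fst.tendsto ((p₀, t') : P × ℝ)).eventually heq
  have hsnd : ∀ᶠ r in 𝓝 ((p₀, t') : P × ℝ), r.2 ∈ Ioo (t₁ - ε) (t₁ + ε) :=
    (continuous_snd.tendsto ((p₀, t') : P × ℝ)).eventually
      (isOpen_Ioo.mem_nhds ⟨by linarith [ht'.1], by linarith [ht'.2]⟩)
  refine ⟨fun r => ψ (z₁ r.1) (r.2 - t₁), ?_, ?_⟩
  · filter_upwards [hfst, hsnd] with r h1 h2
    obtain ⟨h1, h3, h4⟩ := h1
    have h5 := (hψ _ h1).2.2 (r.2 - t₁) ⟨by linarith [h2.1], by linarith [h2.2]⟩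
    refine ⟨?_, h5.2.1, ?_⟩
    · have h6 : ContDiffAt ℝ ∞ (fun r : P × ℝ => ((z₁ r.1, r.2 - t₁) : (E n × E n) × ℝ)) r :=
        (ContDiffAt.comp r h3 contDiffAt_fst).prodMk (contDiffAt_snd.sub contDiffAt_const)
      exact ContDiffAt.comp r h5.1 h6
    · exact (h4 h2).symm
  · filter_upwards [hfst, hsnd] with r h1 h2
    exact ms_shift ((hψ _ h1.1).2.2 (r.2 - t₁) ⟨by linarith [h2.1], by linarith [h2.2]⟩).2.2

theorem RM.geo_smooth [T2Space M] [Finite ι] (R : RM n ι M) {P : Type} [NormedAddCommGroup P]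
    [NormedSpace ℝ P] (i : ι) (z : P → E n × E n) {p₀ : P}
    (hz : ∀ᶠ p in 𝓝 p₀, ContDiffAt ℝ ∞ z p ∧ (z p).1 ∈ R.dom) (t₀ : ℝ) :
    ∃ (j : ι) (X : P × ℝ → E n),
      R.Lift (fun r : P × ℝ => R.geo i (z r.1).1 (z r.1).2 r.2) (p₀, t₀) j X ∧
      ∀ᶠ r in 𝓝 ((p₀, t₀) : P × ℝ), GeodesicAt (R.gm j) (fun t => X (r.1, t)) r.2 := by
  set α : P × ℝ → M := fun r : P × ℝ => R.geo i (z r.1).1 (z r.1).2 r.2 with hα
  have hgeo : ∀ᶠ p in 𝓝 p₀, ∀ t, R.IsGeo (fun s => α (p, s)) t :=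
    hz.mono fun p hp t => R.geo_isGeo i hp.2 (z p).2 t
  have hdom : (z p₀).1 ∈ R.dom := hz.self_of_nhds.2
  set T : Set ℝ := {t | ∃ (j : ι) (X : P × ℝ → E n), R.Lift α (p₀, t) j X ∧
      ∀ᶠ r in 𝓝 ((p₀, t) : P × ℝ), GeodesicAt (R.gm j) (fun t => X (r.1, t)) r.2} with hT
  have hT0 : (0 : ℝ) ∈ T := by
    obtain ⟨ε, hε, W, hW, hmem, ψ, hψ⟩ := R.exists_loc_geo i hdom (z p₀).2
    obtain ⟨X, hX⟩ := ms_key R (α := α) (p₀ := p₀) hgeo (j := i) hW hψ (z₁ := z) (t₁ := 0)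
      (hz.mono fun p hp => hp.1) hmem (hz.mono fun p hp => R.geo_state i hp.2 (z p).2) (t' := 0)
      (by simpa using hε)
    exact ⟨i, X, hX⟩
  have hopen : IsOpen T := by
    rw [isOpen_iff_eventually]
    rintro t ⟨j, X, h1, h2⟩
    have hc : Tendsto (fun s : ℝ => ((p₀, s) : P × ℝ)) (𝓝 t) (𝓝 (p₀, t)) :=
      (continuous_const.prodMk continuous_id).tendsto t
    filter_upwards [hc.eventually (eventually_eventually_nhds.2 h1),
      hc.eventually (eventually_eventually_nhds.2 h2)] with s h3 h4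
    exact ⟨j, X, h3, h4⟩
  have hclosed : IsClosed T := by
    apply isClosed_of_closure_subset
    intro t' ht'
    obtain ⟨j, ys, ws, hys, hq, y, hy, hy1, hy2⟩ :=
      (R.geo_isGeo i hdom (z p₀).2 t').exists_state
    obtain ⟨ε, hε, W, hW, hmem, ψ, hψ⟩ := R.exists_loc_geo j hys ws
    have hycd : ContDiffAt ℝ ∞ y t' := hy.1.self_of_nhds.1
    have hyd : ContinuousAt (fun t => (y t, deriv y t)) t' := by
      apply hycd.continuousAt.prodMk
      have h1 : ContDiffAt ℝ 0 (fderiv ℝ y) t' := hycd.fderiv_right (by simp)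
      have h2 : ContinuousAt (fun t => fderiv ℝ y t 1) t' :=
        h1.continuousAt.clm_apply continuousAt_const
      exact h2
    have ev1 : ∀ᶠ t in 𝓝 t', (y t, deriv y t) ∈ W := by
      apply hyd.eventually
      apply hW.mem_nhds
      show (y t', deriv y t') ∈ W
      rw [hy1, hy2]
      exact hmem
    have ev2 : ∀ᶠ t in 𝓝 t', R.Lift (R.geo i (z p₀).1 (z p₀).2) t j y := hy.1.eventually
    have ev3 : ∀ᶠ t in 𝓝 t', |t' - t| < ε := by
      have h5 : ContinuousAt (fun t : ℝ => |t' - t|) t' := by fun_prop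
      exact h5.eventually_lt continuousAt_const (by simpa using hε)
    obtain ⟨t₁, hT1, h1, h2, h3⟩ :=
      ((mem_closure_iff_frequently.1 ht').and_eventually (ev1.and (ev2.and ev3))).exists
    obtain ⟨j', X, hX, -⟩ := hT1
    obtain ⟨-, hl2, hl3⟩ := h2.self_of_nhds
    obtain ⟨θ, -, hθ, -, hL⟩ := hX.change (j := j) hl2 hl3
    have hL' := eventually_eventually_nhds.2 hL
    have hc : Tendsto (fun p : P => ((p, t₁) : P × ℝ)) (𝓝 p₀) (𝓝 (p₀, t₁)) :=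
      (continuous_id.prodMk continuous_const).tendsto p₀
    have hp := hc.eventually hL'
    set X' : P × ℝ → E n := fun r => θ (X r) with hX'
    have hlift : ∀ᶠ p in 𝓝 p₀, R.Lift (fun s => α (p, s)) t₁ j (fun s => X' (p, s)) := by
      filter_upwards [hp] with p h4
      have hc' : Tendsto (fun s : ℝ => ((p, s) : P × ℝ)) (𝓝 t₁) (𝓝 (p, t₁)) :=
        (continuous_const.prodMk continuous_id).tendsto t₁
      filter_upwards [hc'.eventually h4] with s h5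
      refine ⟨?_, h5.2.1, h5.2.2⟩
      have h6 : ContDiffAt ℝ ∞ (fun s : ℝ => ((p, s) : P × ℝ)) s :=
        contDiffAt_const.prodMk contDiffAt_id
      exact ContDiffAt.comp (g := X') s h5.1 h6
    have hcd : ∀ᶠ p in 𝓝 p₀, ContDiffAt ℝ ∞ X' (p, t₁) :=
      hp.mono fun p h4 => h4.self_of_nhds.1
    have hder : ∀ p, ContDiffAt ℝ ∞ X' (p, t₁) →
        deriv (fun s => X' (p, s)) t₁ = fderiv ℝ X' (p, t₁) (0, 1) := by
      intro p h4
      have h5 : HasFDerivAt X' (fderiv ℝ X' (p, t₁)) (p, t₁) :=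
        (h4.differentiableAt (by simp)).hasFDerivAt
      have h6 : HasDerivAt (fun s : ℝ => ((p, s) : P × ℝ)) (0, 1) t₁ :=
        (hasDerivAt_const t₁ p).prodMk (hasDerivAt_id t₁)
      exact (h5.comp_hasDerivAt t₁ h6).deriv
    have hy' := RM.Lift.eventually_eq (hlift.self_of_nhds) h2 hθ
    have k1 : ∀ᶠ p in 𝓝 p₀,
        ContDiffAt ℝ ∞ (fun p => (X' (p, t₁), fderiv ℝ X' (p, t₁) (0, 1))) p := by
      refine hcd.mono fun p h4 => ?_
      have h5 : ContDiffAt ℝ ∞ (fun p : P => ((p, t₁) : P × ℝ)) p :=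
        contDiffAt_id.prodMk contDiffAt_const
      have h6 : ContDiffAt ℝ ∞ (fderiv ℝ X') (p, t₁) := h4.fderiv_right (by simp)
      have h7 : ContDiffAt ℝ ∞ (fun p : P => X' (p, t₁)) p :=
        ContDiffAt.comp (g := X') p h4 h5
      have h8 : ContDiffAt ℝ ∞ (fun p : P => fderiv ℝ X' (p, t₁)) p :=
        ContDiffAt.comp (g := fderiv ℝ X') p h6 h5
      exact h7.prodMk (h8.clm_apply contDiffAt_const)
    have k2 : (X' (p₀, t₁), fderiv ℝ X' (p₀, t₁) (0, 1)) ∈ W := by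
      have e1 : X' (p₀, t₁) = y t₁ := hθ
      have e2 : fderiv ℝ X' (p₀, t₁) (0, 1) = deriv y t₁ := by
        rw [← hder p₀ hcd.self_of_nhds]
        exact Filter.EventuallyEq.deriv_eq hy'
      rw [e1, e2]
      exact h1
    have k3 : ∀ᶠ p in 𝓝 p₀, R.State (fun s => α (p, s)) t₁ j (X' (p, t₁))
        (fderiv ℝ X' (p, t₁) (0, 1)) := by
      filter_upwards [hlift, hcd, hgeo] with p h4 h5 h6
      exact ⟨fun s => X' (p, s), RM.GeoLift.of_lift (h6 t₁) h4, rfl, hder p h5⟩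
    obtain ⟨Y, hY⟩ := ms_key R (α := α) (p₀ := p₀) hgeo (j := j) hW hψ
      (z₁ := fun p => (X' (p, t₁), fderiv ℝ X' (p, t₁) (0, 1))) (t₁ := t₁)
      k1 k2 k3 (t' := t') h3
    exact ⟨j, Y, hY⟩
  have hall : T = univ := IsClopen.eq_univ ⟨hclosed, hopen⟩ ⟨0, hT0⟩
  have : t₀ ∈ T := by rw [hall]; exact mem_univ _
  exact this

end Pool.Agent.NCR
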