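import Pool.Agent.NCQ.PolarInv

/-! # NCR: smooth local inverse of polar coordinates

PROOF. Inverse function theorem (`ContDiffAt.toOpenPartialHomeomorph`, `ContDiffAt.to_localInverse`):
`contDiff_polar`; `fderiv ℝ polar p` is injective by `hasFDerivAt_polar` (`p.1 ≠ 0`), so bijective
(dimension 3 on both sides). Or explicitly with `Complex.log` as in `exists_polar`. -/

set_option autoImplicit false

open Set Filter Topology
open scoped ContDiff

namespace Pool.Agent.NCR

open Pool.Agent.NCQ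

theorem fderiv_polar_bijective {p : ℝ × ℝ × ℝ} (h0 : 0 < p.1) :
    Function.Bijective (fderiv ℝ polar p) := by
  have hinj : Function.Injective (fderiv ℝ polar p) := by
    rw [injective_iff_map_eq_zero]
    intro v hv
    rw [hasFDerivAt_polar] at hv
    have h1 : ((v.1 : ℂ) + 2 * Real.pi * p.1 * v.2.1 * Complex.I)
        * Complex.exp (2 * Real.pi * p.2.1 * Complex.I) = 0 := congrArg Prod.fst hv
    have h2 : v.2.2 = 0 := congrArg Prod.snd hv
    have h3 : (v.1 : ℂ) + 2 * Real.pi * p.1 * v.2.1 * Complex.I = 0 :=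
      (mul_eq_zero.1 h1).resolve_right (Complex.exp_ne_zero _)
    have h4 : (v.1 : ℂ) + 2 * Real.pi * p.1 * v.2.1 * Complex.I =
        ((v.1 : ℝ) : ℂ) + ((2 * Real.pi * p.1 * v.2.1 : ℝ) : ℂ) * Complex.I := by
      push_cast
      ring
    rw [h4] at h3
    have h5 : v.1 = 0 := by
      have := congrArg Complex.re h3
      simpa using this
    have h6 : 2 * Real.pi * p.1 * v.2.1 = 0 := by
      have := congrArg Complex.im h3
      rw [Complex.add_im, Complex.ofReal_im, Complex.im_ofReal_mul, Complex.I_im, mul_one, zero_add,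
        Complex.zero_im] at this
      exact this
    have h7 : v.2.1 = 0 := by
      have hp : 2 * Real.pi * p.1 ≠ 0 := by positivity
      exact (mul_eq_zero.1 h6).resolve_left hp
    exact Prod.ext h5 (Prod.ext h7 h2)
  refine ⟨hinj, ?_⟩
  have hfin : Module.finrank ℝ (ℝ × ℝ × ℝ) = Module.finrank ℝ (ℂ × ℝ) := by
    simp [Module.finrank_prod, Complex.finrank_real_complex]
  exact (LinearMap.injective_iff_surjective_of_finrank_eq_finrank hfin
    (f := (fderiv ℝ polar p : (ℝ × ℝ × ℝ) →ₗ[ℝ] (ℂ × ℝ)))).1 hinj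

theorem exists_polar_inv {p : ℝ × ℝ × ℝ} (h0 : 0 < p.1) : ∃ τ : ℂ × ℝ → ℝ × ℝ × ℝ,
    ContDiffAt ℝ ∞ τ (polar p) ∧ τ (polar p) = p ∧ (∀ᶠ z in 𝓝 (polar p), polar (τ z) = z) ∧
      ∀ᶠ y in 𝓝 p, τ (polar y) = y := by
  set e : (ℝ × ℝ × ℝ) ≃L[ℝ] (ℂ × ℝ) :=
    (LinearEquiv.ofBijective (fderiv ℝ polar p : (ℝ × ℝ × ℝ) →ₗ[ℝ] (ℂ × ℝ))
      (fderiv_polar_bijective h0)).toContinuousLinearEquiv with he
  have hec : (e : (ℝ × ℝ × ℝ) →L[ℝ] (ℂ × ℝ)) = fderiv ℝ polar p := by
    ext <;> rfl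
  have hd : HasFDerivAt polar (e : (ℝ × ℝ × ℝ) →L[ℝ] (ℂ × ℝ)) p := by
    rw [hec]
    exact (contDiff_polar.differentiable (by simp) p).hasFDerivAt
  have hc : ContDiffAt ℝ ∞ polar p := contDiff_polar.contDiffAt
  have hn : (∞ : WithTop ℕ∞) ≠ 0 := by simp
  have hs := hc.hasStrictFDerivAt' hd hn
  exact ⟨hc.localInverse hd hn, hc.to_localInverse hd hn, hc.localInverse_apply_image hd hn,
    hs.eventually_right_inverse, hs.eventually_left_inverse⟩

end Pool.Agent.NCR
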