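import Pool.Agent.NCT.TopDef
import Pool.Agent.NCR.PolInv
import Pool.Agent.NCR.GlueBil

/-! # NCR: changes of charts of the graph manifold, different pieces

PROOF. `mk_eq_diff`: `x = polar p + lat m n k`, `y = polar (flip A p) + lat m' n' k'`, `0 < p.1 < 1/4`.
First: `θ z = polar (flip A (τ (z - lat m n k))) + lat m' n' k'` with `τ` from `exists_polar_inv` at `p`.
For `z = polar r + lat m n k` with `r` near `p` (all `z` near `x` are of this form, `r = τ (z - lat m n k)`)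
`θ z = polar (flip A r) + lat m' n' k'`, so `qm A 1 (θ z) = qm A 0 z` by `mk_polar`, `mk_add_lat`;
derivative: `fderiv θ z (fderiv polar r v) = fderiv (fun z => polar (flip A z)) r v` (chain rule,
`τ ∘ polar = id` near `p`); every vector is `fderiv polar r v` (`fderiv_polar_bijective`);
`glue_bil` and `g.trans`.
Second: let `r₀ = flip A p`, `τ'` from `exists_polar_inv` at `r₀` (`flip_bounds`), and
`θ z = polar (flip A⁻¹ (τ' (z - lat m' n' k'))) + lat m n k`; `flip A (flip A⁻¹ r) = r` and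
`flip A⁻¹ (flip A r) = r` (see `NCT/QuotOpen`: `flip_flip_inv`, `flip_inv_flip`); for
`z = polar (flip A r) + lat m' n' k'`, `r` near `p`, `θ z = polar r + lat m n k`. The same computation:
`fderiv θ z (fderiv (fun z => polar (flip A z)) r v) = fderiv polar r v`. -/

set_option autoImplicit false

open Set Filter Topology
open scoped ContDiff

namespace Pool.Agent.NCR

open Pool.Agent.NCQ Pool.Agent.NCT

variable {A : Matrix.SpecialLinearGroup (Fin 2) ℤ}

/-- the change of charts defined by two parametrisations `P`, `Q` and a local inverse `τ` of `P` -/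
private theorem mtransD_core {P Q : ℝ × ℝ × ℝ → ℂ × ℝ} (hP : ContDiff ℝ ∞ P) (hQ : ContDiff ℝ ∞ Q)
    {p : ℝ × ℝ × ℝ} {τ : ℂ × ℝ → ℝ × ℝ × ℝ} (hτ : ContDiffAt ℝ ∞ τ (P p)) (hτp : τ (P p) = p)
    (h1 : ∀ᶠ z in 𝓝 (P p), P (τ z) = z) (a b : ℂ × ℝ) {S : Set (ℝ × ℝ × ℝ)} (hS : S ∈ 𝓝 p) :
    ContDiffAt ℝ ∞ (fun z => Q (τ (z - a)) + b) (P p + a) ∧ Q (τ (P p + a - a)) + b = Q p + b ∧
      ∀ᶠ z in 𝓝 (P p + a), ∃ r ∈ S, z = P r + a ∧ Q (τ (z - a)) + b = Q r + b ∧
        ∀ v, ∃ v', fderiv ℝ P r v' = v ∧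
          fderiv ℝ (fun z => Q (τ (z - a)) + b) z v = fderiv ℝ Q r v' := by
  have hsub : P p + a - a = P p := by abel
  refine ⟨?_, by rw [hsub, hτp], ?_⟩
  · have h2 : ContDiffAt ℝ ∞ (fun z => τ (z - a)) (P p + a) := by
      refine ContDiffAt.comp (P p + a) (g := τ) (f := fun z => z - a) ?_
        (contDiffAt_id.sub contDiffAt_const)
      rw [hsub]
      exact hτ
    exact (hQ.contDiffAt.comp (P p + a) h2).add contDiffAt_const
  · have ht : Tendsto (fun z : ℂ × ℝ => z - a) (𝓝 (P p + a)) (𝓝 (P p)) := by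
      have : ContinuousAt (fun z : ℂ × ℝ => z - a) (P p + a) := by fun_prop
      have h3 := this.tendsto
      rwa [hsub] at h3
    have e1 : ∀ᶠ w in 𝓝 (P p), ∀ᶠ w' in 𝓝 w, P (τ w') = w' := h1.eventually_nhds
    have e2 : ∀ᶠ w in 𝓝 (P p), ContDiffAt ℝ 1 τ w :=
      (hτ.of_le (by exact_mod_cast le_top)).eventually (by decide)
    have e3 : ∀ᶠ w in 𝓝 (P p), τ w ∈ S := by
      have : Tendsto τ (𝓝 (P p)) (𝓝 (τ (P p))) := hτ.continuousAt
      rw [hτp] at this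
      exact this hS
    filter_upwards [ht.eventually e1, ht.eventually e2, ht.eventually e3] with z hz1 hz2 hz3
    have hd : DifferentiableAt ℝ τ (z - a) := hz2.differentiableAt (by simp)
    have hPd : ∀ y, DifferentiableAt ℝ P y := fun y => (hP.differentiable (by simp)) y
    have hQd : ∀ y, DifferentiableAt ℝ Q y := fun y => (hQ.differentiable (by simp)) y
    refine ⟨τ (z - a), hz3, ?_, rfl, ?_⟩
    · rw [hz1.self_of_nhds]
      abel
    · intro v
      refine ⟨fderiv ℝ τ (z - a) v, ?_, ?_⟩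
      · have h4 : HasFDerivAt (fun w => P (τ w))
            ((fderiv ℝ P (τ (z - a))).comp (fderiv ℝ τ (z - a))) (z - a) :=
          (hPd _).hasFDerivAt.comp (z - a) hd.hasFDerivAt
        have h5 : HasFDerivAt (fun w => P (τ w)) (ContinuousLinearMap.id ℝ (ℂ × ℝ)) (z - a) :=
          (hasFDerivAt_id (z - a)).congr_of_eventuallyEq hz1
        have h6 := h4.unique h5
        have h7 := congrArg (fun L => L v) h6
        simpa using h7
      · have h8 : HasFDerivAt (fun z : ℂ × ℝ => z - a) (ContinuousLinearMap.id ℝ (ℂ × ℝ)) z :=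
          (hasFDerivAt_id z).sub_const a
        have h9 : HasFDerivAt (fun z : ℂ × ℝ => τ (z - a))
            ((fderiv ℝ τ (z - a)).comp (ContinuousLinearMap.id ℝ (ℂ × ℝ))) z :=
          HasFDerivAt.comp z (g := τ) hd.hasFDerivAt h8
        have h10 : HasFDerivAt (fun z : ℂ × ℝ => Q (τ (z - a)) + b)
            ((fderiv ℝ Q (τ (z - a))).comp
              ((fderiv ℝ τ (z - a)).comp (ContinuousLinearMap.id ℝ (ℂ × ℝ)))) z :=
          (HasFDerivAt.comp z (g := Q) (hQd _).hasFDerivAt h9).add_const b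
        rw [h10.fderiv]
        rfl

private theorem form_add_lat (g : GMMetric A) (i : Fin 2) (x v w : ℂ × ℝ) (m n k : ℤ) :
    g.form i (x + lat m n k) v w = g.form i x v w := by
  have h := g.trans i x v w m n k
  rw [← h]
  congr 1
  refine Prod.ext ?_ rfl
  simp only [lat, Prod.fst_add]
  ring

private theorem qm_add_lat (i : Fin 2) {x : ℂ × ℝ} (hx : x ∈ piece) (m n k : ℤ) :
    qm A i (x + lat m n k) = qm A i x := by
  rw [qm_eq (add_lat_mem hx m n k), qm_eq hx]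
  exact mk_add_lat i hx m n k

private theorem qm_polar {p : ℝ × ℝ × ℝ} (h0 : 0 < p.1) (h1 : p.1 < 1 / 4) :
    qm A 0 (polar p) = qm A 1 (polar (flip A p)) := by
  rw [qm_eq (polar_mem h0 h1), qm_eq (polar_mem (flip_bounds h0 h1).1 (flip_bounds h0 h1).2)]
  exact mk_polar h0 h1

private theorem collar_mem {p : ℝ × ℝ × ℝ} (h0 : 0 < p.1) (h1 : p.1 < 1 / 4) :
    {r : ℝ × ℝ × ℝ | 0 < r.1 ∧ r.1 < 1 / 4} ∈ 𝓝 p := by
  have h2 : IsOpen {r : ℝ × ℝ × ℝ | 0 < r.1 ∧ r.1 < 1 / 4} :=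
    (isOpen_lt continuous_const continuous_fst).inter (isOpen_lt continuous_fst continuous_const)
  exact h2.mem_nhds ⟨h0, h1⟩

theorem exists_trans_01 (g : GMMetric A) {x y : ℂ × ℝ} (hx : x ∈ piece)
    (hy : y ∈ piece) (h : qm A 0 x = qm A 1 y) : ∃ θ : ℂ × ℝ → ℂ × ℝ, ContDiffAt ℝ ∞ θ x ∧
      θ x = y ∧ ∀ᶠ z in 𝓝 x, θ z ∈ piece ∧ qm A 1 (θ z) = qm A 0 z ∧
        ∀ v w, g.form 1 (θ z) (fderiv ℝ θ z v) (fderiv ℝ θ z w) = g.form 0 z v w := by
  rw [qm_eq hx, qm_eq hy] at h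
  obtain ⟨p, m, n, k, m', n', k', h0, h1, hxp, hyp⟩ := mk_eq_diff h
  obtain ⟨τ, hτ, hτp, hτ1, -⟩ := exists_polar_inv h0
  have hxp' : x = polar p + lat m n k := hxp
  have hyp' : y = polar (flip A p) + lat m' n' k' := hyp
  have hQ : ContDiff ℝ ∞ (fun z => polar (flip A z)) := contDiff_polar.comp contDiff_flip
  obtain ⟨c1, c2, c3⟩ := mtransD_core (P := polar) (Q := fun z => polar (flip A z)) contDiff_polar hQ
    hτ hτp hτ1 (lat m n k) (lat m' n' k') (collar_mem h0 h1)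
  refine ⟨fun z => polar (flip A (τ (z - lat m n k))) + lat m' n' k', ?_, ?_, ?_⟩
  · rw [hxp']
    exact c1
  · rw [hxp', hyp']
    exact c2
  · rw [hxp']
    filter_upwards [c3] with z hz
    obtain ⟨r, ⟨hr0, hr1⟩, hzr, hθ, hv⟩ := hz
    have hθ' : polar (flip A (τ (z - lat m n k))) + lat m' n' k' =
        polar (flip A r) + lat m' n' k' := hθ
    have hm1 : polar (flip A r) ∈ piece :=
      polar_mem (flip_bounds hr0 hr1).1 (flip_bounds hr0 hr1).2
    have hm0 : polar r ∈ piece := polar_mem hr0 hr1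
    refine ⟨?_, ?_, ?_⟩
    · show polar (flip A (τ (z - lat m n k))) + lat m' n' k' ∈ piece
      rw [hθ']
      exact add_lat_mem hm1 _ _ _
    · show qm A 1 (polar (flip A (τ (z - lat m n k))) + lat m' n' k') = qm A 0 z
      rw [hθ', qm_add_lat 1 hm1, hzr, qm_add_lat 0 hm0, qm_polar hr0 hr1]
    · intro v w
      obtain ⟨v', hv1, hv2⟩ := hv v
      obtain ⟨w', hw1, hw2⟩ := hv w
      show g.form 1 (polar (flip A (τ (z - lat m n k))) + lat m' n' k') _ _ = _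
      rw [hθ', hv2, hw2, form_add_lat, ← glue_bil g hr0 hr1, hv1, hw1]
      conv_rhs => rw [hzr]
      rw [form_add_lat]

theorem exists_trans_10 (g : GMMetric A) {x y : ℂ × ℝ} (hx : x ∈ piece)
    (hy : y ∈ piece) (h : qm A 1 x = qm A 0 y) : ∃ θ : ℂ × ℝ → ℂ × ℝ, ContDiffAt ℝ ∞ θ x ∧
      θ x = y ∧ ∀ᶠ z in 𝓝 x, θ z ∈ piece ∧ qm A 0 (θ z) = qm A 1 z ∧
        ∀ v w, g.form 0 (θ z) (fderiv ℝ θ z v) (fderiv ℝ θ z w) = g.form 1 z v w := by
  rw [qm_eq hx, qm_eq hy] at h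
  obtain ⟨p, m, n, k, m', n', k', h0, h1, hyp, hxp⟩ := mk_eq_diff h.symm
  have hxp' : x = polar (flip A p) + lat m' n' k' := hxp
  have hyp' : y = polar p + lat m n k := hyp
  obtain ⟨τ, hτ, hτp, hτ1, -⟩ := exists_polar_inv (flip_bounds (A := A) h0 h1).1
  have hQ : ContDiff ℝ ∞ (fun z => polar (flip A z)) := contDiff_polar.comp contDiff_flip
  have hdet : ((A.1 0 0 : ℤ) : ℝ) * A.1 1 1 - A.1 0 1 * A.1 1 0 = 1 := by
    exact_mod_cast ExactD.det A
  -- the inverse of `flip A`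
  let fl : ℝ × ℝ × ℝ → ℝ × ℝ × ℝ := fun y =>
    (1 / 4 - y.1, A.1 1 1 * y.2.1 - A.1 0 1 * y.2.2, A.1 0 0 * y.2.2 - A.1 1 0 * y.2.1)
  have hfl : ContDiff ℝ ∞ fl := by
    show ContDiff ℝ ∞ (fun y : ℝ × ℝ × ℝ =>
      ((1 / 4 - y.1, A.1 1 1 * y.2.1 - A.1 0 1 * y.2.2, A.1 0 0 * y.2.2 - A.1 1 0 * y.2.1) :
        ℝ × ℝ × ℝ))
    fun_prop
  have hfl1 : ∀ y, flip A (fl y) = y := by
    intro y
    refine Prod.ext ?_ (Prod.ext ?_ ?_)
    · show 1 / 4 - (1 / 4 - y.1) = y.1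
      ring
    · show (A.1 0 0 : ℝ) * (A.1 1 1 * y.2.1 - A.1 0 1 * y.2.2) +
        A.1 0 1 * (A.1 0 0 * y.2.2 - A.1 1 0 * y.2.1) = y.2.1
      linear_combination y.2.1 * hdet
    · show (A.1 1 0 : ℝ) * (A.1 1 1 * y.2.1 - A.1 0 1 * y.2.2) +
        A.1 1 1 * (A.1 0 0 * y.2.2 - A.1 1 0 * y.2.1) = y.2.2
      linear_combination y.2.2 * hdet
  have hfl2 : ∀ y, fl (flip A y) = y := by
    intro y
    refine Prod.ext ?_ (Prod.ext ?_ ?_)
    · show 1 / 4 - (1 / 4 - y.1) = y.1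
      ring
    · show (A.1 1 1 : ℝ) * (A.1 0 0 * y.2.1 + A.1 0 1 * y.2.2) -
        A.1 0 1 * (A.1 1 0 * y.2.1 + A.1 1 1 * y.2.2) = y.2.1
      linear_combination y.2.1 * hdet
    · show (A.1 0 0 : ℝ) * (A.1 1 0 * y.2.1 + A.1 1 1 * y.2.2) -
        A.1 1 0 * (A.1 0 0 * y.2.1 + A.1 0 1 * y.2.2) = y.2.2
      linear_combination y.2.2 * hdet
  obtain ⟨c1, c2, c3⟩ := mtransD_core (P := fun z => polar (flip A z)) (Q := polar) (p := p)
    (τ := fun z => fl (τ z)) hQ contDiff_polar (hfl.contDiffAt.comp _ hτ)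
    (by show fl (τ (polar (flip A p))) = p
        rw [hτp, hfl2])
    (by filter_upwards [hτ1] with z hz
        show polar (flip A (fl (τ z))) = z
        rw [hfl1, hz])
    (lat m' n' k') (lat m n k) (collar_mem h0 h1)
  refine ⟨fun z => polar (fl (τ (z - lat m' n' k'))) + lat m n k, ?_, ?_, ?_⟩
  · rw [hxp']
    exact c1
  · rw [hxp', hyp']
    exact c2
  · rw [hxp']
    filter_upwards [c3] with z hz
    obtain ⟨r, ⟨hr0, hr1⟩, hzr, hθ, hv⟩ := hz
    have hzr' : z = polar (flip A r) + lat m' n' k' := hzr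
    have hθ' : polar (fl (τ (z - lat m' n' k'))) + lat m n k = polar r + lat m n k := hθ
    have hm1 : polar (flip A r) ∈ piece :=
      polar_mem (flip_bounds hr0 hr1).1 (flip_bounds hr0 hr1).2
    have hm0 : polar r ∈ piece := polar_mem hr0 hr1
    refine ⟨?_, ?_, ?_⟩
    · show polar (fl (τ (z - lat m' n' k'))) + lat m n k ∈ piece
      rw [hθ']
      exact add_lat_mem hm0 _ _ _
    · show qm A 0 (polar (fl (τ (z - lat m' n' k'))) + lat m n k) = qm A 1 z
      rw [hθ', qm_add_lat 0 hm0, hzr', qm_add_lat 1 hm1, qm_polar hr0 hr1]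
    · intro v w
      obtain ⟨v', hv1, hv2⟩ := hv v
      obtain ⟨w', hw1, hw2⟩ := hv w
      show g.form 0 (polar (fl (τ (z - lat m' n' k'))) + lat m n k) _ _ = _
      rw [hθ', hv2, hw2, form_add_lat, glue_bil g hr0 hr1, hv1, hw1]
      conv_rhs => rw [hzr']
      rw [form_add_lat]

end Pool.Agent.NCR
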