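import Pool.Agent.NCT.TopDef

/-! # NCR: changes of charts of the graph manifold, same piece

PROOF. `mk_eq_same`: `y = x + lat m n k`; `θ z = z + lat m n k` (derivative the identity), `mk_add_lat`,
`add_lat_mem`, `g.trans` (`lat m n k = (m + n * I, k)`); near `x` the points are in `piece`
(`isOpen_piece`). -/

set_option autoImplicit false

open Set Filter Topology
open scoped ContDiff

namespace Pool.Agent.NCR

open Pool.Agent.NCQ Pool.Agent.NCT

variable {A : Matrix.SpecialLinearGroup (Fin 2) ℤ}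

theorem exists_trans_same (g : GMMetric A) (i : Fin 2) {x y : ℂ × ℝ} (hx : x ∈ piece)
    (hy : y ∈ piece) (h : qm A i x = qm A i y) : ∃ θ : ℂ × ℝ → ℂ × ℝ, ContDiffAt ℝ ∞ θ x ∧
      θ x = y ∧ ∀ᶠ z in 𝓝 x, θ z ∈ piece ∧ qm A i (θ z) = qm A i z ∧
        ∀ v w, g.form i (θ z) (fderiv ℝ θ z v) (fderiv ℝ θ z w) = g.form i z v w := by
  rw [qm_eq hx, qm_eq hy] at h
  obtain ⟨m, n, k, hk⟩ := mk_eq_same h
  have hk' : y = x + lat m n k := hk
  refine ⟨fun z => z + lat m n k, contDiffAt_id.add contDiffAt_const, hk'.symm, ?_⟩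
  filter_upwards [isOpen_piece.mem_nhds hx] with z hz
  have hz' : z ∈ piece := hz
  refine ⟨add_lat_mem hz' m n k, ?_, fun v w => ?_⟩
  · rw [qm_eq hz', qm_eq (add_lat_mem hz' m n k)]
    exact mk_add_lat i hz' m n k
  · have h1 : fderiv ℝ (fun z : ℂ × ℝ => z + lat m n k) z = ContinuousLinearMap.id ℝ (ℂ × ℝ) := by
      rw [fderiv_add_const]
      exact fderiv_id'
    rw [h1]
    have h2 := g.trans i z v w m n k
    have h3 : z + lat m n k = (z.1 + m + n * Complex.I, z.2 + k) := by
      refine Prod.ext ?_ ?_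
      · simp only [lat, Prod.fst_add]
        ring
      · simp [lat]
    show g.form i (z + lat m n k) v w = g.form i z v w
    rw [h3]
    exact h2

end Pool.Agent.NCR
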