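import Pool.Agent.NCR.Defs
import Pool.Agent.NCR.MTransS
import Pool.Agent.NCR.MTransD
import Pool.Agent.NCT.QuotOpen
import Pool.Agent.NCT.Cpt

/-! # NCR: the closed graph manifold with a Riemannian metric as an `RM`

PROOF of `exists_trans`: `exists_trans_same`, `exists_trans_01`, `exists_trans_10`, transported by `Lc`
(`θ' = Lc.symm ∘ θ ∘ Lc`, `fderiv θ' z v = Lc.symm (fderiv θ (Lc z) (Lc v))`). -/

set_option autoImplicit false

open Set Filter Topology
open scoped ContDiff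

namespace Pool.Agent.NCR

open Pool.Agent.NCP (E RMetric)
open Pool.Agent.NCQ Pool.Agent.NCT

variable {A : Matrix.SpecialLinearGroup (Fin 2) ℤ}

theorem finrank_E3 : Module.finrank ℝ (E 3) = Module.finrank ℝ (ℂ × ℝ) := by
  rw [Module.finrank_prod, Complex.finrank_real_complex, Module.finrank_self]
  simp

/-- linear coordinates -/
noncomputable def Lc : E 3 ≃L[ℝ] ℂ × ℝ := ContinuousLinearEquiv.ofFinrankEq finrank_E3

theorem exists_mG (g : GMMetric A) (i : Fin 2) : ∃ G : E 3 → E 3 →L[ℝ] E 3 →L[ℝ] ℝ,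
    (∀ x v w, G x v w = g.form i (Lc x) (Lc v) (Lc w)) ∧
      ∀ x, Lc x ∈ piece → ContDiffAt ℝ ∞ G x := by
  obtain ⟨G₀, hG₀, -⟩ := g.exists_clm i
  refine ⟨fun x => (G₀ (Lc x)).bilinearComp (Lc : E 3 →L[ℝ] ℂ × ℝ) (Lc : E 3 →L[ℝ] ℂ × ℝ),
    fun x v w => hG₀ (Lc x) (Lc v) (Lc w), ?_⟩
  have hon : ContDiffOn ℝ ∞ (fun x : E 3 =>
      (G₀ (Lc x)).bilinearComp (Lc : E 3 →L[ℝ] ℂ × ℝ) (Lc : E 3 →L[ℝ] ℂ × ℝ)) (Lc ⁻¹' piece) := by
    rw [contDiffOn_clm_apply]
    intro v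
    rw [contDiffOn_clm_apply]
    intro w
    have h1 : ContDiffOn ℝ ∞ (fun x : E 3 => g.form i (Lc x) (Lc v) (Lc w)) (Lc ⁻¹' piece) :=
      (g.smooth i (Lc v) (Lc w)).comp Lc.contDiff.contDiffOn (fun _ hx => hx)
    refine h1.congr fun x _ => ?_
    exact hG₀ (Lc x) (Lc v) (Lc w)
  intro x hx
  exact hon.contDiffAt ((isOpen_piece.preimage Lc.continuous).mem_nhds hx)

/-- the metric in the linear coordinates -/
noncomputable def mG (g : GMMetric A) (i : Fin 2) : E 3 → E 3 →L[ℝ] E 3 →L[ℝ] ℝ :=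
  (exists_mG g i).choose

theorem mG_apply (g : GMMetric A) (i : Fin 2) (x v w : E 3) :
    mG g i x v w = g.form i (Lc x) (Lc v) (Lc w) := (exists_mG g i).choose_spec.1 x v w

theorem contDiffAt_mG (g : GMMetric A) (i : Fin 2) {x : E 3} (hx : Lc x ∈ piece) :
    ContDiffAt ℝ ∞ (mG g i) x := (exists_mG g i).choose_spec.2 x hx

private theorem transport (g : GMMetric A) (i j : Fin 2) {x y : E 3} {θ : ℂ × ℝ → ℂ × ℝ}
    (h1 : ContDiffAt ℝ ∞ θ (Lc x)) (h2 : θ (Lc x) = Lc y)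
    (h3 : ∀ᶠ z in 𝓝 (Lc x), θ z ∈ piece ∧ qm A j (θ z) = qm A i z ∧
        ∀ v w, g.form j (θ z) (fderiv ℝ θ z v) (fderiv ℝ θ z w) = g.form i z v w) :
    ∃ θ : E 3 → E 3, ContDiffAt ℝ ∞ θ x ∧ θ x = y ∧ ∀ᶠ z in 𝓝 x, Lc (θ z) ∈ piece ∧
      qm A j (Lc (θ z)) = qm A i (Lc z) ∧
      ∀ v w, mG g j (θ z) (fderiv ℝ θ z v) (fderiv ℝ θ z w) = mG g i z v w := by
  refine ⟨fun z => Lc.symm (θ (Lc z)), ?_, ?_, ?_⟩
  · exact Lc.symm.contDiff.contDiffAt.comp x
      (ContDiffAt.comp (g := θ) (f := fun z => Lc z) x h1 Lc.contDiff.contDiffAt)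
  · show Lc.symm (θ (Lc x)) = y
    rw [h2, Lc.symm_apply_apply]
  · have hd : ∀ z v, fderiv ℝ (fun z => Lc.symm (θ (Lc z))) z v =
        Lc.symm (fderiv ℝ θ (Lc z) (Lc v)) := by
      intro z v
      have e1 := Lc.symm.comp_fderiv (f := fun z => θ (Lc z)) (x := z)
      have e2 := Lc.comp_right_fderiv (f := θ) (x := z)
      have e3 : fderiv ℝ (fun z => Lc.symm (θ (Lc z))) z =
          (Lc.symm : ℂ × ℝ →L[ℝ] E 3).comp ((fderiv ℝ θ (Lc z)).comp (Lc : E 3 →L[ℝ] ℂ × ℝ)) := by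
        rw [← e2]
        exact e1
      rw [e3]
      rfl
    filter_upwards [(Lc.continuous.tendsto x).eventually h3] with z hz
    obtain ⟨k1, k2, k3⟩ := hz
    refine ⟨?_, ?_, ?_⟩
    · rw [Lc.apply_symm_apply]
      exact k1
    · rw [Lc.apply_symm_apply]
      exact k2
    · intro v w
      rw [mG_apply, mG_apply, hd, hd, Lc.apply_symm_apply, Lc.apply_symm_apply,
        Lc.apply_symm_apply]
      exact k3 (Lc v) (Lc w)

theorem exists_trans (g : GMMetric A) (i j : Fin 2) (x y : E 3) (hx : Lc x ∈ piece)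
    (hy : Lc y ∈ piece) (h : qm A i (Lc x) = qm A j (Lc y)) :
    ∃ θ : E 3 → E 3, ContDiffAt ℝ ∞ θ x ∧ θ x = y ∧ ∀ᶠ z in 𝓝 x, Lc (θ z) ∈ piece ∧
      qm A j (Lc (θ z)) = qm A i (Lc z) ∧
      ∀ v w, mG g j (θ z) (fderiv ℝ θ z v) (fderiv ℝ θ z w) = mG g i z v w := by
  by_cases hij : i = j
  · subst hij
    obtain ⟨θ, h1, h2, h3⟩ := exists_trans_same g i hx hy h
    exact transport g i i h1 h2 h3
  · have hall : ∀ i j : Fin 2, ¬ i = j → (i = 0 ∧ j = 1) ∨ (i = 1 ∧ j = 0) := by decide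
    have hcase := hall i j hij
    rcases hcase with ⟨rfl, rfl⟩ | ⟨rfl, rfl⟩
    · obtain ⟨θ, h1, h2, h3⟩ := exists_trans_01 g hx hy h
      exact transport g 0 1 h1 h2 h3
    · obtain ⟨θ, h1, h2, h3⟩ := exists_trans_10 g hx hy h
      exact transport g 1 0 h1 h2 h3

/-- the graph manifold with the metric `g` -/
noncomputable def rm (g : GMMetric A) : RM 3 (Fin 2) (MBar A) where
  dom := Lc ⁻¹' piece
  isOpen_dom := isOpen_piece.preimage Lc.continuous
  q i x := qm A i (Lc x)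
  cont i := (continuousOn_qm i).comp Lc.continuous.continuousOn (fun _ hx => hx)
  openMap i U hU hUd := by
    have h : (fun x => qm A i (Lc x)) '' U = qm A i '' (Lc '' U) := (image_image _ _ _).symm
    rw [h]
    refine isOpen_image_qm i (Lc.toHomeomorph.isOpenMap U hU) ?_
    rintro _ ⟨x, hx, rfl⟩
    exact hUd hx
  locInj i x hx := by
    obtain ⟨V, hV, hinj⟩ := locInj_qm (A := A) i hx
    refine ⟨Lc ⁻¹' V, Lc.continuous.continuousAt hV, ?_⟩
    intro a ha b hb hab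
    exact Lc.injective (hinj ha hb hab)
  G i := mG g i
  smooth i _ hx := contDiffAt_mG g i hx
  symm i x v w := by rw [mG_apply, mG_apply, g.symm]
  pos i x hx v hv := by
    rw [mG_apply]
    exact g.pos i _ hx _ (fun h => hv (Lc.injective (h.trans (map_zero Lc).symm)))
  trans i j x y hx hy h := exists_trans g i j x y hx hy h
  K := Lc ⁻¹' (exists_compact_cover A).choose
  isCompact_K := Lc.toHomeomorph.isCompact_preimage.mpr (exists_compact_cover A).choose_spec.1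
  K_sub := preimage_mono (exists_compact_cover A).choose_spec.2.1
  cover m := by
    obtain ⟨i, x, hx, hm⟩ := (exists_compact_cover A).choose_spec.2.2 m
    refine ⟨i, Lc.symm x, ?_, ?_⟩
    · rw [mem_preimage, Lc.apply_symm_apply]
      exact hx
    · rw [Lc.apply_symm_apply]
      exact hm

end Pool.Agent.NCR
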