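import Pool.Agent.NCR.Change

/-! # NCR: pull back of the metric by a local diffeomorphism `f : E n → M`

PROOF. `exists_pull`: choose a lift `(j_u, X_u)` at every `u`, put
`form u = (G j_u (X_u u)).bilinearComp (fderiv ℝ X_u u) (fderiv ℝ X_u u)` (any construction of the
continuous bilinear form). By `Lift.metric_eq` it can be computed with every lift at `u`. Near `u₀`
use the lift `X` at `u₀` at all nearby points (`Lift.eventually`): smooth. Positive because of
`hf.inj` and `R.pos`.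
`isLocalHomeomorph`: the lift `X` at `u` is a local diffeomorphism (inverse function theorem,
`fderiv ℝ X u` injective and `E n` finite dimensional) and `q j` is continuous, open and injective near
`X u`. (`isLocalHomeomorph_iff_isOpenEmbedding_restrict` or build the `OpenPartialHomeomorph`.) -/

set_option autoImplicit false

open Set Filter Topology
open scoped ContDiff

namespace Pool.Agent.NCR

open Pool.Agent.NCP (E RMetric)
open Pool.Agent.NCQ (GeodesicAt)

variable {n : ℕ} {ι M : Type} [TopologicalSpace M]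

private theorem flip_smooth {P F : Type} [NormedAddCommGroup P] [NormedSpace ℝ P]
    [NormedAddCommGroup F] [NormedSpace ℝ F] {h : P → F →L[ℝ] F →L[ℝ] ℝ} {u : P}
    (hh : ContDiffAt ℝ ∞ h u) : ContDiffAt ℝ ∞ (fun v => (h v).flip) u := by
  have h1 : ContDiff ℝ ∞ (fun k : F →L[ℝ] F →L[ℝ] ℝ => k.flip) := by
    have h2 : IsBoundedLinearMap ℝ (fun k : F →L[ℝ] F →L[ℝ] ℝ => k.flip) := by
      refine ⟨⟨fun a b => ?_, fun a b => ?_⟩, 1, one_pos, fun a => ?_⟩
      · ext x y; simp
      · ext x y; simp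
      · rw [one_mul, ContinuousLinearMap.opNorm_flip]
    exact h2.contDiff
  exact h1.contDiffAt.comp u hh

/-- smoothness of the pulled back form -/
private theorem smooth_comp {G : E n → E n →L[ℝ] E n →L[ℝ] ℝ} {X : E n → E n} {u : E n}
    (hG : ContDiffAt ℝ ∞ G (X u)) (hX : ContDiffAt ℝ ∞ X u) :
    ContDiffAt ℝ ∞ (fun v => (G (X v)).bilinearComp (fderiv ℝ X v) (fderiv ℝ X v)) u := by
  have hd : ContDiffAt ℝ ∞ (fderiv ℝ X) u := hX.fderiv_right (m := ∞) (by simp)
  have h1 : ContDiffAt ℝ ∞ (fun v => G (X v)) u := hG.comp u hX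
  have h2 : ContDiffAt ℝ ∞ (fun v => (G (X v)).comp (fderiv ℝ X v)) u := h1.clm_comp hd
  have h3 : ContDiffAt ℝ ∞ (fun v => ((G (X v)).comp (fderiv ℝ X v)).flip) u :=
    flip_smooth h2
  have h4 : ContDiffAt ℝ ∞ (fun v => (((G (X v)).comp (fderiv ℝ X v)).flip).comp (fderiv ℝ X v)) u :=
    h3.clm_comp hd
  exact flip_smooth h4

theorem RM.exists_pull {R : RM n ι M} {f : E n → M} (hf : R.LocDiff f) :
    ∃ g : RMetric n, ∀ u (j : ι) (X : E n → E n), R.Lift f u j X → ∀ w w',
      g.form u w w' = R.G j (X u) (fderiv ℝ X u w) (fderiv ℝ X u w') := by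
  classical
  choose j X hX using hf.lift
  set F : E n → E n →L[ℝ] E n →L[ℝ] ℝ := fun u =>
    (R.G (j u) (X u u)).bilinearComp (fderiv ℝ (X u) u) (fderiv ℝ (X u) u) with hF
  have key : ∀ u (i : ι) (Y : E n → E n), R.Lift f u i Y → ∀ w w',
      F u w w' = R.G i (Y u) (fderiv ℝ Y u w) (fderiv ℝ Y u w') := by
    intro u i Y hY w w'
    rw [hF]
    simp only [ContinuousLinearMap.bilinearComp_apply]
    exact (hY.metric_eq (hX u) w w')
  refine ⟨⟨F, ?_, ?_, ?_⟩, key⟩
  · rw [contDiff_iff_contDiffAt]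
    intro u
    have hev := (hX u).eventually
    have h0 := (hX u).self_of_nhds
    have hs := smooth_comp (G := R.G (j u)) (X := X u) (u := u) (R.smooth (j u) _ h0.2.1) h0.1
    refine hs.congr_of_eventuallyEq ?_
    filter_upwards [hev] with v hv
    ext w w'
    rw [key v (j u) (X u) hv w w', ContinuousLinearMap.bilinearComp_apply]
  · intro u v w
    rw [key u _ _ (hX u), key u _ _ (hX u), R.symm]
  · intro u v hv
    rw [key u _ _ (hX u)]
    have h0 := (hX u).self_of_nhds
    refine R.pos _ _ h0.2.1 _ ?_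
    intro h
    apply hv
    apply hf.inj u _ _ (hX u)
    rw [h, map_zero]

/-- the pulled back metric -/
noncomputable def RM.pull {R : RM n ι M} {f : E n → M} (hf : R.LocDiff f) : RMetric n :=
  (RM.exists_pull hf).choose

theorem RM.pull_form {R : RM n ι M} {f : E n → M} (hf : R.LocDiff f) {u : E n} {j : ι}
    {X : E n → E n} (h : R.Lift f u j X) (w w' : E n) :
    (RM.pull hf).form u w w' = R.G j (X u) (fderiv ℝ X u w) (fderiv ℝ X u w') :=
  (RM.exists_pull hf).choose_spec u j X h w w'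

theorem RM.LocDiff.isLocalHomeomorph {R : RM n ι M} {f : E n → M} (hf : R.LocDiff f) :
    IsLocalHomeomorph f := by
  rw [isLocalHomeomorph_iff_isOpenEmbedding_restrict]
  intro u
  obtain ⟨j, X, hX⟩ := hf.lift u
  have h0 := hX.self_of_nhds
  -- the inverse function theorem
  have hinj : Function.Injective (fderiv ℝ X u) := hf.inj u j X hX
  have hstrict : HasStrictFDerivAt X (fderiv ℝ X u) u :=
    h0.1.hasStrictFDerivAt (by simp)
  have hbij : Function.Bijective (fderiv ℝ X u) :=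
    ⟨hinj, (LinearMap.injective_iff_surjective (f := (fderiv ℝ X u : E n →ₗ[ℝ] E n))).1 hinj⟩
  set L : E n ≃L[ℝ] E n := (LinearEquiv.ofBijective (fderiv ℝ X u : E n →ₗ[ℝ] E n) hbij).toContinuousLinearEquiv with hL
  have hLe : (L : E n →L[ℝ] E n) = fderiv ℝ X u := by
    ext v; rfl
  have hs' : HasStrictFDerivAt X (L : E n →L[ℝ] E n) u := by rw [hLe]; exact hstrict
  set Φ := hs'.toOpenPartialHomeomorph X with hΦ
  have hΦc : (Φ : E n → E n) = X := hs'.toOpenPartialHomeomorph_coe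
  have hus : u ∈ Φ.source := hs'.mem_toOpenPartialHomeomorph_source
  -- local injectivity of `q j`
  obtain ⟨V, hV, hVi⟩ := R.locInj j (X u) h0.2.1
  obtain ⟨W, hWV, hWo, huW⟩ := mem_nhds_iff.1 hV
  have hXc : ContinuousAt X u := h0.1.continuousAt
  have hpre : X ⁻¹' W ∈ 𝓝 u := hXc.preimage_mem_nhds (hWo.mem_nhds huW)
  obtain ⟨U, hU, hUo, huU⟩ := mem_nhds_iff.1
    (Filter.inter_mem (Filter.inter_mem (Φ.open_source.mem_nhds hus) hpre) hX)
  have hUs : U ⊆ Φ.source := fun v hv => (hU hv).1.1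
  have hUW : ∀ v ∈ U, X v ∈ W := fun v hv => (hU hv).1.2
  have hUX : ∀ v ∈ U, ContDiffAt ℝ ∞ X v ∧ X v ∈ R.dom ∧ R.q j (X v) = f v := fun v hv => (hU hv).2
  refine ⟨U, hUo.mem_nhds huU, ?_⟩
  refine IsOpenEmbedding.of_continuous_injective_isOpenMap ?_ ?_ ?_
  · -- continuity
    rw [← continuousOn_iff_continuous_domRestrict]
    intro v hv
    have hl : R.Lift f v j X := by
      filter_upwards [hUo.mem_nhds hv] with w hw
      exact hUX w hw
    exact hl.continuousAt.continuousWithinAt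
  · rintro ⟨v, hv⟩ ⟨w, hw⟩ h
    have h' : f v = f w := h
    rw [← (hUX v hv).2.2, ← (hUX w hw).2.2] at h'
    have h2 := hVi (hWV (hUW v hv)) (hWV (hUW w hw)) h'
    rw [← hΦc] at h2
    exact Subtype.ext (Φ.injOn (hUs hv) (hUs hw) h2)
  · intro S hS
    obtain ⟨T, hT, rfl⟩ := isOpen_induced_iff.1 hS
    have hTo : IsOpen (T ∩ U) := hT.inter hUo
    have e1 : U.domRestrict f '' (Subtype.val ⁻¹' T) = R.q j '' (X '' (T ∩ U)) := by
      ext m
      constructor
      · rintro ⟨⟨v, hv⟩, hvT, rfl⟩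
        exact ⟨X v, ⟨v, ⟨hvT, hv⟩, rfl⟩, (hUX v hv).2.2⟩
      · rintro ⟨_, ⟨v, ⟨hvT, hv⟩, rfl⟩, rfl⟩
        exact ⟨⟨v, hv⟩, hvT, (hUX v hv).2.2.symm⟩
    rw [e1]
    refine R.openMap j _ ?_ ?_
    · rw [← hΦc]
      exact Φ.isOpen_image_of_subset_source hTo (fun v hv => hUs hv.2)
    · rintro _ ⟨v, hv, rfl⟩
      exact (hUX v hv.2).2.1

end Pool.Agent.NCR
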