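import Pool.Agent.NCR.Defs
import Pool.Agent.NCP.RBound

/-! # NCR: radial metrics

PROOF. Let `r t = nrm g 0 (c t)`. `d/dt (g₀ (c, c)) = 2 g₀ (c, c') = 2 g (c) (c, c')` (`Radial`), and by
Cauchy-Schwarz for the form `g (c)` this is `≤ 2 √(g (c) (c, c)) √(g (c) (c', c')) = 2 r √(g (c) (c', c'))`
(`g (c) (c, c) = g₀ (c, c)` by `Radial`). So `√(r² + δ)` has derivative `≤ √(g (c) (c', c'))`; integrate,
`δ → 0`.  `radial_dist`: `≥` from `radial_length` for curves from `0` to `u`; `≤`: the straight line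
`t ↦ t u` has speed `√(g (t u) (u, u)) = nrm g 0 u` (`Radial` for the vector `t u`, divide by `t²`;
at `t = 0` trivial). -/

set_option autoImplicit false

open Set Filter Topology
open scoped ContDiff

namespace Pool.Agent.NCR

open Pool.Agent.NCP (E RMetric)

variable {n : ℕ}

/-- Cauchy-Schwarz for the metric at a point -/
theorem rb_cs (g : RMetric n) (x v w : E n) :
    |g.form x v w| ≤ √(g.form x v v) * √(g.form x w w) := by
  have hsq : (g.form x v w) ^ 2 ≤ g.form x v v * g.form x w w := by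
    by_cases hw : w = 0
    · subst hw
      simp
    · have ha : 0 < g.form x w w := g.pos x w hw
      have h1 := g.form_nonneg x ((g.form x w w) • v - (g.form x v w) • w)
      have h2 : g.form x ((g.form x w w) • v - (g.form x v w) • w)
          ((g.form x w w) • v - (g.form x v w) • w)
          = g.form x w w * (g.form x v v * g.form x w w - (g.form x v w) ^ 2) := by
        simp only [map_sub, map_smul, FunLike.coe_sub, FunLike.coe_smul, Pi.sub_apply,
          Pi.smul_apply, smul_eq_mul]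
        rw [g.symm x w v]
        ring
      rw [h2] at h1
      have h3 := nonneg_of_mul_nonneg_right h1 ha
      linarith
  rw [← Real.sqrt_mul (g.form_nonneg x v), ← Real.sqrt_sq_eq_abs]
  exact Real.sqrt_le_sqrt hsq

/-- the bound of the derivative of the radius -/
theorem rb_bound {g : RMetric n} (hg : Radial g) (x w : E n) {δ : ℝ} (hδ : 0 < δ) :
    g.form 0 x w / √(g.form 0 x x + δ) ≤ √(g.form x w w) := by
  have h0 : 0 ≤ g.form 0 x x := g.form_nonneg 0 x
  have hpos : 0 < √(g.form 0 x x + δ) := Real.sqrt_pos.2 (by linarith)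
  rw [div_le_iff₀ hpos]
  have h1 := rb_cs g x x w
  rw [hg x w, hg x x] at h1
  calc g.form 0 x w ≤ |g.form 0 x w| := le_abs_self _
    _ ≤ √(g.form 0 x x) * √(g.form x w w) := h1
    _ ≤ √(g.form 0 x x + δ) * √(g.form x w w) := by
        apply mul_le_mul_of_nonneg_right _ (Real.sqrt_nonneg _)
        exact Real.sqrt_le_sqrt (by linarith)
    _ = _ := mul_comm _ _

theorem rb_hasDerivAt (g : RMetric n) {c : ℝ → E n} {c' : E n} {t δ : ℝ} (hδ : 0 < δ)
    (hc : HasDerivAt c c' t) :
    HasDerivAt (fun s => √(g.form 0 (c s) (c s) + δ))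
      (g.form 0 (c t) c' / √(g.form 0 (c t) (c t) + δ)) t := by
  have h0 : 0 ≤ g.form 0 (c t) (c t) := g.form_nonneg 0 (c t)
  have h1 : HasDerivAt (fun s => g.form 0 (c s)) (g.form 0 c') t :=
    (g.form 0).hasFDerivAt.comp_hasDerivAt t hc
  have h2 : HasDerivAt (fun s => g.form 0 (c s) (c s))
      (g.form 0 c' (c t) + g.form 0 (c t) c') t := h1.clm_apply hc
  have h3 := (h2.add_const δ).sqrt (by positivity)
  have h4 : (g.form 0 c' (c t) + g.form 0 (c t) c') / (2 * √(g.form 0 (c t) (c t) + δ))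
      = g.form 0 (c t) c' / √(g.form 0 (c t) (c t) + δ) := by
    rw [g.symm 0 c' (c t)]
    have hpos : 0 < √(g.form 0 (c t) (c t) + δ) := Real.sqrt_pos.2 (by linarith)
    field_simp
    ring
  rw [h4] at h3
  exact h3

theorem rb_nrm_le (g : RMetric n) (x : E n) {δ : ℝ} (hδ : 0 ≤ δ) :
    nrm g 0 x ≤ √(g.form 0 x x + δ) := by
  unfold nrm
  exact Real.sqrt_le_sqrt (by linarith)

theorem rb_le_nrm (g : RMetric n) (x : E n) {ε : ℝ} (hε : 0 ≤ ε) :
    √(g.form 0 x x + ε ^ 2) ≤ nrm g 0 x + ε := by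
  have h0 : 0 ≤ g.form 0 x x := g.form_nonneg 0 x
  unfold nrm
  have hs := Real.sqrt_nonneg (g.form 0 x x)
  rw [Real.sqrt_le_left (by linarith)]
  have h1 : √(g.form 0 x x) ^ 2 = g.form 0 x x := Real.sq_sqrt h0
  nlinarith

theorem radial_norm_le {g : RMetric n} (hg : Radial g) {c : ℝ → E n} {T L : ℝ} (hL : 0 ≤ L)
    (hc : ContinuousOn c (Ico 0 T))
    (hd : ∀ t ∈ Ioo 0 T, DifferentiableAt ℝ c t ∧ g.form (c t) (deriv c t) (deriv c t) ≤ L ^ 2)
    {t : ℝ} (ht : t ∈ Ico 0 T) : nrm g 0 (c t) ≤ nrm g 0 (c 0) + L * t := by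
  refine le_of_forall_pos_le_add fun ε hε => ?_
  have hδ : 0 < ε ^ 2 := by positivity
  have hcont : ContinuousOn (fun s => √(g.form 0 (c s) (c s) + ε ^ 2)) (Ico 0 T) := by
    apply Real.continuous_sqrt.comp_continuousOn
    apply ContinuousOn.add _ continuousOn_const
    exact ((g.form 0).continuous.comp_continuousOn hc).clm_apply hc
  have h1 := (convex_Ico (0 : ℝ) T).image_sub_le_mul_sub_of_deriv_le hcont
    (by
      rw [interior_Ico]
      intro s hs
      exact (rb_hasDerivAt g hδ (hd s hs).1.hasDerivAt).differentiableAt.differentiableWithinAt)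
    (C := L)
    (by
      rw [interior_Ico]
      intro s hs
      rw [(rb_hasDerivAt g hδ (hd s hs).1.hasDerivAt).deriv]
      refine (rb_bound hg _ _ hδ).trans ?_
      rw [Real.sqrt_le_left hL]
      exact (hd s hs).2)
    0 ⟨le_refl _, lt_of_le_of_lt ht.1 ht.2⟩ t ht ht.1
  have h2 := rb_nrm_le g (c t) hδ.le
  have h3 := rb_le_nrm g (c 0) hε.le
  simp only [sub_zero] at h1
  linarith

theorem radial_length {g : RMetric n} (hg : Radial g) {c : ℝ → E n} (hc : ContDiff ℝ 1 c) {a b : ℝ}
    (hab : a ≤ b) : nrm g 0 (c b) - nrm g 0 (c a) ≤ ∫ t in a..b, g.speed c t := by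
  refine le_of_forall_pos_le_add fun ε hε => ?_
  have hδ : 0 < ε ^ 2 := by positivity
  have hd : ∀ t, HasDerivAt c (deriv c t) t := fun t =>
    (hc.differentiable (by norm_num) t).hasDerivAt
  have hcd : Continuous (deriv c) := hc.continuous_deriv (by norm_num)
  have hcc : Continuous c := hc.continuous
  have hD : Continuous (fun t => g.form 0 (c t) (deriv c t) / √(g.form 0 (c t) (c t) + ε ^ 2)) := by
    apply Continuous.div
    · exact ((g.form 0).continuous.comp hcc).clm_apply hcd
    · apply Real.continuous_sqrt.comp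
      exact (((g.form 0).continuous.comp hcc).clm_apply hcc).add continuous_const
    · intro t
      have h0 : 0 ≤ g.form 0 (c t) (c t) := g.form_nonneg 0 (c t)
      exact (Real.sqrt_pos.2 (by linarith)).ne'
  have h1 : ∫ t in a..b, g.form 0 (c t) (deriv c t) / √(g.form 0 (c t) (c t) + ε ^ 2)
      = √(g.form 0 (c b) (c b) + ε ^ 2) - √(g.form 0 (c a) (c a) + ε ^ 2) :=
    intervalIntegral.integral_eq_sub_of_hasDerivAt
      (f := fun s => √(g.form 0 (c s) (c s) + ε ^ 2))
      (fun t _ => rb_hasDerivAt g hδ (hd t)) (hD.intervalIntegrable _ _)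
  have h2 : ∫ t in a..b, g.form 0 (c t) (deriv c t) / √(g.form 0 (c t) (c t) + ε ^ 2)
      ≤ ∫ t in a..b, g.speed c t :=
    intervalIntegral.integral_mono_on hab (hD.intervalIntegrable _ _)
      ((g.continuous_speed hc).intervalIntegrable _ _)
      (fun t _ => rb_bound hg (c t) (deriv c t) hδ)
  have h3 := rb_nrm_le g (c b) hδ.le
  have h4 := rb_le_nrm g (c a) hε.le
  linarith

theorem radial_dist {g : RMetric n} (hg : Radial g) (u : E n) : g.dist 0 u = nrm g 0 u := by
  apply le_antisymm
  · have hc : ContDiff ℝ 1 (fun t : ℝ => t • u) := contDiff_id.smul contDiff_const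
    have h1 : g.dist 0 u ≤ g.length (fun t : ℝ => t • u) :=
      g.dist_le_length hc (by simp) (by simp)
    have hderiv : ∀ t : ℝ, deriv (fun t : ℝ => t • u) t = u := by
      intro t
      have h := (hasDerivAt_id t).smul_const u
      simpa using h.deriv
    have hs : ∀ t : ℝ, g.speed (fun t : ℝ => t • u) t = nrm g 0 u := by
      intro t
      unfold NCP.RMetric.speed nrm
      rw [hderiv t]
      by_cases ht : t = 0
      · subst ht
        simp
      · have h2 := hg (t • u) u
        simp only [map_smul, FunLike.coe_smul, Pi.smul_apply, smul_eq_mul] at h2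
        have h3 := mul_left_cancel₀ ht h2
        rw [h3]
    have h2 : g.length (fun t : ℝ => t • u) = nrm g 0 u := by
      unfold NCP.RMetric.length
      simp_rw [hs]
      simp
    rw [h2] at h1
    exact h1
  · refine le_of_forall_pos_le_add fun ε hε => ?_
    obtain ⟨c, hc, h0, h1, hl⟩ := g.exists_curve_lt 0 u hε
    have h2 := radial_length hg hc (zero_le_one (α := ℝ))
    rw [h0, h1] at h2
    have h3 : nrm g 0 (0 : E n) = 0 := by simp [nrm]
    rw [h3] at h2
    have h4 : g.length c = ∫ t in (0 : ℝ)..1, g.speed c t := rfl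
    linarith

end Pool.Agent.NCR
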