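import Pool.Agent.NCR.FanEx
import Pool.Agent.NCR.Cover
import Pool.Agent.NCR.Deck
import Pool.Agent.NCR.FanNCP

/-! # NCR: theorem A (Cartan-Hadamard for manifolds without conjugate points given by charts) -/

set_option autoImplicit false

open Set Filter Topology
open scoped ContDiff

namespace Pool.Agent.NCR

open Pool.Agent.NCP (E RMetric)

variable {n : ℕ} {ι M : Type} [TopologicalSpace M]

theorem RM.thmA [T2Space M] [Finite ι] {R : RM n ι M} (hR : R.NoConj) (i : ι) {x : E n}
    (hx : x ∈ R.dom) : ∃ (g : RMetric n) (π : E n → M), IsCoveringMap π ∧ g.NoConjugatePoints ∧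
      ∀ T : E n → E n, Continuous T → (∀ u, π (T u) = π u) → ∀ x y, g.dist (T x) (T y) ≤ g.dist x y := by
  have hD : Function.Injective (ContinuousLinearMap.id ℝ (E n)) := fun _ _ h => h
  have hf : R.LocDiff (R.ex i x (ContinuousLinearMap.id ℝ (E n))) := RM.locDiff_ex hR i hx hD
  have hrf : Radial (RM.pull hf) := by
    refine RM.radial_pull hf fun u t => ?_
    have h : (fun s : ℝ => R.ex i x (ContinuousLinearMap.id ℝ (E n)) (s • u)) = R.geo i x u := by
      funext s
      exact R.ex_smul i hx _ u s
    rw [h]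
    exact R.geo_isGeo i hx u t
  obtain ⟨F⟩ := RM.exists_fan hR hf hrf
  exact ⟨RM.pull hf, _, RM.isCoveringMap hf hrf, F.noConjugatePoints,
    fun T hT hfT x y => RM.deck_dist hf hT hfT x y⟩

end Pool.Agent.NCR
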